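import Pool.Agent.H68.SM.Ground
import Pool.Agent.H68.SM.Geo
import Pool.Agent.H68.SM.Inv
import Pool.Agent.H68.SM.Par
import Pool.Agent.H68.SC.MainA
import Pool.Agent.H68.SC.NegSpan

/-!
# Module AxN (about 150 lines): a body of revolution has two Dirichlet eigenvalues below `k²`

PROOF. Suppose `D` is not a ball. As in `axisB` (H68/SM/MainM.lean): the class `Cl eB` (odd in `x_0`,
even in `x_1`) contains the two independent eigenfunctions `ww U (ee 0, 0)`, `ww U (0, ee 1)` (copy the
proofs of `hwE`, `hwC`, `hli`, `hDe` from `axisB`, do not import MainM), so `ground` gives `f₂ ∈ C1c D ⊓ Cl eB` with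
`BB (k²) f₂ f₂ < 0`. The function `f₁ = √(f₂² + ε²) - ε ∈ C1c D` is even in `x_0`, `gg f₁ f₁ ≤ gg f₂ f₂`,
`|f₁ - |f₂|| ≤ ε`, so `BB (k²) f₁ f₁ < 0` for small `ε > 0`. `BB (k²) f₁ f₂ = 0` by parity under `rf 0`.
`neg_span` (H68/SC/NegSpan.lean) with `S = ⊤`.
-/

set_option autoImplicit false

namespace Pool.Agent.H68.SN

open Filter Topology MeasureTheory Metric
open scoped ContDiff
open Pool.Agent.H68.SC Pool.Agent.H68.SM

private noncomputable def axs (i j : Fin 3) : ℝ := if i = j then -1 else 1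

private theorem axs_sq (i j : Fin 3) : axs i j * axs i j = 1 := by
  unfold axs; split_ifs <;> norm_num

private theorem ax_rf_ee (i j : Fin 3) : rf j (ee i) = axs i j • ee i := by
  ext l
  rw [rf_apply, PiLp.smul_apply, smul_eq_mul, ee_apply]
  unfold axs
  by_cases h1 : l = j <;> by_cases h2 : i = j <;> by_cases h3 : l = i <;>
    simp_all

private theorem ax_pd_rf {ψ : E → ℝ} (h : Differentiable ℝ ψ) (i j : Fin 3) (x : E) :
    pd (fun x => ψ (rf j x)) i x = axs i j * pd ψ i (rf j x) := by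
  have h1 : HasFDerivAt (fun y => rf j y) ((rfI j).toContinuousLinearEquiv : E →L[ℝ] E) x :=
    (rfI j).toContinuousLinearEquiv.hasFDerivAt
  have h2 : HasFDerivAt (fun y => ψ (rf j y)) _ x := (h (rf j x)).hasFDerivAt.comp x h1
  unfold pd
  rw [h2.fderiv]
  change fderiv ℝ ψ (rf j x) (rf j (ee i)) = _
  rw [ax_rf_ee, map_smul, smul_eq_mul]

private theorem ax_comp (F : E → ℝ) (j : Fin 3) : ∫ x, F (rf j x) = ∫ x, F x := by
  have h : MeasurableEmbedding (rf j) := (rfI j).toHomeomorph.measurableEmbedding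
  exact (measurePreserving_rf j).integral_comp h F

private theorem ax_gg_rf {f g : E → ℝ} (hf : Differentiable ℝ f) (hg : Differentiable ℝ g)
    (j : Fin 3) (x : E) :
    gg (fun x => f (rf j x)) (fun x => g (rf j x)) x = gg f g (rf j x) := by
  unfold gg
  refine Finset.sum_congr rfl fun i _ => ?_
  rw [ax_pd_rf hf, ax_pd_rf hg]
  linear_combination (pd f i (rf j x) * pd g i (rf j x)) * axs_sq i j

private theorem ax_BB_zero {f g : E → ℝ} (hf : Differentiable ℝ f) (hg : Differentiable ℝ g)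
    (K : ℝ) (j : Fin 3) (he : ∀ x, f (rf j x) = f x) (ho : ∀ x, g (rf j x) = -g x) :
    BB K f g = 0 := by
  have h1 : ∀ x, gg f g (rf j x) = -gg f g x := by
    intro x
    rw [← ax_gg_rf hf hg]
    have e1 : (fun x => f (rf j x)) = f := funext he
    have e2 : (fun x => g (rf j x)) = fun x => (-1 : ℝ) * g x := by
      funext y; rw [ho y]; ring
    rw [e1, e2]
    unfold gg
    rw [← Finset.sum_neg_distrib]
    refine Finset.sum_congr rfl fun i _ => ?_
    rw [pd_const_mul (-1) (hg x)]
    ring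
  have h2 : ∫ x, (gg f g (rf j x) - K * (f (rf j x) * g (rf j x))) = BB K f g :=
    ax_comp (fun x => gg f g x - K * (f x * g x)) j
  have h3 : ∫ x, (gg f g (rf j x) - K * (f (rf j x) * g (rf j x))) = -BB K f g := by
    unfold BB
    rw [← integral_neg]
    refine integral_congr_ae (Eventually.of_forall fun x => ?_)
    simp only
    rw [h1, he, ho]
    ring
  linarith

private theorem ax_sqrt_deriv {f : E → ℝ} (hf : Differentiable ℝ f) {ε : ℝ} (hε : 0 < ε) (x : E)
    (i : Fin 3) : pd (fun x => Real.sqrt (f x ^ 2 + ε ^ 2) - ε) i x =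
      f x / Real.sqrt (f x ^ 2 + ε ^ 2) * pd f i x := by
  have h1 : HasFDerivAt f (fderiv ℝ f x) x := (hf x).hasFDerivAt
  have hpos : 0 < f x ^ 2 + ε ^ 2 := by positivity
  have h3 : HasDerivAt (fun t : ℝ => Real.sqrt (t ^ 2 + ε ^ 2) - ε)
      (f x / Real.sqrt (f x ^ 2 + ε ^ 2)) (f x) := by
    have h4 : HasDerivAt (fun t : ℝ => t ^ 2 + ε ^ 2) (2 * f x) (f x) := by
      simpa using (hasDerivAt_pow 2 (f x)).add_const (ε ^ 2)
    have h5 := (h4.sqrt hpos.ne').sub_const ε
    refine h5.congr_deriv ?_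
    have : Real.sqrt (f x ^ 2 + ε ^ 2) ≠ 0 := (Real.sqrt_pos.2 hpos).ne'
    field_simp
  have h6 := h3.comp_hasFDerivAt x h1
  unfold pd
  have h7 : fderiv ℝ (fun x => Real.sqrt (f x ^ 2 + ε ^ 2) - ε) x =
      (f x / Real.sqrt (f x ^ 2 + ε ^ 2)) • fderiv ℝ f x := h6.fderiv
  rw [h7]
  rfl

private theorem ax_gg_le {f : E → ℝ} (hf : Differentiable ℝ f) {ε : ℝ} (hε : 0 < ε) (x : E) :
    gg (fun x => Real.sqrt (f x ^ 2 + ε ^ 2) - ε) (fun x => Real.sqrt (f x ^ 2 + ε ^ 2) - ε) x ≤
      gg f f x := by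
  unfold gg
  refine Finset.sum_le_sum fun i _ => ?_
  rw [ax_sqrt_deriv hf hε]
  have hpos : 0 < f x ^ 2 + ε ^ 2 := by positivity
  have hs := Real.sqrt_pos.2 hpos
  have h1 : (f x / Real.sqrt (f x ^ 2 + ε ^ 2)) ^ 2 ≤ 1 := by
    rw [div_pow, Real.sq_sqrt hpos.le, div_le_one hpos]
    nlinarith
  have h2 : 0 ≤ pd f i x * pd f i x := mul_self_nonneg _
  nlinarith

private theorem ax_sq_ge (a : ℝ) {ε : ℝ} (hε : 0 < ε) :
    a ^ 2 - 2 * ε * |a| ≤ (Real.sqrt (a ^ 2 + ε ^ 2) - ε) * (Real.sqrt (a ^ 2 + ε ^ 2) - ε) := by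
  have hpos : 0 ≤ a ^ 2 + ε ^ 2 := by positivity
  have h1 : Real.sqrt (a ^ 2 + ε ^ 2) ≤ |a| + ε := by
    rw [Real.sqrt_le_left (by positivity)]
    have := abs_nonneg a
    nlinarith [sq_abs a]
  have h2 := Real.sq_sqrt hpos
  nlinarith

private theorem ax_abs {D : Set E} {K : ℝ} (hK : 0 < K) {f : E → ℝ} (hf : f ∈ C1c D)
    (hneg : BB K f f < 0) {j : Fin 3} (ho : ∀ x, f (rf j x) = -f x) :
    ∃ g ∈ C1c D, (∀ x, g (rf j x) = g x) ∧ BB K g g < 0 := by
  have hA : HasCompactSupport fun x => |f x| := (C1c.compact hf).comp_left abs_zero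
  have hAi : Integrable fun x => |f x| := integrable_cc (C1c.cont hf).abs hA
  have hI : 0 ≤ ∫ x, |f x| := integral_nonneg fun x => abs_nonneg _
  set I := ∫ x, |f x| with hIdef
  set ε : ℝ := -BB K f f / (2 * K * I + 1) with hεdef
  have hden : 0 < 2 * K * I + 1 := by positivity
  have hε : 0 < ε := div_pos (by linarith) hden
  have h0 : Real.sqrt ((0 : ℝ) ^ 2 + ε ^ 2) - ε = 0 := by
    rw [zero_pow two_ne_zero, zero_add, Real.sqrt_sq hε.le, sub_self]
  set g : E → ℝ := fun x => Real.sqrt (f x ^ 2 + ε ^ 2) - ε with hg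
  have hg1 : ContDiff ℝ 1 g := by
    refine ContDiff.sub (ContDiff.sqrt (((C1c.contDiff hf).pow 2).add contDiff_const) ?_) contDiff_const
    intro x
    positivity
  have hgc : HasCompactSupport g := (C1c.compact hf).comp_left (g := fun t => Real.sqrt (t ^ 2 + ε ^ 2) - ε) h0
  have hgs : tsupport g ⊆ D := by
    refine (closure_mono ?_).trans (C1c.sub hf)
    intro x hx hx0
    apply hx
    change Real.sqrt (f x ^ 2 + ε ^ 2) - ε = 0
    rw [hx0]
    exact h0
  have hgm : g ∈ C1c D := ⟨hg1, hgc, hgs⟩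
  refine ⟨g, hgm, ?_, ?_⟩
  · intro x
    change Real.sqrt (f (rf j x) ^ 2 + ε ^ 2) - ε = Real.sqrt (f x ^ 2 + ε ^ 2) - ε
    rw [ho x, neg_sq]
  · have hle : BB K g g ≤ BB K f f + 2 * ε * K * I := by
      have e1 : BB K f f + 2 * ε * K * I =
          ∫ x, ((gg f f x - K * (f x * f x)) + 2 * ε * K * |f x|) := by
        rw [integral_add]
        · rw [integral_const_mul]
          rfl
        · exact (C1c.int_gg hf hf).sub ((C1c.int_mul hf hf).const_mul K)
        · exact hAi.const_mul _
      rw [e1]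
      unfold BB
      refine integral_mono ?_ ?_ ?_
      · exact (C1c.int_gg hgm hgm).sub ((C1c.int_mul hgm hgm).const_mul K)
      · exact ((C1c.int_gg hf hf).sub ((C1c.int_mul hf hf).const_mul K)).add (hAi.const_mul _)
      · intro x
        have h1 := ax_gg_le (C1c.diff hf) hε x
        have h2 := ax_sq_ge (f x) hε
        change gg g g x - K * (g x * g x) ≤ gg f f x - K * (f x * f x) + 2 * ε * K * |f x|
        change gg g g x ≤ _ at h1
        change _ ≤ g x * g x at h2
        nlinarith [mul_le_mul_of_nonneg_left h2 hK.le]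
    have h3 : ε * (2 * K * I + 1) = -BB K f f := div_mul_cancel₀ _ hden.ne'
    have h4 : BB K f f + 2 * ε * K * I = -ε := by linarith
    linarith

theorem ax_two {D : Set E} {φ : E → ℝ} {k c : ℝ} {u : E → ℝ} (h : Sol D φ k c u)
    (h0 : ww (extU D c u) (0, ee 2) = 0) (hball : ¬∃ (z : E) (r : ℝ), D = ball z r) :
    AtLeast ⊤ D (k ^ 2) 2 := by
  have h' := ext_UU h
  set U := extU D c u with hU
  have hUd : Differentiable ℝ U := h'.C1.differentiable one_ne_zero
  have hev := refl_even h' h0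
  have hin := refl_inv h h0
  have hK : (0 : ℝ) < k ^ 2 := by have := h'.kpos; positivity
  set w : Fin 2 → E → ℝ := ![ww U (ee 0, 0), ww U (0, ee 1)] with hw
  have hwE : ∀ i, Eigf D (k ^ 2) (w i) := by
    intro i
    fin_cases i
    · exact ww_eigf h' _
    · exact ww_eigf h' _
  have hwC : ∀ i, w i ∈ Cl eB := by
    intro i j hj x
    fin_cases i
    · change ww U (ee 0, 0) (rf j x) = eB j * ww U (ee 0, 0) x
      fin_cases j
      · change ww U (ee 0, 0) (rf 0 x) = eB 0 * ww U (ee 0, 0) x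
        rw [ww_rf hUd (hev 0 (by decide))]
        have e1 : (rf 0 (ee 0), -rf 0 (0 : E)) = -((ee 0, 0) : E × E) := by
          rw [rf_ee, rf_zero']; simp
        rw [e1, ww_neg]; simp [eB]
      · change ww U (ee 0, 0) (rf 1 x) = eB 1 * ww U (ee 0, 0) x
        rw [ww_rf hUd (hev 1 (by decide))]
        have e1 : (rf 1 (ee 0), -rf 1 (0 : E)) = ((ee 0, 0) : E × E) := by
          rw [rf_ee, rf_zero']; simp
        rw [e1]; simp [eB]
      · exact absurd rfl hj
    · change ww U (0, ee 1) (rf j x) = eB j * ww U (0, ee 1) x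
      fin_cases j
      · change ww U (0, ee 1) (rf 0 x) = eB 0 * ww U (0, ee 1) x
        rw [ww_rf hUd (hev 0 (by decide))]
        have e1 : (rf 0 (0 : E), -rf 0 (ee 1)) = -((0, ee 1) : E × E) := by
          rw [rf_ee, rf_zero']; simp
        rw [e1, ww_neg]; simp [eB]
      · change ww U (0, ee 1) (rf 1 x) = eB 1 * ww U (0, ee 1) x
        rw [ww_rf hUd (hev 1 (by decide))]
        have e1 : (rf 1 (0 : E), -rf 1 (ee 1)) = ((0, ee 1) : E × E) := by
          rw [rf_ee, rf_zero']; simp
        rw [e1]; simp [eB]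
      · exact absurd rfl hj
  have hli : LinearIndependent ℝ w := by
    rw [Fintype.linearIndependent_iff]
    intro g hg
    rw [Fin.sum_univ_two] at hg
    by_contra hne
    push Not at hne
    have hg' : ww U (g 0 • ee 0, g 1 • ee 1) = 0 := by
      have e1 : ((g 0 • ee 0, g 1 • ee 1) : E × E) = g 0 • (ee 0, 0) + g 1 • (0, ee 1) := by
        simp
      rw [e1, ww_add, ww_smul, ww_smul]
      exact hg
    have hk1 := ball_or h hball ⊤
    rw [← hU] at hk1
    have hk2 : 2 ≤ Module.finrank ℝ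
        ((⊤ : Submodule ℝ (E × E)) ⊓ LinearMap.ker (wwL U) : Submodule ℝ (E × E)) := by
      have m1 : ((0, ee 2) : E × E) ∈
          ((⊤ : Submodule ℝ (E × E)) ⊓ LinearMap.ker (wwL U) : Submodule ℝ (E × E)) :=
        ⟨trivial, h0⟩
      have m2 : ((g 0 • ee 0, g 1 • ee 1) : E × E) ∈
          ((⊤ : Submodule ℝ (E × E)) ⊓ LinearMap.ker (wwL U) : Submodule ℝ (E × E)) :=
        ⟨trivial, hg'⟩
      have m3 : LinearIndependent ℝ ![(⟨_, m1⟩ :
          ((⊤ : Submodule ℝ (E × E)) ⊓ LinearMap.ker (wwL U) : Submodule ℝ (E × E))), ⟨_, m2⟩] := by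
        rw [LinearIndependent.pair_iff]
        intro s t hst
        have hst' : s • ((0, ee 2) : E × E) + t • ((g 0 • ee 0, g 1 • ee 1) : E × E) = 0 := by
          have := congrArg Subtype.val hst
          simpa using this
        have c1 : s • (ee 2 : E) + t • (g 1 • ee 1) = 0 := by
          have := congrArg Prod.snd hst'
          simpa using this
        have c0 : t • (g 0 • (ee 0 : E)) = 0 := by
          have := congrArg Prod.fst hst'
          simpa using this
        have d2 : s = 0 := by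
          have := congrArg (fun v : E => v 2) c1
          simpa using this
        have d1 : t * g 1 = 0 := by
          have := congrArg (fun v : E => v 1) c1
          simpa using this
        have d0 : t * g 0 = 0 := by
          have := congrArg (fun v : E => v 0) c0
          simpa using this
        refine ⟨d2, ?_⟩
        obtain ⟨i, hi⟩ := hne
        fin_cases i
        · exact (mul_eq_zero.1 d0).resolve_right hi
        · exact (mul_eq_zero.1 d1).resolve_right hi
      have := m3.fintype_card_le_finrank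
      simpa using this
    omega
  have hDe : ∀ j, eB j ≠ 0 → ∀ x ∈ D, rf j x ∈ D := by
    intro j hj
    have : j ≠ 2 := by rintro rfl; exact hj rfl
    exact hin j this
  have hg := ground h'.opn h'.bdd h.conn.isPreconnected h'.ne hK (e := eB) rfl
    (by intro j hj; fin_cases j
        · exact absurd rfl hj
        · exact Or.inr rfl
        · exact Or.inl rfl) hDe w hwE hwC hli
  obtain ⟨F, hF1, -, hF3, hF4⟩ := hg
  have hFne : ∃ f ∈ F, f ≠ 0 := by
    by_contra hcon
    push Not at hcon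
    have : F = ⊥ := by
      rw [Submodule.eq_bot_iff]
      exact hcon
    rw [this, finrank_bot] at hF3
    omega
  obtain ⟨f, hfF, hf0⟩ := hFne
  have hfC := hF1 hfF
  have hneg : BB (k ^ 2) f f < 0 := by
    rw [BB_self hfC.1]
    have := hF4 f hfF hf0
    linarith
  have ho : ∀ x, f (rf 0 x) = -f x := by
    intro x
    have h1 := hfC.2 0 (by simp [eB]) x
    rw [h1]
    simp [eB]
  obtain ⟨g, hgm, hge, hgn⟩ := ax_abs hK hfC.1 hneg ho
  have hz := ax_BB_zero (C1c.diff hgm) (C1c.diff hfC.1) (k ^ 2) 0 hge ho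
  have := neg_span (S := ⊤) (Ω := D) (K := k ^ 2) ![g, f]
    (by intro i
        fin_cases i
        · exact ⟨hgm, trivial⟩
        · exact ⟨hfC.1, trivial⟩)
    (by intro i
        fin_cases i
        · exact hgn
        · exact hneg)
    (by intro i i' hii
        fin_cases i <;> fin_cases i'
        · exact absurd rfl hii
        · exact hz
        · change BB (k ^ 2) f g = 0
          rw [BB_comm]
          exact hz
        · exact absurd rfl hii)
  rwa [Fintype.card_fin] at this

end Pool.Agent.H68.SN
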