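import Pool.Agent.H68.SM.Geo
import Pool.Agent.H68.SC.MainA

/-!
# Module AxT (about 120 lines): moving the axis to the third coordinate axis

PROOF. As `to_axis` in H68/SM/Geo.lean (copy its proof with `x₁ = q`, without the ball of radius `R`),
`D' = A ⁻¹' ((fun x => x + q) ⁻¹' D)` with a linear isometry `A`, `A (ee 2) = b / ‖b‖`. The new last
clause: for a test function `f` of `D'` the function `x ↦ f (A⁻¹ (x - q))` is a test function of `D`
with the same `∫ ‖fderiv ℝ f x‖ ^ 2` and `∫ f²` (linear isometries and translations preserve the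
measure and the norm of the derivative), and this map is linear and injective; map the space `F`.
-/

set_option autoImplicit false

namespace Pool.Agent.H68.SN

open Filter Topology MeasureTheory Metric
open scoped ContDiff
open Pool.Agent.H68.SC Pool.Agent.H68.SM

private theorem axt_iso {a b : E} (ha : ‖a‖ = 1) (hb : ‖b‖ = 1) :
    ∃ A : E ≃ₗᵢ[ℝ] E, A a = b := by
  by_cases h : a = b
  · exact ⟨LinearIsometryEquiv.refl ℝ E, by simpa using h⟩
  · exact ⟨(ℝ ∙ (a - b))ᗮ.reflection, Submodule.reflection_sub (by rw [ha, hb])⟩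

private theorem axt_back (A : E ≃ₗᵢ[ℝ] E) (x₁ : E) {D : Set E}
    (h : ∃ (z : E) (r : ℝ), A ⁻¹' ((fun x => x + x₁) ⁻¹' D) = ball z r) :
    ∃ (z : E) (r : ℝ), D = ball z r := by
  obtain ⟨z, r, h⟩ := h
  refine ⟨A z + x₁, r, ?_⟩
  ext w
  have h1 : w ∈ D ↔ A.symm (w - x₁) ∈ ball z r := by
    rw [← h]
    simp
  rw [h1, mem_ball, mem_ball, dist_eq_norm, dist_eq_norm, ← A.norm_map, map_sub,
    A.apply_symm_apply, sub_sub, add_comm x₁]

private theorem axt_inner (x y : E) : inner ℝ x y = x 0 * y 0 + x 1 * y 1 + x 2 * y 2 := by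
  rw [PiLp.inner_apply, Fin.sum_univ_three]
  simp only [RCLike.inner_apply, conj_trivial]
  ring

private theorem axt_norm (x : E) : ‖x‖ ^ 2 = x 0 ^ 2 + x 1 ^ 2 + x 2 ^ 2 := by
  rw [EuclideanSpace.norm_sq_eq, Fin.sum_univ_three]
  simp only [Real.norm_eq_abs, sq_abs]

private theorem axt_crs0 (a x : E) : crs a x 0 = a 1 * x 2 - a 2 * x 1 := by simp [crs]
private theorem axt_crs1 (a x : E) : crs a x 1 = a 2 * x 0 - a 0 * x 2 := by simp [crs]
private theorem axt_crs2 (a x : E) : crs a x 2 = a 0 * x 1 - a 1 * x 0 := by simp [crs]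

private theorem axt_nc (a x : E) : ‖crs a x‖ ^ 2 = ‖a‖ ^ 2 * ‖x‖ ^ 2 - (inner ℝ a x : ℝ) ^ 2 := by
  rw [axt_norm, axt_norm, axt_norm, axt_inner, axt_crs0, axt_crs1, axt_crs2]
  ring

private theorem axt_i1 (a x : E) : inner ℝ a (crs a x) = (0 : ℝ) := by
  rw [axt_inner, axt_crs0, axt_crs1, axt_crs2]
  ring

private theorem axt_i2 (a x : E) : inner ℝ x (crs a x) = (0 : ℝ) := by
  rw [axt_inner, axt_crs0, axt_crs1, axt_crs2]
  ring

private theorem axt_par {a x w : E} (h1 : inner ℝ a w = (0 : ℝ)) (h2 : inner ℝ x w = (0 : ℝ))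
    (h3 : ‖w‖ ^ 2 = ‖crs a x‖ ^ 2) : w = crs a x ∨ w = -crs a x := by
  set p := crs a x with hp
  have e0 : crs p w 0 = 0 := by
    have : crs p w 0 = x 0 * inner ℝ a w - a 0 * inner ℝ x w := by
      rw [axt_crs0, hp, axt_crs1, axt_crs2, axt_inner, axt_inner]; ring
    rw [this, h1, h2]; ring
  have e1 : crs p w 1 = 0 := by
    have : crs p w 1 = x 1 * inner ℝ a w - a 1 * inner ℝ x w := by
      rw [axt_crs1, hp, axt_crs0, axt_crs2, axt_inner, axt_inner]; ring
    rw [this, h1, h2]; ring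
  have e2 : crs p w 2 = 0 := by
    have : crs p w 2 = x 2 * inner ℝ a w - a 2 * inner ℝ x w := by
      rw [axt_crs2, hp, axt_crs0, axt_crs1, axt_inner, axt_inner]; ring
    rw [this, h1, h2]; ring
  have h4 : ‖crs p w‖ ^ 2 = 0 := by rw [axt_norm, e0, e1, e2]; ring
  have h5 := axt_nc p w
  rw [h4, h3] at h5
  have h6 : (inner ℝ p w - ‖p‖ ^ 2) * (inner ℝ p w + ‖p‖ ^ 2) = (0 : ℝ) := by
    linear_combination h5
  rcases mul_eq_zero.1 h6 with h7 | h7
  · left
    have h8 : ‖w - p‖ ^ 2 = 0 := by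
      rw [@norm_sub_sq ℝ, h3, real_inner_comm]
      have : (RCLike.re (inner ℝ p w : ℝ) : ℝ) = inner ℝ p w := rfl
      rw [this]
      linear_combination (-2) * h7
    have h9 : ‖w - p‖ = 0 := by simpa using h8
    exact sub_eq_zero.1 (norm_eq_zero.1 h9)
  · right
    have h8 : ‖w + p‖ ^ 2 = 0 := by
      rw [@norm_add_sq ℝ, h3, real_inner_comm]
      have : (RCLike.re (inner ℝ p w : ℝ) : ℝ) = inner ℝ p w := rfl
      rw [this]
      linear_combination 2 * h7
    have h9 : ‖w + p‖ = 0 := by simpa using h8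
    exact eq_neg_of_add_eq_zero_left (norm_eq_zero.1 h9)

private theorem axt_coord (x : E) (i : Fin 3) : inner ℝ x (ee i) = x i := by
  rw [EuclideanSpace.inner_single_right]
  simp

private theorem axt_norm_ee (i : Fin 3) : ‖(ee i : E)‖ = 1 := by
  simp

private theorem axt_crs_smul (t : ℝ) (a x : E) : crs (t • a) x = t • crs a x := by
  ext i
  fin_cases i
  · change crs (t • a) x 0 = (t • crs a x) 0
    simp only [PiLp.smul_apply, smul_eq_mul, axt_crs0]
    ring
  · change crs (t • a) x 1 = (t • crs a x) 1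
    simp only [PiLp.smul_apply, smul_eq_mul, axt_crs1]
    ring
  · change crs (t • a) x 2 = (t • crs a x) 2
    simp only [PiLp.smul_apply, smul_eq_mul, axt_crs2]
    ring

/-- `-(b × q) + b × (y + q + s ν) = t (ν × y)` for `b = t ν` -/
private theorem axt_kf (t s : ℝ) (ν q y : E) :
    kf (-crs (t • ν) q, t • ν) (y + (q + s • ν)) = t • crs ν y := by
  unfold kf
  ext i
  fin_cases i
  · change (-crs (t • ν) q + crs (t • ν) (y + (q + s • ν))) 0 = (t • crs ν y) 0
    simp only [PiLp.add_apply, PiLp.neg_apply, PiLp.smul_apply, smul_eq_mul, axt_crs0]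
    ring
  · change (-crs (t • ν) q + crs (t • ν) (y + (q + s • ν))) 1 = (t • crs ν y) 1
    simp only [PiLp.add_apply, PiLp.neg_apply, PiLp.smul_apply, smul_eq_mul, axt_crs1]
    ring
  · change (-crs (t • ν) q + crs (t • ν) (y + (q + s • ν))) 2 = (t • crs ν y) 2
    simp only [PiLp.add_apply, PiLp.neg_apply, PiLp.smul_apply, smul_eq_mul, axt_crs2]
    ring

private theorem axt_fderiv (A : E ≃ₗᵢ[ℝ] E) (q : E) (f : E → ℝ) (x : E) :
    ‖fderiv ℝ (fun x => f (A.symm (x - q))) x‖ = ‖fderiv ℝ f (A.symm (x - q))‖ := by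
  have h1 : fderiv ℝ (fun x => f (A.symm (x - q))) x =
      fderiv ℝ (fun x => f (A.symm x)) (x - q) := by
    have := fderiv_comp_sub (𝕜 := ℝ) (f := fun x => f (A.symm x)) (x := x) q
    exact this
  have h2 : fderiv ℝ (fun x => f (A.symm x)) (x - q) =
      (fderiv ℝ f (A.symm (x - q))).comp (A.symm.toContinuousLinearEquiv : E →L[ℝ] E) :=
    A.symm.toContinuousLinearEquiv.comp_right_fderiv (f := f) (x := x - q)
  rw [h1, h2]
  exact ContinuousLinearMap.opNorm_comp_linearIsometryEquiv (fderiv ℝ f (A.symm (x - q))) A.symm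

private theorem axt_int (A : E ≃ₗᵢ[ℝ] E) (q : E) (F : E → ℝ) :
    ∫ x, F (A.symm (x - q)) = ∫ x, F x := by
  have h1 : ∫ x, F (A.symm (x - q)) = ∫ x, F (A.symm x) :=
    integral_sub_right_eq_self (fun x => F (A.symm x)) q
  rw [h1]
  exact A.symm.measurePreserving.integral_comp A.symm.toMeasurableEquiv.measurableEmbedding F

private theorem axt_atLeast {D : Set E} (A : E ≃ₗᵢ[ℝ] E) (q : E) (K : ℝ) (m : ℕ)
    (h : AtLeast ⊤ (A ⁻¹' ((fun x => x + q) ⁻¹' D)) K m) : AtLeast ⊤ D K m := by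
  obtain ⟨F, hF, hfin, hm, hneg⟩ := h
  let L : (E → ℝ) →ₗ[ℝ] (E → ℝ) := LinearMap.funLeft ℝ ℝ (fun x => A.symm (x - q))
  have hsurj : Function.Surjective (fun x => A.symm (x - q)) := by
    intro y
    refine ⟨A y + q, ?_⟩
    simp
  have hL : Function.Injective L := LinearMap.funLeft_injective_of_surjective _ _ _ hsurj
  let e := Submodule.equivMapOfInjective L hL F
  refine ⟨F.map L, ?_, ?_, ?_, ?_⟩
  · rintro g ⟨f, hf, rfl⟩
    refine ⟨?_, trivial⟩
    have hf1 : f ∈ C1c (A ⁻¹' ((fun x => x + q) ⁻¹' D)) := (hF hf).1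
    let φ : E ≃ₜ E := (Homeomorph.subRight q).trans A.symm.toHomeomorph
    have hg : L f = f ∘ φ := rfl
    refine ⟨?_, ?_, ?_⟩
    · exact (C1c.contDiff hf1).comp (A.symm.contDiff.comp (contDiff_id.sub contDiff_const))
    · rw [hg]
      exact (C1c.compact hf1).comp_homeomorph φ
    · rw [hg, tsupport_comp_eq_preimage]
      intro x hx
      have h1 : φ x ∈ A ⁻¹' ((fun x => x + q) ⁻¹' D) := C1c.sub hf1 hx
      have h2 : A (A.symm (x - q)) + q ∈ D := h1
      rwa [A.apply_symm_apply, sub_add_cancel] at h2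
  · exact Module.Finite.equiv e
  · rw [← e.finrank_eq]
    exact hm
  · rintro g ⟨f, hf, rfl⟩ hne
    have hf0 : f ≠ 0 := by
      rintro rfl
      exact hne (map_zero L)
    have h1 := hneg f hf hf0
    have h2 : ∫ x, ‖fderiv ℝ (L f) x‖ ^ 2 = ∫ x, ‖fderiv ℝ f x‖ ^ 2 := by
      rw [← axt_int A q (fun x => ‖fderiv ℝ f x‖ ^ 2)]
      refine integral_congr_ae (Eventually.of_forall fun x => ?_)
      have := axt_fderiv A q f x
      show ‖fderiv ℝ (fun x => f (A.symm (x - q))) x‖ ^ 2 = _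
      rw [this]
    have h3 : ∫ x, (L f) x ^ 2 = ∫ x, f x ^ 2 := axt_int A q (fun x => f x ^ 2)
    rw [h2, h3]
    exact h1

theorem to_axis' {D : Set E} {φ : E → ℝ} {k c : ℝ} {u : E → ℝ} (h : Sol D φ k c u) {q b : E}
    (hb : b ≠ 0) (h0 : ww (extU D c u) (-crs b q, b) = 0) :
    ∃ (D' : Set E) (φ' u' : E → ℝ), Sol D' φ' k c u' ∧ ww (extU D' c u') (0, ee 2) = 0 ∧
      ((∃ (z : E) (r : ℝ), D' = ball z r) → ∃ (z : E) (r : ℝ), D = ball z r) ∧
      ∀ (K : ℝ) (m : ℕ), AtLeast ⊤ D' K m → AtLeast ⊤ D K m := by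
  have hb' : 0 < ‖b‖ := norm_pos_iff.2 hb
  set ν : E := ‖b‖⁻¹ • b with hνd
  have hν : ‖ν‖ = 1 := by
    rw [hνd, norm_smul, norm_inv, norm_norm, inv_mul_cancel₀ hb'.ne']
  have hbν : b = ‖b‖ • ν := by
    rw [hνd, smul_smul, mul_inv_cancel₀ hb'.ne', one_smul]
  obtain ⟨A, hA⟩ := axt_iso (axt_norm_ee 2) hν
  have hS : Sol (A ⁻¹' ((fun x => x + q) ⁻¹' D)) (fun x => φ (A x + q)) k c
      (fun x => u (A x + q)) := iso_sol (trans_sol h q) A
  have hU := (ext_UU h).C1
  have hd : Differentiable ℝ (extU D c u) := hU.differentiable one_ne_zero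
  have h0' : ww (extU (A ⁻¹' ((fun x => x + q) ⁻¹' D)) c (fun x => u (A x + q))) (0, ee 2) = 0 := by
    funext x
    have e1 : extU (A ⁻¹' ((fun x => x + q) ⁻¹' D)) c (fun x => u (A x + q)) =
        fun x => extU D c u (A x + q) := rfl
    have hf : HasFDerivAt (fun x => extU D c u (A x + q))
        ((fderiv ℝ (extU D c u) (A x + q)).comp (A.toContinuousLinearEquiv : E →L[ℝ] E)) x := by
      have h1 : HasFDerivAt (fun x => A x + q) (A.toContinuousLinearEquiv : E →L[ℝ] E) x :=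
        (A.toContinuousLinearEquiv.hasFDerivAt (x := x)).add_const q
      exact (hd (A x + q)).hasFDerivAt.comp x h1
    change fderiv ℝ (extU (A ⁻¹' ((fun x => x + q) ⁻¹' D)) c (fun x => u (A x + q))) x
      (kf (0, ee 2) x) = 0
    rw [e1, hf.fderiv]
    have e2 : kf (0, ee 2) x = crs (ee 2) x := by
      unfold kf
      rw [zero_add]
    rw [e2]
    change fderiv ℝ (extU D c u) (A x + q) (A (crs (ee 2) x)) = 0
    have h3 : fderiv ℝ (extU D c u) (A x + q) (kf (-crs b q, b) (A x + q)) = 0 :=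
      congrFun h0 (A x + q)
    have h4 : kf (-crs b q, b) (A x + q) = ‖b‖ • crs ν (A x) := by
      have := axt_kf ‖b‖ 0 ν q (A x)
      rw [← hbν, zero_smul, add_zero] at this
      exact this
    rw [h4, map_smul, smul_eq_mul] at h3
    have h5 : fderiv ℝ (extU D c u) (A x + q) (crs ν (A x)) = 0 :=
      (mul_eq_zero.1 h3).resolve_left hb'.ne'
    have h6 : A (crs (ee 2) x) = crs ν (A x) ∨ A (crs (ee 2) x) = -crs ν (A x) := by
      refine axt_par ?_ ?_ ?_
      · rw [← hA, A.inner_map_map, axt_i1]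
      · rw [A.inner_map_map, axt_i2]
      · rw [A.norm_map, axt_nc, axt_nc, A.norm_map, ← hA, A.inner_map_map, A.norm_map]
    rcases h6 with h6 | h6
    · rw [h6, h5]
    · rw [h6, map_neg, h5, neg_zero]
  exact ⟨_, _, _, hS, h0', axt_back A q, fun K m => axt_atLeast A q K m⟩

end Pool.Agent.H68.SN
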