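import Pool.Agent.H68.SN.Defs

/-!
# Module Bess (about 120 lines): dimension bound by a Bessel inequality

PROOF. The form `∫_D f g` is an inner product on the finite dimensional space `V`; take a basis
`h_1, …, h_d` orthonormal for it (`LinearMap.BilinForm.exists_orthogonal_basis` and normalisation, or an
`InnerProductSpace.Core`). For `x ∈ A` put `h = ∑ h_j(x) h_j ∈ V`, `s = ∑ h_j(x)²`: `h(x) = s`,
`∫_D h² = s`, so `s² ≤ C s` and `s ≤ C`. Integrate over `A`: `∑_j ∫_A h_j² ≤ C vol A ≤ C vol D`, and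
`1 = ∫_D h_j² ≤ 2 ∫_A h_j²`. Hence `d ≤ 2 C vol D`. (Functions in `V` are continuous, `A ⊆ D` bounded.)
-/

set_option autoImplicit false

namespace Pool.Agent.H68.SN

open Filter Topology MeasureTheory Metric
open scoped ContDiff
open Pool.Agent.H68.SC

theorem bess {D A : Set E} (hD : IsOpen D) (hb : Bornology.IsBounded D) (hA : MeasurableSet A)
    (hAD : A ⊆ D) {C : ℝ} (hC : 0 < C) (V : Submodule ℝ (E → ℝ)) (hV : Module.Finite ℝ V)
    (hc : ∀ f ∈ V, Continuous f) (hp : ∀ f ∈ V, f ≠ 0 → 0 < ∫ x in D, f x ^ 2)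
    (h1 : ∀ f ∈ V, ∀ x ∈ A, f x ^ 2 ≤ C * ∫ y in D, f y ^ 2)
    (h2 : ∀ f ∈ V, ∫ x in D, f x ^ 2 ≤ 2 * ∫ x in A, f x ^ 2) :
    (Module.finrank ℝ V : ℝ) ≤ 2 * C * volume.real D := by
  have hint : ∀ f : E → ℝ, Continuous f → IntegrableOn f D := fun f hf =>
    (hf.continuousOn.integrableOn_compact hb.isCompact_closure).mono_set subset_closure
  have hm : ∀ f g : V, IntegrableOn (fun x => (f : E → ℝ) x * (g : E → ℝ) x) D := fun f g =>
    hint _ ((hc _ f.2).mul (hc _ g.2))
  have hDfin : volume D ≠ ⊤ := hb.measure_lt_top.ne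
  have hAfin : volume A ≠ ⊤ := ((measure_mono hAD).trans_lt hb.measure_lt_top).ne
  obtain ⟨B, hB⟩ : ∃ B : LinearMap.BilinForm ℝ V, ∀ f g : V,
      B f g = ∫ x in D, (f : E → ℝ) x * (g : E → ℝ) x := by
    refine ⟨LinearMap.mk₂ ℝ (fun f g => ∫ x in D, (f : E → ℝ) x * (g : E → ℝ) x) ?_ ?_ ?_ ?_,
      fun f g => rfl⟩
    · intro f g h
      rw [← integral_add (hm f h) (hm g h)]
      refine integral_congr_ae (Eventually.of_forall fun x => ?_)
      simp only [Submodule.coe_add, Pi.add_apply]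
      ring
    · intro a f g
      rw [smul_eq_mul, ← integral_const_mul]
      refine integral_congr_ae (Eventually.of_forall fun x => ?_)
      simp only [Submodule.coe_smul, Pi.smul_apply, smul_eq_mul]
      ring
    · intro f g h
      rw [← integral_add (hm f g) (hm f h)]
      refine integral_congr_ae (Eventually.of_forall fun x => ?_)
      simp only [Submodule.coe_add, Pi.add_apply]
      ring
    · intro a f g
      rw [smul_eq_mul, ← integral_const_mul]
      refine integral_congr_ae (Eventually.of_forall fun x => ?_)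
      simp only [Submodule.coe_smul, Pi.smul_apply, smul_eq_mul]
      ring
  have hsym : LinearMap.IsSymm B := ⟨fun f g => by
    rw [RingHom.id_apply, hB, hB]
    refine integral_congr_ae (Eventually.of_forall fun x => ?_)
    exact mul_comm _ _⟩
  letI : Invertible (2 : ℝ) := invertibleOfNonzero two_ne_zero
  obtain ⟨v, hv⟩ := LinearMap.BilinForm.exists_orthogonal_basis hsym
  have hvo : ∀ i j, i ≠ j → B (v i) (v j) = 0 := fun i j hij =>
    (LinearMap.isOrthoᵢ_def.mp hv) i j hij
  have hsq : ∀ f : V, B f f = ∫ x in D, (f : E → ℝ) x ^ 2 := fun f => by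
    rw [hB]
    refine integral_congr_ae (Eventually.of_forall fun x => ?_)
    exact (sq _).symm
  have hcp : ∀ j, 0 < B (v j) (v j) := fun j => by
    rw [hsq]
    refine hp _ (v j).2 ?_
    intro h0
    exact v.ne_zero j (Subtype.ext h0)
  -- pointwise bound
  have hpt : ∀ x ∈ A, ∑ j, ((v j : E → ℝ) x) ^ 2 / B (v j) (v j) ≤ C := by
    intro x hx
    obtain ⟨s, hs⟩ : ∃ s, s = ∑ j, ((v j : E → ℝ) x) ^ 2 / B (v j) (v j) := ⟨_, rfl⟩
    obtain ⟨h, hh⟩ : ∃ h : V, h = ∑ j, (((v j : E → ℝ) x) / B (v j) (v j)) • v j := ⟨_, rfl⟩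
    have e1 : (h : E → ℝ) x = s := by
      rw [hh, hs, Submodule.coe_sum, Finset.sum_apply]
      refine Finset.sum_congr rfl fun j _ => ?_
      simp only [Submodule.coe_smul, Pi.smul_apply, smul_eq_mul]
      ring
    have e2 : ∫ y in D, (h : E → ℝ) y ^ 2 = s := by
      rw [← hsq, hh, hs, map_sum]
      refine Finset.sum_congr rfl fun j _ => ?_
      rw [map_smul, map_sum, LinearMap.sum_apply, Finset.sum_eq_single j]
      · rw [map_smul, LinearMap.smul_apply, smul_eq_mul, smul_eq_mul]
        have := (hcp j).ne'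
        field_simp
      · intro i _ hij
        rw [map_smul, LinearMap.smul_apply, hvo i j hij, smul_zero]
      · intro hj
        exact absurd (Finset.mem_univ j) hj
    have e3 := h1 (h : E → ℝ) h.2 x hx
    rw [e1, e2] at e3
    have hs0 : 0 ≤ s := by
      rw [hs]
      exact Finset.sum_nonneg fun j _ => div_nonneg (sq_nonneg _) (hcp j).le
    rw [← hs]
    rcases eq_or_lt_of_le hs0 with h0 | h0
    · rw [← h0]; exact hC.le
    · nlinarith
  have hintA : ∀ f : E → ℝ, Continuous f → IntegrableOn f A := fun f hf => (hint f hf).mono_set hAD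
  have hA1 : ∫ x in A, ∑ j, ((v j : E → ℝ) x) ^ 2 / B (v j) (v j) ≤ C * volume.real D := by
    calc ∫ x in A, ∑ j, ((v j : E → ℝ) x) ^ 2 / B (v j) (v j)
        ≤ ∫ _x in A, C := by
          refine setIntegral_mono_on ?_ (integrableOn_const hAfin) hA hpt
          refine hintA _ (continuous_finsetSum _ fun j _ => ?_)
          exact ((hc _ (v j).2).pow 2).div_const _
      _ = C * volume.real A := by
          rw [setIntegral_const, smul_eq_mul, mul_comm]
      _ ≤ C * volume.real D :=
          mul_le_mul_of_nonneg_left (measureReal_mono hAD hDfin) hC.le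
  have hA2 : ∫ x in A, ∑ j, ((v j : E → ℝ) x) ^ 2 / B (v j) (v j) =
      ∑ j, (∫ x in A, ((v j : E → ℝ) x) ^ 2) / B (v j) (v j) := by
    rw [integral_finsetSum]
    · refine Finset.sum_congr rfl fun j _ => ?_
      rw [integral_div]
    · intro j _
      exact hintA _ (((hc _ (v j).2).pow 2).div_const _)
  have hA3 : ((Module.finrank ℝ V : ℕ) : ℝ) * (1 / 2) ≤
      ∑ j, (∫ x in A, ((v j : E → ℝ) x) ^ 2) / B (v j) (v j) := by
    calc ((Module.finrank ℝ V : ℕ) : ℝ) * (1 / 2)
        = ∑ _j : Fin (Module.finrank ℝ V), (1 / 2 : ℝ) := by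
          rw [Finset.sum_const, Finset.card_univ, Fintype.card_fin, nsmul_eq_mul]
      _ ≤ ∑ j, (∫ x in A, ((v j : E → ℝ) x) ^ 2) / B (v j) (v j) := by
          refine Finset.sum_le_sum fun j _ => ?_
          rw [le_div_iff₀ (hcp j), hsq]
          have := h2 _ (v j).2
          linarith
  rw [← hA2] at hA3
  linarith

end Pool.Agent.H68.SN
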