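import Pool.Agent.H68.SN.Defs

/-!
# Module Mean (about 120 lines): pointwise bound for combinations of plane waves

PROOF. Let `r = min ρ (1 / k)`, `B = ball 0 r`, `κ = ∫ y in B, cos (v · y)` for one vector `v` of norm `k`; it
does not depend on `v` (`B` and the measure are invariant under linear isometries, two vectors of the
same norm are exchanged by one) and `κ > 0` (`|v · y| ≤ k r ≤ 1`, `cos > 0` there). As
`∫ y in B, sin (v · y) = 0` (oddness), the addition theorems give
`∫ y in B, pw ν α β (x + y) = κ * pw ν α β x`. By Cauchy-Schwarz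
`κ² (pw ν α β x)² ≤ vol B * ∫ y in ball x r, (pw ν α β y)² ≤ vol B * ∫ y in D, (pw ν α β y)²`
(`ball x r ⊆ ball x ρ ⊆ D`, `D` bounded so that the right side is integrable).
-/

set_option autoImplicit false

namespace Pool.Agent.H68.SN

open Filter Topology MeasureTheory Metric
open scoped ContDiff
open Pool.Agent.H68.SC

private theorem Mean_iso (A : E ≃ₗᵢ[ℝ] E) (r : ℝ) (g : E → ℝ) :
    ∫ y in ball (0 : E) r, g (A y) = ∫ y in ball (0 : E) r, g y := by
  have h1 := A.measurePreserving.setIntegral_preimage_emb A.toHomeomorph.measurableEmbedding g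
    (ball (0 : E) r)
  have h2 : A ⁻¹' ball (0 : E) r = ball (0 : E) r := by
    ext y
    simp
  rwa [h2] at h1

private theorem Mean_trans (x : E) (r : ℝ) (g : E → ℝ) :
    ∫ y in ball (0 : E) r, g (x + y) = ∫ y in ball x r, g y := by
  have h1 := (measurePreserving_add_left (volume : Measure E) x).setIntegral_preimage_emb
    (Homeomorph.addLeft x).measurableEmbedding g (ball x r)
  have h2 : (fun y => x + y) ⁻¹' ball x r = ball (0 : E) r := by
    ext y
    simp
  rwa [h2] at h1

private theorem Mean_int {g : E → ℝ} (hg : Continuous g) {S : Set E}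
    (hS : Bornology.IsBounded S) : IntegrableOn g S :=
  (hg.continuousOn.integrableOn_compact hS.isCompact_closure).mono_set subset_closure

private theorem Mean_cs {g : E → ℝ} (hg : Continuous g) (r : ℝ) :
    (∫ y in ball (0 : E) r, g y) ^ 2 ≤
      (volume : Measure E).real (ball 0 r) * ∫ y in ball (0 : E) r, g y ^ 2 := by
  set V := (volume : Measure E).real (ball (0 : E) r) with hV
  set I := ∫ y in ball (0 : E) r, g y with hI
  have hV0 : 0 ≤ V := measureReal_nonneg
  have hb : Bornology.IsBounded (ball (0 : E) r) := isBounded_ball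
  have hi : IntegrableOn g (ball (0 : E) r) := Mean_int hg hb
  have hi2 : IntegrableOn (fun y => g y ^ 2) (ball (0 : E) r) := Mean_int (hg.pow 2) hb
  have hc : ∀ c : ℝ, IntegrableOn (fun _ => c) (ball (0 : E) r) := fun c =>
    Mean_int continuous_const hb
  have h1 : 0 ≤ ∫ y in ball (0 : E) r, (V * g y - I) ^ 2 :=
    integral_nonneg fun y => sq_nonneg _
  have h2 : ∫ y in ball (0 : E) r, (V * g y - I) ^ 2 =
      V ^ 2 * (∫ y in ball (0 : E) r, g y ^ 2) - 2 * V * I * I + I ^ 2 * V := by
    have e : (fun y => (V * g y - I) ^ 2) =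
        fun y => (V ^ 2 * g y ^ 2 - 2 * V * I * g y) + I ^ 2 := by
      funext y; ring
    have e1 : IntegrableOn (fun y => V ^ 2 * g y ^ 2) (ball (0 : E) r) := hi2.const_mul _
    have e2 : IntegrableOn (fun y => 2 * V * I * g y) (ball (0 : E) r) := hi.const_mul _
    have e3 : IntegrableOn (fun y => V ^ 2 * g y ^ 2 - 2 * V * I * g y) (ball (0 : E) r) :=
      e1.sub e2
    rw [e, integral_add e3 (hc _), integral_sub e1 e2, integral_const_mul,
      integral_const_mul, ← hI, setIntegral_const, ← hV, smul_eq_mul]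
    ring
  rcases hV0.eq_or_lt with h0 | h0
  · have hz : I = 0 := by
      have hz' : volume (ball (0 : E) r) = 0 := by
        have h3 : (volume (ball (0 : E) r)).toReal = 0 := h0.symm
        rcases (ENNReal.toReal_eq_zero_iff _).1 h3 with h4 | h4
        · exact h4
        · exact absurd h4 measure_ball_lt_top.ne
      rw [hI, setIntegral_measure_zero _ hz']
    rw [hz, ← h0]
    norm_num
  · rw [h2] at h1
    have h3 : 0 ≤ V * (V * (∫ y in ball (0 : E) r, g y ^ 2) - I ^ 2) := by nlinarith
    have h4 := (mul_nonneg_iff_of_pos_left h0).1 h3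
    linarith

private theorem Mean_cos {v w : E} (h : ‖v‖ = ‖w‖) (r : ℝ) :
    ∫ y in ball (0 : E) r, Real.cos (inner ℝ v y) =
      ∫ y in ball (0 : E) r, Real.cos (inner ℝ w y) := by
  set A := (Submodule.span ℝ {v - w})ᗮ.reflection with hA
  have hAv : A v = w := Submodule.reflection_sub h
  have h1 := Mean_iso A r (fun y => Real.cos (inner ℝ w y))
  rw [← h1]
  refine integral_congr_ae (Eventually.of_forall fun y => ?_)
  show Real.cos (inner ℝ v y) = Real.cos (inner ℝ w (A y))
  rw [← hAv, A.inner_map_map]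

private theorem Mean_sin (v : E) (r : ℝ) :
    ∫ y in ball (0 : E) r, Real.sin (inner ℝ v y) = 0 := by
  have h1 := Mean_iso (LinearIsometryEquiv.neg ℝ) r (fun y => Real.sin (inner ℝ v y))
  have h2 : ∀ y : E, Real.sin (inner ℝ v ((LinearIsometryEquiv.neg ℝ) y)) =
      -Real.sin (inner ℝ v y) := by
    intro y
    have : (LinearIsometryEquiv.neg ℝ) y = -y := rfl
    rw [this, inner_neg_right, Real.sin_neg]
  simp only [h2] at h1
  rw [integral_neg] at h1
  linarith

theorem mean {k : ℝ} (hk : 0 < k) {ρ : ℝ} (hρ : 0 < ρ) :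
    ∃ C : ℝ, 0 < C ∧ ∀ D : Set E, IsOpen D → Bornology.IsBounded D →
      ∀ (ι : Type) [Fintype ι] (ν : ι → E), (∀ i, ‖ν i‖ = k) → ∀ (α β : ι → ℝ) (x : E),
        ball x ρ ⊆ D → pw ν α β x ^ 2 ≤ C * ∫ y in D, pw ν α β y ^ 2 := by
  set r := min ρ (1 / k) with hr
  have hr0 : 0 < r := lt_min hρ (by positivity)
  set v₀ : E := k • ee 0 with hv₀
  have hv₀n : ‖v₀‖ = k := by
    rw [hv₀, norm_smul, Real.norm_eq_abs, abs_of_pos hk]
    simp
  set κ := ∫ y in ball (0 : E) r, Real.cos (inner ℝ v₀ y) with hκ
  set V := (volume : Measure E).real (ball (0 : E) r) with hV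
  have hV0 : 0 < V := by
    rw [hV, Measure.real, ENNReal.toReal_pos_iff]
    exact ⟨measure_ball_pos _ _ hr0, measure_ball_lt_top⟩
  have hb : Bornology.IsBounded (ball (0 : E) r) := isBounded_ball
  have hcosc : ∀ v : E, Continuous fun y : E => Real.cos (inner ℝ v y) := fun v =>
    Real.continuous_cos.comp (continuous_const.inner continuous_id)
  have hsinc : ∀ v : E, Continuous fun y : E => Real.sin (inner ℝ v y) := fun v =>
    Real.continuous_sin.comp (continuous_const.inner continuous_id)
  have hκ0 : 0 < κ := by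
    have h1 : Real.cos 1 * V ≤ κ := by
      have e1 : ∫ y in ball (0 : E) r, Real.cos 1 = Real.cos 1 * V := by
        rw [setIntegral_const, smul_eq_mul, mul_comm]
      rw [← e1]
      refine setIntegral_mono_on (Mean_int continuous_const hb) (Mean_int (hcosc v₀) hb)
        measurableSet_ball fun y hy => ?_
      have h2 : |inner ℝ v₀ y| ≤ 1 := by
        refine (abs_real_inner_le_norm v₀ y).trans ?_
        rw [hv₀n]
        have h3 : ‖y‖ ≤ 1 / k := by
          have := mem_ball_zero_iff.1 hy
          exact this.le.trans (min_le_right _ _)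
        calc k * ‖y‖ ≤ k * (1 / k) := mul_le_mul_of_nonneg_left h3 hk.le
          _ = 1 := by field_simp
      rw [← Real.cos_abs (inner ℝ v₀ y)]
      exact Real.cos_le_cos_of_nonneg_of_le_pi (abs_nonneg _) (by linarith [Real.pi_gt_three]) h2
    have := mul_pos Real.cos_one_pos hV0
    linarith
  refine ⟨V / κ ^ 2, by positivity, ?_⟩
  intro D hDo hDb ι _ ν hν α β x hx
  have hpc : Continuous (pw ν α β) := (pw_contDiff ν α β (n := 0)).continuous
  have hmean : ∫ y in ball (0 : E) r, pw ν α β (x + y) = κ * pw ν α β x := by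
    have h1 : ∀ y : E, pw ν α β (x + y) = ∑ i,
        ((α i * Real.cos (inner ℝ (ν i) x) + β i * Real.sin (inner ℝ (ν i) x)) *
          Real.cos (inner ℝ (ν i) y) +
        (β i * Real.cos (inner ℝ (ν i) x) - α i * Real.sin (inner ℝ (ν i) x)) *
          Real.sin (inner ℝ (ν i) y)) := by
      intro y
      unfold pw
      refine Finset.sum_congr rfl fun i _ => ?_
      rw [inner_add_right, Real.cos_add, Real.sin_add]
      ring
    simp only [h1]
    rw [integral_finsetSum]
    · unfold pw
      rw [Finset.mul_sum]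
      refine Finset.sum_congr rfl fun i _ => ?_
      rw [integral_add ((Mean_int (hcosc _) hb).const_mul _) ((Mean_int (hsinc _) hb).const_mul _),
        integral_const_mul, integral_const_mul, Mean_sin, mul_zero, add_zero,
        Mean_cos ((hν i).trans hv₀n.symm)]
      ring
    · intro i _
      exact ((Mean_int (hcosc _) hb).const_mul _).add ((Mean_int (hsinc _) hb).const_mul _)
  have hcs := Mean_cs (g := fun y => pw ν α β (x + y)) (hpc.comp (continuous_const.add continuous_id)) r
  rw [hmean, Mean_trans x r (fun y => pw ν α β y ^ 2)] at hcs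
  have hsub : ball x r ⊆ D := (ball_subset_ball (min_le_left _ _)).trans hx
  have hle : ∫ y in ball x r, pw ν α β y ^ 2 ≤ ∫ y in D, pw ν α β y ^ 2 :=
    setIntegral_mono_set (Mean_int (hpc.pow 2) hDb)
      (Eventually.of_forall fun y => sq_nonneg _) (Eventually.of_forall hsub)
  have h5 : (κ * pw ν α β x) ^ 2 ≤ V * ∫ y in D, pw ν α β y ^ 2 :=
    hcs.trans (mul_le_mul_of_nonneg_left hle hV0.le)
  rw [div_mul_eq_mul_div, le_div_iff₀ (by positivity)]
  calc pw ν α β x ^ 2 * κ ^ 2 = (κ * pw ν α β x) ^ 2 := by ring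
    _ ≤ _ := h5

end Pool.Agent.H68.SN
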