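import Pool.Agent.H68.SN.Defs

/-!
# Module PInd (about 100 lines): linear independence of plane waves

PROOF. (a) `pw ν α β` is real analytic on `E`, so it vanishes identically
(`AnalyticOnNhd.eqOn_zero_of_preconnected_of_eventuallyEq_zero`). (b) `2 pw ν α β x =
∑_i (α_i - i β_i) exp (i ν_i · x) + (α_i + i β_i) exp (- i ν_i · x)`, the vectors `ν_i`, `-ν_i` are pairwise
different (`h1`, `h2`; `h2 i i` says `ν_i ≠ 0`), and the characters `x ↦ exp (i v · x)` of
`Multiplicative E` for different `v` are different, hence linearly independent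
(`linearIndependent_monoidHom`). So `α_i - i β_i = 0`.
-/

set_option autoImplicit false

namespace Pool.Agent.H68.SN

open Filter Topology MeasureTheory Metric
open scoped ContDiff
open Pool.Agent.H68.SC

/-- the character `exp (i v · x)` -/
private noncomputable def pindChar (v : E) : Multiplicative E →* ℂ where
  toFun x := Complex.exp (((inner ℝ v (Multiplicative.toAdd x) : ℝ) : ℂ) * Complex.I)
  map_one' := by simp
  map_mul' x y := by
    rw [toAdd_mul, inner_add_right, ← Complex.exp_add]
    push_cast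
    rw [add_mul]

private lemma pindChar_apply (v x : E) : pindChar v (Multiplicative.ofAdd x) =
    Complex.exp (((inner ℝ v x : ℝ) : ℂ) * Complex.I) := rfl

private lemma pindChar_inj : Function.Injective pindChar := by
  intro v w h
  by_contra hne
  have hvw : v - w ≠ 0 := sub_ne_zero.mpr hne
  have hn : ‖v - w‖ ≠ 0 := norm_ne_zero_iff.mpr hvw
  have h1 := congrArg (fun f : Multiplicative E →* ℂ =>
    f (Multiplicative.ofAdd ((Real.pi / ‖v - w‖ ^ 2) • (v - w)))) h
  simp only [pindChar_apply] at h1
  set x : E := (Real.pi / ‖v - w‖ ^ 2) • (v - w) with hx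
  have h2 : inner ℝ v x = inner ℝ w x + Real.pi := by
    have : inner ℝ v x - inner ℝ w x = Real.pi := by
      rw [← inner_sub_left, hx, inner_smul_right, real_inner_self_eq_norm_sq]
      field_simp
    linarith
  rw [h2, Complex.ofReal_add, add_mul, Complex.exp_add, Complex.exp_pi_mul_I] at h1
  have h4 := Complex.exp_ne_zero (((inner ℝ w x : ℝ) : ℂ) * Complex.I)
  apply h4
  linear_combination (-1 / 2 : ℂ) * h1

private lemma pind_analytic {ι : Type} [Fintype ι] (ν : ι → E) (α β : ι → ℝ) :
    AnalyticOnNhd ℝ (pw ν α β) Set.univ := by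
  intro x _
  unfold pw
  refine Finset.analyticAt_fun_sum _ fun i _ => ?_
  have h1 : AnalyticAt ℝ (fun x : E => inner ℝ (ν i) x) x :=
    (innerSL ℝ (ν i)).analyticAt x
  have h2 : AnalyticAt ℝ (fun x : E => Real.cos (inner ℝ (ν i) x)) x :=
    Real.analyticAt_cos.comp h1
  have h3 : AnalyticAt ℝ (fun x : E => Real.sin (inner ℝ (ν i) x)) x :=
    Real.analyticAt_sin.comp h1
  exact (analyticAt_const.mul h2).add (analyticAt_const.mul h3)

theorem pw_indep {ι : Type} [Fintype ι] (ν : ι → E) (h1 : ∀ i j, i ≠ j → ν i ≠ ν j)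
    (h2 : ∀ i j, ν i ≠ -ν j) (α β : ι → ℝ) {V : Set E} (hV : IsOpen V) (hne : V.Nonempty)
    (h : ∀ x ∈ V, pw ν α β x = 0) : α = 0 ∧ β = 0 := by
  classical
  obtain ⟨x0, hx0⟩ := hne
  have hz : ∀ x, pw ν α β x = 0 := by
    have h3 := (pind_analytic ν α β).eqOn_zero_of_preconnected_of_eventuallyEq_zero
      isPreconnected_univ (Set.mem_univ x0) (eventually_of_mem (hV.mem_nhds hx0) h)
    exact fun x => h3 (Set.mem_univ x)
  have hv : Function.Injective (Sum.elim ν (fun i => -ν i)) := by
    rintro (i | i) (j | j) hij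
    · by_contra hc
      exact h1 i j (fun h => hc (by rw [h])) hij
    · exact absurd hij (h2 i j)
    · exact absurd hij.symm (h2 j i)
    · by_contra hc
      exact h1 i j (fun h => hc (by rw [h])) (neg_injective hij)
  have hli := (linearIndependent_monoidHom (Multiplicative E) ℂ).comp
    (fun i : ι ⊕ ι => pindChar (Sum.elim ν (fun i => -ν i) i)) (pindChar_inj.comp hv)
  rw [Fintype.linearIndependent_iff] at hli
  have hsum : ∑ i : ι ⊕ ι, (Sum.elim (fun i => (α i : ℂ) - β i * Complex.I)
      (fun i => (α i : ℂ) + β i * Complex.I) : ι ⊕ ι → ℂ) i •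
      (((fun f : Multiplicative E →* ℂ => (f : Multiplicative E → ℂ)) ∘
        (fun i : ι ⊕ ι => pindChar (Sum.elim ν (fun i => -ν i) i))) i) = 0 := by
    funext y
    obtain ⟨x, hx⟩ : ∃ x : E, Multiplicative.ofAdd x = y := ⟨Multiplicative.toAdd y, rfl⟩
    subst hx
    have h4 := hz x
    have h5 : ((pw ν α β x : ℝ) : ℂ) = 0 := by rw [h4]; simp
    unfold pw at h5
    push_cast at h5
    simp only [Fintype.sum_sum_type, Sum.elim_inl, Sum.elim_inr, Function.comp_apply,
      Finset.sum_apply, Pi.smul_apply, smul_eq_mul, pindChar_apply, Pi.zero_apply]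
    rw [← Finset.sum_add_distrib]
    have h6 : ∀ i, ((α i : ℂ) - β i * Complex.I) *
        Complex.exp (((inner ℝ (ν i) x : ℝ) : ℂ) * Complex.I) +
        ((α i : ℂ) + β i * Complex.I) *
        Complex.exp (((inner ℝ (-ν i) x : ℝ) : ℂ) * Complex.I) =
        2 * ((α i : ℂ) * Complex.cos ((inner ℝ (ν i) x : ℝ) : ℂ) +
          (β i : ℂ) * Complex.sin ((inner ℝ (ν i) x : ℝ) : ℂ)) := by
      intro i
      rw [inner_neg_left, Complex.ofReal_neg, Complex.cos, Complex.sin]
      ring
    rw [Finset.sum_congr rfl fun i _ => h6 i, ← Finset.mul_sum, h5, mul_zero]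
  have h7 := hli _ hsum
  constructor
  · funext i
    have h8 := congrArg Complex.re (h7 (Sum.inl i))
    simpa using h8
  · funext i
    have h8 := congrArg Complex.im (h7 (Sum.inl i))
    simpa using h8

end Pool.Agent.H68.SN
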