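import Pool.Agent.H68.SN.Fou

/-!
# Module PWJ (about 120 lines): the Neumann form on plane waves

PROOF. Put `f = pw ν α β`, `g = pw ν (-β) α`. With `c_i = cos (ν_i · x)`, `s_i = sin (ν_i · x)` and
`pd_pw`, pointwise
`gg f f + gg g g - k² (f² + g²) = ∑_{i,j} (ν_i · ν_j - k²) ((α_i α_j + β_i β_j) (c_i c_j + s_i s_j)
  + (β_i α_j - α_i β_j) (s_i c_j - c_i s_j))`
and `c_i c_j + s_i s_j = cos ((ν_i - ν_j) · x)`, `s_i c_j - c_i s_j = sin ((ν_i - ν_j) · x)`. (In complex terms:
`f + i g = ∑ γ_j exp (i ν_j · x)`, `γ_j = α_j - i β_j`.) For `i = j` the coefficient `ν_i · ν_i - k²`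
vanishes, for `i ≠ j` the two functions are plane waves with a frequency of norm `k` (`pw` with index
type `Unit`; `pw_helm`, `int_helm`), so their integral over `D` is zero. Hence
`BD D (k^2) f f + BD D (k^2) g g = 0`.
-/

set_option autoImplicit false

namespace Pool.Agent.H68.SN

open Filter Topology MeasureTheory Metric
open scoped ContDiff
open Pool.Agent.H68.SC

private theorem pwj_point {ι : Type*} [Fintype ι] (ν : ι → E) (α β : ι → ℝ) (K : ℝ) (x : E) :
    (gg (pw ν α β) (pw ν α β) x - K * (pw ν α β x * pw ν α β x)) +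
      (gg (pw ν (-β) α) (pw ν (-β) α) x - K * (pw ν (-β) α x * pw ν (-β) α x)) =
    ∑ i, ∑ j, (inner ℝ (ν i) (ν j) - K) *
      pw (fun _ : Unit => ν i - ν j) (fun _ => α i * α j + β i * β j)
        (fun _ => β i * α j - α i * β j) x := by
  set P : ι → ℝ := fun i => β i * Real.cos (inner ℝ (ν i) x) - α i * Real.sin (inner ℝ (ν i) x)
    with hP
  set Q : ι → ℝ := fun i => α i * Real.cos (inner ℝ (ν i) x) + β i * Real.sin (inner ℝ (ν i) x)
    with hQ
  have e1 : ∀ m, pd (pw ν α β) m x = ∑ i, ν i m * P i := by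
    intro m
    rw [pd_pw]
    unfold pw
    refine Finset.sum_congr rfl fun i _ => ?_
    simp only [hP]
    ring
  have e2 : pw ν α β x = ∑ i, Q i := rfl
  have e3 : ∀ m, pd (pw ν (-β) α) m x = ∑ i, ν i m * Q i := by
    intro m
    rw [pd_pw]
    unfold pw
    refine Finset.sum_congr rfl fun i _ => ?_
    simp only [hQ, Pi.neg_apply]
    ring
  have e4 : pw ν (-β) α x = ∑ i, -P i := by
    unfold pw
    refine Finset.sum_congr rfl fun i _ => ?_
    simp only [hP, Pi.neg_apply]
    ring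
  have e5 : ∀ R : ι → ℝ, (∑ m : Fin 3, (∑ i, ν i m * R i) * ∑ i, ν i m * R i) =
      ∑ i, ∑ j, inner ℝ (ν i) (ν j) * (R i * R j) := by
    intro R
    simp only [Finset.sum_mul_sum]
    rw [Finset.sum_comm]
    refine Finset.sum_congr rfl fun i _ => ?_
    rw [Finset.sum_comm]
    refine Finset.sum_congr rfl fun j _ => ?_
    rw [inner_eq, Fin.sum_univ_three]
    ring
  have e6 : gg (pw ν α β) (pw ν α β) x = ∑ i, ∑ j, inner ℝ (ν i) (ν j) * (P i * P j) := by
    rw [← e5 P]
    unfold gg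
    exact Finset.sum_congr rfl fun m _ => by rw [e1 m]
  have e7 : gg (pw ν (-β) α) (pw ν (-β) α) x =
      ∑ i, ∑ j, inner ℝ (ν i) (ν j) * (Q i * Q j) := by
    rw [← e5 Q]
    unfold gg
    exact Finset.sum_congr rfl fun m _ => by rw [e3 m]
  rw [e6, e7, e2, e4, Finset.sum_mul_sum, Finset.sum_mul_sum]
  simp only [Finset.mul_sum, ← Finset.sum_sub_distrib, ← Finset.sum_add_distrib]
  refine Finset.sum_congr rfl fun i _ => Finset.sum_congr rfl fun j _ => ?_
  unfold pw
  simp only [Finset.univ_unique, Finset.sum_singleton, inner_sub_left, Real.cos_sub, Real.sin_sub,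
    hP, hQ]
  ring

theorem pw_J {D : Set E} {k c : ℝ} {U : E → ℝ} (h : UU D k c U) {ι : Type*} [Fintype ι]
    (ν : ι → E) (h1 : ∀ i, ‖ν i‖ = k) (h2 : ∀ i j, i ≠ j → ‖ν i - ν j‖ = k) (α β : ι → ℝ) :
    BD D (k ^ 2) (pw ν (-β) α) (pw ν (-β) α) = -BD D (k ^ 2) (pw ν α β) (pw ν α β) := by
  have hi : ∀ φ : E → ℝ, Continuous φ → IntegrableOn φ D := fun φ hφ =>
    (hφ.continuousOn.integrableOn_compact h.bdd.isCompact_closure).mono_set subset_closure
  have hpc : ∀ a b : ι → ℝ, IntegrableOn (fun x => gg (pw ν a b) (pw ν a b) x -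
      k ^ 2 * (pw ν a b x * pw ν a b x)) D := by
    intro a b
    have hc : ContDiff ℝ 1 (pw ν a b) := pw_contDiff ν a b (n := 1)
    exact hi _ ((continuous_gg hc hc).sub
      (continuous_const.mul (hc.continuous.mul hc.continuous)))
  have h3 : ∀ i j, ∫ x in D, (inner ℝ (ν i) (ν j) - k ^ 2) *
      pw (fun _ : Unit => ν i - ν j) (fun _ => α i * α j + β i * β j)
        (fun _ => β i * α j - α i * β j) x = 0 := by
    intro i j
    rw [integral_const_mul]
    by_cases hij : i = j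
    · subst hij
      rw [real_inner_self_eq_norm_sq, h1 i, sub_self, zero_mul]
    · have hn : ‖ν i - ν j‖ = k := h2 i j hij
      have h4 := int_helm h (g := pw (fun _ : Unit => ν i - ν j)
        (fun _ => α i * α j + β i * β j) (fun _ => β i * α j - α i * β j))
        (pw_contDiff _ _ _ (n := 2)) (fun x => pw_helm _ _ _ (fun _ => hn) x)
      rw [h4, mul_zero]
  have h5 : ∀ i j, IntegrableOn (fun x => (inner ℝ (ν i) (ν j) - k ^ 2) *
      pw (fun _ : Unit => ν i - ν j) (fun _ => α i * α j + β i * β j)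
        (fun _ => β i * α j - α i * β j) x) D := by
    intro i j
    have hc : ContDiff ℝ 1 (pw (fun _ : Unit => ν i - ν j)
      (fun _ => α i * α j + β i * β j) (fun _ => β i * α j - α i * β j)) :=
      pw_contDiff _ _ _ (n := 1)
    exact hi _ (continuous_const.mul hc.continuous)
  have h6 : BD D (k ^ 2) (pw ν α β) (pw ν α β) + BD D (k ^ 2) (pw ν (-β) α) (pw ν (-β) α) = 0 := by
    unfold BD
    rw [← integral_add (hpc α β) (hpc (-β) α)]
    have h7 : ∀ x, (gg (pw ν α β) (pw ν α β) x - k ^ 2 * (pw ν α β x * pw ν α β x)) +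
      (gg (pw ν (-β) α) (pw ν (-β) α) x - k ^ 2 * (pw ν (-β) α x * pw ν (-β) α x)) =
      ∑ i, ∑ j, (inner ℝ (ν i) (ν j) - k ^ 2) *
      pw (fun _ : Unit => ν i - ν j) (fun _ => α i * α j + β i * β j)
        (fun _ => β i * α j - α i * β j) x := pwj_point ν α β (k ^ 2)
    simp only [h7]
    rw [integral_finsetSum _ fun i _ => integrable_finsetSum _ fun j _ => h5 i j]
    refine Finset.sum_eq_zero fun i _ => ?_
    rw [integral_finsetSum _ fun j _ => h5 i j]
    exact Finset.sum_eq_zero fun j _ => h3 i j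
  linarith

end Pool.Agent.H68.SN
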