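import Pool.Agent.H68.SC.Defs

/-!
# Module Rots (about 100 lines): many triples with pairwise distance `k`

PROOF. Base triple `(k/√2) (1,1,0)`, `(k/√2) (1,0,1)`, `(k/√2) (0,1,1)`: norm `k`, distances `k`. Rotate it about
the third axis by the angles `θ_a = (a + 1) / (10 (p + 1))`, `a < p` (all in `(0, 1/10)`): the third
coordinates are `0, k/√2, k/√2`, the horizontal parts have angles `π/4 + θ_a`, `θ_a`, `π/2 + θ_a`.
All these `3 p` vectors are different and no two are opposite. (Any other family is fine, e.g. use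
`(cos θ, sin θ)` replaced by a rational parametrisation of the circle with small parameters
`t_a`: the horizontal coordinates of the three vectors rotated by `(c, s)` are `(c - s, c + s)`, `(c, s)`,
`(-s, c)` times `k/√2`; with `c > |s|`, `s > 0` they are distinguished by signs and the value of `s`.)
-/

set_option autoImplicit false

namespace Pool.Agent.H68.SN

open Pool.Agent.H68.SC

private def rots_v (q c s : ℝ) : Fin 3 → E :=
  ![!₂[q * (c - s), q * (c + s), 0], !₂[q * c, q * s, q], !₂[-(q * s), q * c, q]]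

private lemma rots_norm {k : ℝ} (hk : 0 < k) (x : E) (h : x 0 ^ 2 + x 1 ^ 2 + x 2 ^ 2 = k ^ 2) :
    ‖x‖ = k := by
  rw [EuclideanSpace.norm_eq]
  simp only [Fin.sum_univ_three, Real.norm_eq_abs, sq_abs]
  rw [h, Real.sqrt_sq hk.le]

private lemma rots_norm_v {k q c s : ℝ} (hk : 0 < k) (hq : 2 * q ^ 2 = k ^ 2)
    (hcs : c ^ 2 + s ^ 2 = 1) (i : Fin 3) : ‖rots_v q c s i‖ = k := by
  apply rots_norm hk
  fin_cases i
  · simp [rots_v]
    linear_combination hq + 2 * q ^ 2 * hcs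
  · simp [rots_v]
    linear_combination hq + q ^ 2 * hcs
  · simp [rots_v]
    linear_combination hq + q ^ 2 * hcs

private lemma rots_dist {k q c s : ℝ} (hk : 0 < k) (hq : 2 * q ^ 2 = k ^ 2)
    (hcs : c ^ 2 + s ^ 2 = 1) (i j : Fin 3) (hij : i ≠ j) :
    ‖rots_v q c s i - rots_v q c s j‖ = k := by
  apply rots_norm hk
  fin_cases i <;> fin_cases j <;> first
    | exact absurd rfl hij
    | (simp [rots_v]; linear_combination hq + 2 * q ^ 2 * hcs)
    | (simp [rots_v]; linear_combination hq + q ^ 2 * hcs)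

private lemma rots_pos {q c s c' s' : ℝ} (hq : 0 < q) (_hs : 0 < s) (_hs' : 0 < s')
    (hc : 0 < c) (hc' : 0 < c') (i j : Fin 3) : rots_v q c s i ≠ -rots_v q c' s' j := by
  have hc2 : 0 < q * c := mul_pos hq hc
  have hc3 : 0 < q * c' := mul_pos hq hc'
  intro h
  have h0 := congrArg (fun x : E => x 0) h
  have h1 := congrArg (fun x : E => x 1) h
  have h2 := congrArg (fun x : E => x 2) h
  fin_cases i <;> fin_cases j <;> simp [rots_v] at h0 h1 h2 <;>
    nlinarith [mul_pos hq _hs, mul_pos hq _hs']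

private lemma rots_inj {q c s c' s' : ℝ} (hq : 0 < q) (hs : 0 < s) (hs' : 0 < s')
    (hc : 0 < c) (hc' : 0 < c') (i j : Fin 3) (h : rots_v q c s i = rots_v q c' s' j) :
    i = j ∧ s = s' := by
  have h0 := congrArg (fun x : E => x 0) h
  have h1 := congrArg (fun x : E => x 1) h
  have h2 := congrArg (fun x : E => x 2) h
  have hq' : q ≠ 0 := hq.ne'
  have hq2 : 0 < q * s := mul_pos hq hs
  have hq3 : 0 < q * s' := mul_pos hq hs'
  have hq4 : 0 < q * c := mul_pos hq hc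
  have hq5 : 0 < q * c' := mul_pos hq hc'
  fin_cases i <;> fin_cases j <;> simp [rots_v, hq', hq'.symm] at h0 h1 h2 ⊢ <;> linarith

theorem rots {k : ℝ} (hk : 0 < k) (p : ℕ) : ∃ ν : Fin p → Fin 3 → E,
    (∀ a i, ‖ν a i‖ = k) ∧ (∀ a i j, i ≠ j → ‖ν a i - ν a j‖ = k) ∧
    (∀ a i b j, (a, i) ≠ (b, j) → ν a i ≠ ν b j) ∧ (∀ a i b j, ν a i ≠ -ν b j) := by
  have h2 : (0 : ℝ) < Real.sqrt 2 := Real.sqrt_pos.mpr two_pos
  have hq : 0 < k / Real.sqrt 2 := div_pos hk h2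
  have hq2 : 2 * (k / Real.sqrt 2) ^ 2 = k ^ 2 := by
    rw [div_pow, Real.sq_sqrt two_pos.le]
    ring
  have hs : ∀ a : Fin p, (0 : ℝ) < 1 / ((a : ℕ) + 2 : ℝ) := fun a => by positivity
  have hs2 : ∀ a : Fin p, (1 / ((a : ℕ) + 2 : ℝ)) ≤ 1 / 2 := fun a => by
    apply one_div_le_one_div_of_le two_pos
    have : (0 : ℝ) ≤ ((a : ℕ) : ℝ) := Nat.cast_nonneg _
    linarith
  have hc0 : ∀ a : Fin p, (0 : ℝ) < 1 - (1 / ((a : ℕ) + 2 : ℝ)) ^ 2 := fun a => by
    have h3 := hs a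
    have h4 := hs2 a
    nlinarith
  have hc : ∀ a : Fin p, (0 : ℝ) < Real.sqrt (1 - (1 / ((a : ℕ) + 2 : ℝ)) ^ 2) :=
    fun a => Real.sqrt_pos.mpr (hc0 a)
  have hcs : ∀ a : Fin p, Real.sqrt (1 - (1 / ((a : ℕ) + 2 : ℝ)) ^ 2) ^ 2
      + (1 / ((a : ℕ) + 2 : ℝ)) ^ 2 = 1 := fun a => by
    rw [Real.sq_sqrt (hc0 a).le]
    ring
  refine ⟨fun a => rots_v (k / Real.sqrt 2) (Real.sqrt (1 - (1 / ((a : ℕ) + 2 : ℝ)) ^ 2))
    (1 / ((a : ℕ) + 2 : ℝ)), ?_, ?_, ?_, ?_⟩
  · intro a i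
    exact rots_norm_v hk hq2 (hcs a) i
  · intro a i j hij
    exact rots_dist hk hq2 (hcs a) i j hij
  · intro a i b j hne h
    obtain ⟨e1, e2⟩ := rots_inj hq (hs a) (hs b) (hc a) (hc b) i j h
    apply hne
    have e3 : ((a : ℕ) : ℝ) = ((b : ℕ) : ℝ) := by
      have e4 : ((a : ℕ) + 2 : ℝ) = ((b : ℕ) + 2 : ℝ) := by
        have := congrArg (fun t : ℝ => t⁻¹) e2
        simpa using this
      linarith
    have e5 : (a : ℕ) = (b : ℕ) := by exact_mod_cast e3
    rw [Fin.ext e5, e1]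
  · intro a i b j
    exact rots_pos hq (hs a) (hs b) (hc a) (hc b) i j

end Pool.Agent.H68.SN
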