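import Pool.Agent.H68.SN.Defs

/-!
# Module Strip (about 200 lines): little mass near the boundary

PROOF. `D = {φ < 0}`. For `0 < ε < δ / 4` let `b_ε : ℝ → ℝ` be continuous with `0 ≤ b_ε ≤ 1`, `b_ε = 1` on
`[-δ, -2 ε]`, `b_ε = 0` on `[-ε, ∞)` and on `(-∞, -δ - ε]` (piecewise linear), and
`θ s = - ∫ t in s..0, b_ε t`, of class `C¹` with derivative `b_ε`, `θ = 0` on `[-ε, ∞)`,
`|θ| ≤ δ + ε ≤ 2 δ`. The vector field `X_i = f² θ(φ) ∂_i φ` on `D`, `0` outside `D`, is `C¹` with compact
support in `D` (it vanishes where `φ > -ε`), so `∑ i ∫ ∂_i X_i = 0` (`integral_pd`, H68/SC/Basic.lean):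
`∫_D f² b_ε(φ) |∇φ|² = - ∫_D θ(φ) (2 f ∇f·∇φ + f² Δφ) ≤ 2 δ C₁ ∫_D (f² + gg f f)`, with `C₁` from bounds for
`∇φ`, `Δφ` on the compact `closure D`. Let `ε → 0` (Fatou / monotone convergence, or bound
`∫` over `{-δ ≤ φ ≤ -2 ε}` and exhaust): `∫_{D ∩ {-δ < φ}} f² |∇φ|² ≤ 2 δ C₁ ∫_D (f² + gg f f)`.
Finally `|∇φ|² ≥ m > 0` on `closure D ∩ {-δ₀ ≤ φ ≤ 0}` for some `δ₀ > 0` (compactness; `h.reg` on
`{φ = 0}`). `|∇φ|² = gg φ φ = ‖fderiv ℝ φ x‖²` (`norm_fderiv_sq`).
-/

set_option autoImplicit false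

namespace Pool.Agent.H68.SN

open Filter Topology MeasureTheory Metric
open scoped ContDiff
open Pool.Agent.H68.SC

private theorem Strip_theta {δ ε : ℝ} (hδ : 0 < δ) (hε : 0 < ε) :
    ∃ θ b : ℝ → ℝ, Continuous b ∧ (∀ s, HasDerivAt θ (b s) s) ∧ (∀ s, 0 ≤ b s) ∧
      (∀ s, -δ ≤ s → s ≤ -(2 * ε) → b s = 1) ∧ (∀ s, -ε ≤ s → b s = 0 ∧ θ s = 0) ∧
      (∀ s, |θ s| ≤ 2 * δ) := by
  set b : ℝ → ℝ := fun s => max 0 (min 1 ((-s - ε) / ε)) * max 0 (min 1 ((s + 2 * δ) / δ)) with hb
  have hbc : Continuous b := by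
    rw [hb]
    fun_prop
  have hb0 : ∀ s, 0 ≤ b s := fun s => mul_nonneg (le_max_left _ _) (le_max_left _ _)
  have hb1 : ∀ s, b s ≤ 1 := by
    intro s
    have h1 : max 0 (min 1 ((-s - ε) / ε)) ≤ (1 : ℝ) := max_le zero_le_one (min_le_left _ _)
    have h2 : max 0 (min 1 ((s + 2 * δ) / δ)) ≤ (1 : ℝ) := max_le zero_le_one (min_le_left _ _)
    exact mul_le_one₀ h1 (le_max_left _ _) h2
  have hbe : ∀ s, -δ ≤ s → s ≤ -(2 * ε) → b s = 1 := by
    intro s h1 h2
    have h3 : 1 ≤ (-s - ε) / ε := by rw [le_div_iff₀ hε]; linarith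
    have h4 : 1 ≤ (s + 2 * δ) / δ := by rw [le_div_iff₀ hδ]; linarith
    simp only [hb]
    rw [min_eq_left h3, min_eq_left h4, max_eq_right zero_le_one, mul_one]
  have hbr : ∀ s, -ε ≤ s → b s = 0 := by
    intro s h1
    have h3 : (-s - ε) / ε ≤ 0 := div_nonpos_of_nonpos_of_nonneg (by linarith) hε.le
    simp only [hb]
    rw [max_eq_left ((min_le_right _ _).trans h3), zero_mul]
  have hbl : ∀ s, s ≤ -(2 * δ) → b s = 0 := by
    intro s h1
    have h3 : (s + 2 * δ) / δ ≤ 0 := div_nonpos_of_nonpos_of_nonneg (by linarith) hδ.le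
    simp only [hb]
    rw [max_eq_left ((min_le_right _ _).trans h3) (b := min 1 ((s + 2 * δ) / δ)), mul_zero]
  have hz : ∀ u v : ℝ, (∀ s ∈ Set.uIcc u v, b s = 0) → ∫ t in u..v, b t = 0 := by
    intro u v h
    rw [intervalIntegral.integral_congr (g := fun _ => (0 : ℝ)) h]
    simp
  refine ⟨fun s => ∫ t in (0 : ℝ)..s, b t, b, hbc, fun s => ?_, hb0, hbe, fun s hs => ⟨hbr s hs, ?_⟩,
    fun s => ?_⟩
  · exact intervalIntegral.integral_hasDerivAt_right (hbc.intervalIntegrable _ _)
      (hbc.stronglyMeasurableAtFilter _ _) hbc.continuousAt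
  · refine hz _ _ fun t ht => hbr t ?_
    have := ht.1
    rcases le_total (0 : ℝ) s with h | h
    · rw [min_eq_left h] at this; linarith
    · rw [min_eq_right h] at this; linarith
  · have hbd : ∀ u v : ℝ, |∫ t in u..v, b t| ≤ |v - u| := by
      intro u v
      have := intervalIntegral.norm_integral_le_of_norm_le_const (f := b) (C := 1) (a := u) (b := v)
        (fun x _ => by
          rw [Real.norm_eq_abs, abs_of_nonneg (hb0 x)]
          exact hb1 x)
      rwa [one_mul, Real.norm_eq_abs] at this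
    rcases le_or_gt 0 s with h | h
    · have : ∫ t in (0 : ℝ)..s, b t = 0 := hz _ _ fun t ht => hbr t (by
        have := ht.1
        rw [min_eq_left h] at this; linarith)
      show |∫ t in (0 : ℝ)..s, b t| ≤ 2 * δ
      rw [this, abs_zero]; linarith
    · rcases le_or_gt (-(2 * δ)) s with h2 | h2
      · refine (hbd 0 s).trans ?_
        rw [sub_zero, abs_of_neg h]; linarith
      · have h3 : ∫ t in (0 : ℝ)..s, b t = ∫ t in (0 : ℝ)..(-(2 * δ)), b t := by
          rw [← intervalIntegral.integral_add_adjacent_intervals (b := -(2 * δ))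
            (hbc.intervalIntegrable _ _) (hbc.intervalIntegrable _ _),
            hz (-(2 * δ)) s (fun t ht => hbl t ?_), add_zero]
          have := ht.2
          rw [max_eq_left h2.le] at this
          exact this
        show |∫ t in (0 : ℝ)..s, b t| ≤ 2 * δ
        rw [h3]
        refine (hbd _ _).trans ?_
        rw [sub_zero, abs_neg, abs_of_pos (by linarith)]

/-- the integral identity -/
private theorem Strip_ident {φ f : E → ℝ} {θ b : ℝ → ℝ} (hφ : ContDiff ℝ 2 φ)
    (hf : ContDiff ℝ 1 f) (hb : Continuous b) (hθ : ∀ s, HasDerivAt θ (b s) s)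
    (hc : HasCompactSupport (fun x => θ (φ x))) (hc' : HasCompactSupport (fun x => b (φ x))) :
    ∫ x, f x ^ 2 * b (φ x) * gg φ φ x =
      -∫ x, θ (φ x) * (2 * f x * gg f φ x + f x ^ 2 * ∑ i : Fin 3, pd (pd φ i) i x) := by
  have hφ1 : ContDiff ℝ 1 φ := hφ.of_le (by norm_num)
  have hpφ : ∀ i, ContDiff ℝ 1 (pd φ i) := fun i => by
    have : ContDiff ℝ 1 (fderiv ℝ φ) := hφ.fderiv_right (m := 1) (by norm_num)
    exact this.clm_apply contDiff_const
  have hθ1 : ContDiff ℝ 1 θ := by
    rw [contDiff_one_iff_deriv]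
    refine ⟨fun s => (hθ s).differentiableAt, ?_⟩
    have : deriv θ = b := funext fun s => (hθ s).deriv
    rw [this]; exact hb
  have hθφ : ContDiff ℝ 1 (fun x => θ (φ x)) := hθ1.comp hφ1
  have hφd : ∀ x, DifferentiableAt ℝ φ x := fun x => (hφ1.differentiable one_ne_zero) x
  have hfd : ∀ x, DifferentiableAt ℝ f x := fun x => (hf.differentiable one_ne_zero) x
  have hθd : ∀ x, DifferentiableAt ℝ (fun x => θ (φ x)) x := fun x =>
    (hθφ.differentiable one_ne_zero) x
  have hpdθ : ∀ i x, pd (fun x => θ (φ x)) i x = b (φ x) * pd φ i x := by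
    intro i x
    have h1 : HasFDerivAt (fun x => θ (φ x)) (b (φ x) • fderiv ℝ φ x) x :=
      (hθ (φ x)).comp_hasFDerivAt x (hφd x).hasFDerivAt
    unfold pd
    rw [h1.fderiv]
    rfl
  set X : Fin 3 → E → ℝ := fun i x => θ (φ x) * (f x * (f x * pd φ i x)) with hX
  have hX1 : ∀ i, ContDiff ℝ 1 (X i) := fun i => hθφ.mul (hf.mul (hf.mul (hpφ i)))
  have hXc : ∀ i, HasCompactSupport (X i) := fun i => hc.mul_right
  have hpX : ∀ i x, pd (X i) i x = θ (φ x) * (2 * f x * (pd f i x * pd φ i x) +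
      f x ^ 2 * pd (pd φ i) i x) + f x ^ 2 * b (φ x) * (pd φ i x * pd φ i x) := by
    intro i x
    have hpd := ((hpφ i).differentiable one_ne_zero) x
    have e1 : pd (fun y => f y * pd φ i y) i x = f x * pd (pd φ i) i x + pd φ i x * pd f i x :=
      pd_mul (hfd x) hpd i
    have e2 : pd (fun y => f y * (f y * pd φ i y)) i x =
        f x * pd (fun y => f y * pd φ i y) i x + f x * pd φ i x * pd f i x :=
      pd_mul (hfd x) ((hfd x).mul hpd) i
    have e3 : pd (X i) i x = θ (φ x) * pd (fun y => f y * (f y * pd φ i y)) i x +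
        f x * (f x * pd φ i x) * pd (fun x => θ (φ x)) i x :=
      pd_mul (hθd x) ((hfd x).mul ((hfd x).mul hpd)) i
    rw [e3, e2, e1, hpdθ]
    ring
  have h0 : ∀ i, ∫ x, pd (X i) i x = 0 := fun i => integral_pd (hX1 i) (hXc i) i
  have hbφ : Continuous (fun x => b (φ x)) := hb.comp hφ.continuous
  have hΔ : Continuous (fun x => ∑ i : Fin 3, pd (pd φ i) i x) :=
    continuous_finsetSum _ fun i _ => continuous_pd (hpφ i) i
  have i1 : Integrable (fun x => θ (φ x) * (2 * f x * gg f φ x +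
      f x ^ 2 * ∑ i : Fin 3, pd (pd φ i) i x)) := by
    refine integrable_cc (hθφ.continuous.mul (((continuous_const.mul hf.continuous).mul
      (continuous_gg hf hφ1)).add ((hf.continuous.pow 2).mul hΔ))) hc.mul_right
  have i2 : Integrable (fun x => f x ^ 2 * b (φ x) * gg φ φ x) := by
    refine integrable_cc (((hf.continuous.pow 2).mul hbφ).mul (continuous_gg hφ1 hφ1)) ?_
    have : HasCompactSupport (fun x => f x ^ 2 * b (φ x)) := hc'.mul_left
    exact this.mul_right
  have hs : ∫ x, (θ (φ x) * (2 * f x * gg f φ x + f x ^ 2 * ∑ i : Fin 3, pd (pd φ i) i x) +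
      f x ^ 2 * b (φ x) * gg φ φ x) = 0 := by
    have e : ∀ x, θ (φ x) * (2 * f x * gg f φ x + f x ^ 2 * ∑ i : Fin 3, pd (pd φ i) i x) +
      f x ^ 2 * b (φ x) * gg φ φ x = ∑ i, pd (X i) i x := by
      intro x
      simp only [hpX, gg, Fin.sum_univ_three]
      ring
    rw [integral_congr_ae (Eventually.of_forall e), integral_finsetSum]
    · exact Finset.sum_eq_zero fun i _ => h0 i
    · intro i _
      exact integrable_cc (continuous_pd (hX1 i) i) (hasCompactSupport_pd (hXc i) i)
  rw [integral_add i1 i2] at hs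
  linarith

theorem strip {D : Set E} {φ : E → ℝ} {k c : ℝ} {u : E → ℝ} (h : Sol D φ k c u) :
    ∃ C δ₀ : ℝ, 0 < C ∧ 0 < δ₀ ∧ ∀ δ : ℝ, 0 < δ → δ ≤ δ₀ → ∀ f : E → ℝ, ContDiff ℝ 1 f →
      ∫ x in D ∩ {x | -δ < φ x}, f x ^ 2 ≤ C * δ * ∫ x in D, (f x ^ 2 + gg f f x) := by
  have hK : IsCompact (closure D) := h.bdd.isCompact_closure
  have hφ1 : ContDiff ℝ 1 φ := h.smooth.of_le (by norm_num)
  have hpφ : ∀ i, ContDiff ℝ 1 (pd φ i) := fun i => by
    have : ContDiff ℝ 1 (fderiv ℝ φ) := h.smooth.fderiv_right (m := 1) (by norm_num)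
    exact this.clm_apply contDiff_const
  have hΔ : Continuous (fun x => ∑ i : Fin 3, pd (pd φ i) i x) :=
    continuous_finsetSum _ fun i _ => continuous_pd (hpφ i) i
  have hgφ : Continuous (gg φ φ) := continuous_gg hφ1 hφ1
  have hDo : IsOpen D := by
    rw [h.eqD]; exact isOpen_lt h.smooth.continuous continuous_const
  have hDm := hDo.measurableSet
  obtain ⟨M1, hM1⟩ := hK.exists_bound_of_continuousOn hgφ.continuousOn
  obtain ⟨M2, hM2⟩ := hK.exists_bound_of_continuousOn hΔ.continuousOn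
  -- a lower bound for the gradient
  have hg0 : Continuous (fun x => |φ x| + gg φ φ x) := (h.smooth.continuous.abs).add hgφ
  obtain ⟨m, hm, hmb⟩ : ∃ m : ℝ, 0 < m ∧ ∀ x ∈ closure D, m ≤ |φ x| + gg φ φ x := by
    obtain ⟨m, hm, hmb⟩ := hK.exists_forall_le' hg0.continuousOn (a := 0) (fun x _ => by
      by_cases hx : φ x = 0
      · have h1 := h.reg x hx
        have h2 : 0 < gg φ φ x := by
          rw [← norm_fderiv_sq]
          exact pow_pos (norm_pos_iff.2 h1) 2
        have := abs_nonneg (φ x)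
        linarith
      · have := abs_pos.2 hx
        have := gg_nonneg φ x
        linarith)
    exact ⟨m, hm, hmb⟩
  set A : ℝ := |M1| + 1 + |M2| with hA
  have hA0 : 0 < A := by positivity
  refine ⟨2 / m * (2 * A), m / 2, by positivity, by linarith, fun δ hδ hδ0 f hf => ?_⟩
  set J : ℝ := ∫ x in D, (f x ^ 2 + gg f f x) with hJ
  have hfc := hf.continuous
  have hgf : Continuous (gg f f) := continuous_gg hf hf
  have hIc : ∀ g : E → ℝ, Continuous g → IntegrableOn g D := fun g hg =>
    (hg.continuousOn.integrableOn_compact hK).mono_set subset_closure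
  have main : ∀ ε : ℝ, 0 < ε → ∫ x in D ∩ {x | -δ < φ x} ∩ {x | φ x < -(2 * ε)}, f x ^ 2 ≤
      2 / m * (2 * A) * δ * J := by
    intro ε hε
    obtain ⟨θ, b, hb, hθ, hb0, hb1, hz, hθb⟩ := Strip_theta hδ hε
    have hoff : ∀ x, x ∉ D → b (φ x) = 0 ∧ θ (φ x) = 0 := by
      intro x hx
      refine hz _ ?_
      have : 0 ≤ φ x := by
        by_contra hn
        apply hx
        rw [h.eqD]
        exact not_le.1 hn
      linarith
    have hsupp : ∀ g : E → ℝ, (∀ x, x ∉ D → g x = 0) → HasCompactSupport g := by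
      intro g hg
      refine HasCompactSupport.intro hK fun x hx => hg x fun hx' => hx (subset_closure hx')
    have hc : HasCompactSupport (fun x => θ (φ x)) := hsupp _ fun x hx => (hoff x hx).2
    have hc' : HasCompactSupport (fun x => b (φ x)) := hsupp _ fun x hx => (hoff x hx).1
    have hid := Strip_ident h.smooth hf hb hθ hc hc'
    have hL : ∫ x, f x ^ 2 * b (φ x) * gg φ φ x = ∫ x in D, f x ^ 2 * b (φ x) * gg φ φ x := by
      refine (setIntegral_eq_integral_of_forall_compl_eq_zero fun x hx => ?_).symm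
      rw [(hoff x hx).1]; ring
    have hR : ∫ x, θ (φ x) * (2 * f x * gg f φ x + f x ^ 2 * ∑ i : Fin 3, pd (pd φ i) i x) =
        ∫ x in D, θ (φ x) * (2 * f x * gg f φ x + f x ^ 2 * ∑ i : Fin 3, pd (pd φ i) i x) := by
      refine (setIntegral_eq_integral_of_forall_compl_eq_zero fun x hx => ?_).symm
      rw [(hoff x hx).2]; ring
    have hθc : Continuous θ := continuous_iff_continuousAt.2 fun s => (hθ s).continuousAt
    have hupper : ∫ x in D, f x ^ 2 * b (φ x) * gg φ φ x ≤ 2 * δ * A * J := by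
      rw [← hL, hid, hR, ← integral_neg, hJ, ← integral_const_mul]
      refine setIntegral_mono_on ?_ ?_ hDm fun x hx => ?_
      · refine (hIc _ ?_).neg
        exact (hθc.comp h.smooth.continuous).mul (((continuous_const.mul hfc).mul
          (continuous_gg hf hφ1)).add ((hfc.pow 2).mul hΔ))
      · exact (hIc _ ((hfc.pow 2).add hgf)).const_mul _
      · have hxc : x ∈ closure D := subset_closure hx
        have h1 := hM1 x hxc
        have h2 := hM2 x hxc
        rw [Real.norm_eq_abs] at h1 h2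
        have h1' : gg φ φ x ≤ |M1| := (le_abs_self _).trans (h1.trans (le_abs_self _))
        have h2' : |∑ i : Fin 3, pd (pd φ i) i x| ≤ |M2| := h2.trans (le_abs_self _)
        set L := ∑ i : Fin 3, pd (pd φ i) i x with hLd
        set G := gg f φ x with hG
        have hG2 : G ^ 2 ≤ gg f f x * gg φ φ x := gg_sq_le f φ x
        have hff := gg_nonneg f x
        have hG3 : G ^ 2 ≤ gg f f x * |M1| := hG2.trans (mul_le_mul_of_nonneg_left h1' hff)
        have h3 : |2 * f x * G| ≤ (|M1| + 1) * (f x ^ 2 + gg f f x) := by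
          have hM := abs_nonneg M1
          rw [abs_le]
          constructor
          · nlinarith [sq_nonneg (f x + G), sq_nonneg (f x), mul_nonneg hM (sq_nonneg (f x)),
              mul_nonneg hM hff]
          · nlinarith [sq_nonneg (f x - G), sq_nonneg (f x), mul_nonneg hM (sq_nonneg (f x)),
              mul_nonneg hM hff]
        have h4 : |f x ^ 2 * L| ≤ |M2| * (f x ^ 2 + gg f f x) := by
          rw [abs_mul, abs_of_nonneg (sq_nonneg (f x))]
          have := abs_nonneg M2
          nlinarith [mul_le_mul_of_nonneg_left h2' (sq_nonneg (f x)), mul_nonneg this hff]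
        have h5 : |2 * f x * G + f x ^ 2 * L| ≤ A * (f x ^ 2 + gg f f x) := by
          refine (abs_add_le _ _).trans ?_
          rw [hA]
          linarith
        calc -(θ (φ x) * (2 * f x * G + f x ^ 2 * L))
            ≤ |θ (φ x) * (2 * f x * G + f x ^ 2 * L)| := neg_le_abs _
          _ = |θ (φ x)| * |2 * f x * G + f x ^ 2 * L| := abs_mul _ _
          _ ≤ (2 * δ) * (A * (f x ^ 2 + gg f f x)) :=
              mul_le_mul (hθb _) h5 (abs_nonneg _) (by linarith)
          _ = 2 * δ * A * (f x ^ 2 + gg f f x) := by ring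
    set S : Set E := D ∩ {x | -δ < φ x} ∩ {x | φ x < -(2 * ε)} with hS
    have hSm : MeasurableSet S :=
      (hDm.inter (isOpen_lt continuous_const h.smooth.continuous).measurableSet).inter
        (isOpen_lt h.smooth.continuous continuous_const).measurableSet
    have hSD : S ⊆ D := fun x hx => hx.1.1
    have hlow : m / 2 * ∫ x in S, f x ^ 2 ≤ ∫ x in D, f x ^ 2 * b (φ x) * gg φ φ x := by
      have hint : IntegrableOn (fun x => f x ^ 2 * b (φ x) * gg φ φ x) D :=
        hIc _ (((hfc.pow 2).mul (hb.comp h.smooth.continuous)).mul hgφ)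
      calc m / 2 * ∫ x in S, f x ^ 2 = ∫ x in S, m / 2 * f x ^ 2 := (integral_const_mul _ _).symm
        _ ≤ ∫ x in S, f x ^ 2 * b (φ x) * gg φ φ x := by
            refine setIntegral_mono_on (((hIc _ (hfc.pow 2)).mono_set hSD).const_mul _)
              (hint.mono_set hSD) hSm fun x hx => ?_
            have hx1 : -δ < φ x := hx.1.2
            have hx2 : φ x < -(2 * ε) := hx.2
            rw [hb1 _ hx1.le hx2.le, mul_one]
            have h6 := hmb x (subset_closure (hSD hx))
            have h7 : |φ x| ≤ m / 2 := by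
              rw [abs_of_neg (by linarith)]; linarith
            have h8 : m / 2 ≤ gg φ φ x := by linarith
            nlinarith [mul_le_mul_of_nonneg_left h8 (sq_nonneg (f x))]
        _ ≤ ∫ x in D, f x ^ 2 * b (φ x) * gg φ φ x := by
            refine setIntegral_mono_set hint ?_ (Eventually.of_forall hSD)
            exact Eventually.of_forall fun x =>
              mul_nonneg (mul_nonneg (sq_nonneg _) (hb0 _)) (gg_nonneg _ _)
    have h9 := hlow.trans hupper
    have h10 : ∫ x in S, f x ^ 2 = 2 / m * (m / 2 * ∫ x in S, f x ^ 2) := by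
      field_simp
    rw [h10]
    calc 2 / m * (m / 2 * ∫ x in S, f x ^ 2) ≤ 2 / m * (2 * δ * A * J) :=
          mul_le_mul_of_nonneg_left h9 (by positivity)
      _ = 2 / m * (2 * A) * δ * J := by ring
  -- the limit
  have hmono : Monotone (fun n : ℕ => D ∩ {x | -δ < φ x} ∩ {x | φ x < -(2 * (1 / ((n : ℝ) + 1)))}) := by
    intro n n' hn x hx
    refine ⟨hx.1, ?_⟩
    have h1 : φ x < -(2 * (1 / ((n : ℝ) + 1))) := hx.2
    have h2 : 1 / ((n' : ℝ) + 1) ≤ 1 / ((n : ℝ) + 1) := by
      apply one_div_le_one_div_of_le (by positivity)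
      have : (n : ℝ) ≤ n' := by exact_mod_cast hn
      linarith
    show φ x < -(2 * (1 / ((n' : ℝ) + 1)))
    linarith
  have hun : (⋃ n : ℕ, D ∩ {x | -δ < φ x} ∩ {x | φ x < -(2 * (1 / ((n : ℝ) + 1)))}) =
      D ∩ {x | -δ < φ x} := by
    apply Set.Subset.antisymm
    · exact Set.iUnion_subset fun n x hx => hx.1
    · intro x hx
      have hx0 : φ x < 0 := by
        have := hx.1
        rw [h.eqD] at this
        exact this
      obtain ⟨n, hn⟩ := exists_nat_one_div_lt (show (0 : ℝ) < -φ x / 2 by linarith)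
      refine Set.mem_iUnion.2 ⟨n, hx, ?_⟩
      show φ x < -(2 * (1 / ((n : ℝ) + 1)))
      linarith
  have hlim := tendsto_setIntegral_of_monotone (μ := (volume : Measure E)) (f := fun x => f x ^ 2)
    (fun n : ℕ => ((hDm.inter (isOpen_lt continuous_const h.smooth.continuous).measurableSet).inter
        (isOpen_lt h.smooth.continuous continuous_const).measurableSet)) hmono
    ((hIc _ (hfc.pow 2)).mono_set (by rw [hun]; exact Set.inter_subset_left))
  rw [hun] at hlim
  exact le_of_tendsto hlim (Eventually.of_forall fun n => main _ (by positivity))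

end Pool.Agent.H68.SN
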