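import Pool.Agent.H68.SN.WNeu
import Pool.Agent.H68.SN.PWJ
import Pool.Agent.H68.SN.Strip
import Pool.Agent.H68.SN.Mean
import Pool.Agent.H68.SN.Bess
import Pool.Agent.H68.SN.PInd
import Pool.Agent.H68.SN.Rots

/-!
# The choice of the triple (proved from the modules)
-/

set_option autoImplicit false

namespace Pool.Agent.H68.SN

open Filter Topology MeasureTheory Metric
open scoped ContDiff
open Pool.Agent.H68.SC

theorem sol_open {D : Set E} {φ : E → ℝ} {k c : ℝ} {u : E → ℝ} (h : Sol D φ k c u) :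
    IsOpen D := by
  rw [h.eqD]
  exact isOpen_lt h.smooth.continuous continuous_const

/-- linear combinations of the eigenfunctions -/
noncomputable def Wl {n : ℕ} (w : Fin n → E → ℝ) : (Fin n → ℝ) →ₗ[ℝ] (E → ℝ) where
  toFun a := ∑ i, a i • w i
  map_add' a b := by
    simp only [Pi.add_apply, add_smul, Finset.sum_add_distrib]
  map_smul' t a := by
    simp only [Pi.smul_apply, smul_eq_mul, mul_smul, Finset.smul_sum, RingHom.id_apply]

theorem Wl_eigf {D : Set E} (hD : IsOpen D) {K : ℝ} {n : ℕ} {w : Fin n → E → ℝ}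
    (hw : ∀ i, Eigf D K (w i)) (a : Fin n → ℝ) : Eigf D K (Wl w a) := by
  change Eigf D K (∑ i, a i • w i)
  exact Finset.sum_induction (fun i => a i • w i) (Eigf D K) (fun _ _ h h' => Eigf.add hD h h')
    Eigf.zero' (fun i _ => Eigf.smul hD (a i) (hw i))

theorem Wl_zero {n : ℕ} {w : Fin n → E → ℝ} (hli : LinearIndependent ℝ w) {a : Fin n → ℝ}
    (h : Wl w a = 0) : a = 0 := by
  funext i
  exact Fintype.linearIndependent_iff.1 hli a h i

/-- plane waves as a linear map -/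
noncomputable def PWl {ι : Type*} [Fintype ι] (ν : ι → E) :
    ((ι → ℝ) × (ι → ℝ)) →ₗ[ℝ] (E → ℝ) where
  toFun z := pw ν z.1 z.2
  map_add' z z' := pw_add ν z.1 z.2 z'.1 z'.2
  map_smul' t z := pw_smul ν t z.1 z.2

/-- the sum of plane waves of the triples -/
noncomputable def Hl {p : ℕ} (ν : Fin p → Fin 3 → E) (α β : Fin p → Fin 3 → ℝ) :
    (Fin p → ℝ) →ₗ[ℝ] (E → ℝ) where
  toFun t := pw (fun s : Fin p × Fin 3 => ν s.1 s.2) (fun s => t s.1 * α s.1 s.2)
    (fun s => t s.1 * β s.1 s.2)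
  map_add' t t' := by
    rw [← pw_add]
    congr 1
    · funext s
      simp only [Pi.add_apply]; ring
    · funext s
      simp only [Pi.add_apply]; ring
  map_smul' a t := by
    rw [RingHom.id_apply, ← pw_smul]
    congr 1
    · funext s
      simp only [Pi.smul_apply, smul_eq_mul]; ring
    · funext s
      simp only [Pi.smul_apply, smul_eq_mul]; ring

theorem Hl_eq {p : ℕ} (ν : Fin p → Fin 3 → E) (α β : Fin p → Fin 3 → ℝ) (t : Fin p → ℝ) :
    Hl ν α β t = ∑ s, t s • pw (ν s) (α s) (β s) := by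
  funext x
  change pw _ _ _ x = _
  unfold pw
  rw [Fintype.sum_prod_type, Finset.sum_apply]
  refine Finset.sum_congr rfl fun s _ => ?_
  simp only [Pi.smul_apply, smul_eq_mul, Finset.mul_sum]
  refine Finset.sum_congr rfl fun i _ => ?_
  ring

/-- spaces of plane waves in the kernel of the Neumann form have bounded dimension -/
theorem ker_bound {D : Set E} {φ : E → ℝ} {k c : ℝ} {u : E → ℝ} (h : Sol D φ k c u)
    (hD : IsOpen D) : ∃ m : ℕ, ∀ V : Submodule ℝ (E → ℝ), Module.Finite ℝ V →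
      (∀ f ∈ V, ∃ (p : ℕ) (ν : Fin p × Fin 3 → E) (α β : Fin p × Fin 3 → ℝ),
        (∀ i, ‖ν i‖ = k) ∧ f = pw ν α β) →
      (∀ f ∈ V, (∀ x ∈ D, f x = 0) → f = 0) → (∀ f ∈ V, BD D (k ^ 2) f f = 0) →
      Module.finrank ℝ V < m := by
  have hb := h.bdd
  have hk := h.kpos
  -- the constants
  obtain ⟨C, δ₀, hC, hδ₀, hstrip⟩ := strip h
  obtain ⟨δ, hδ⟩ : ∃ δ : ℝ, δ = min δ₀ (1 / (2 * C * (1 + k ^ 2))) := ⟨_, rfl⟩
  have hδ0 : 0 < δ := by
    rw [hδ]
    exact lt_min hδ₀ (by positivity)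
  have hδ1 : δ ≤ δ₀ := by rw [hδ]; exact min_le_left _ _
  have hδ2 : C * δ * (1 + k ^ 2) ≤ 1 / 2 := by
    have h1 : δ ≤ 1 / (2 * C * (1 + k ^ 2)) := by rw [hδ]; exact min_le_right _ _
    rw [le_div_iff₀ (by positivity)] at h1
    nlinarith
  obtain ⟨A, hA⟩ : ∃ A : Set E, A = {x | φ x ≤ -δ} := ⟨_, rfl⟩
  have hAc : IsClosed A := by
    rw [hA]; exact isClosed_le h.smooth.continuous continuous_const
  have hAD : A ⊆ D := by
    intro x hx
    rw [h.eqD]
    rw [hA] at hx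
    have : φ x ≤ -δ := hx
    change φ x < 0
    linarith
  have hAk : IsCompact A := Metric.isCompact_of_isClosed_isBounded hAc (hb.subset hAD)
  obtain ⟨ρ, hρ, hρA⟩ := hAk.exists_thickening_subset_open hD hAD
  obtain ⟨C', hC', hmean⟩ := mean hk hρ
  obtain ⟨m, hm⟩ := exists_nat_gt (2 * C' * volume.real D)
  refine ⟨m, fun V hfin hpw hinj hker => ?_⟩
  have hVc : ∀ f ∈ V, ContDiff ℝ 1 f := by
    intro f hf
    obtain ⟨p, ν, α, β, -, rfl⟩ := hpw f hf
    exact pw_contDiff (n := 1) _ _ _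
  have hpos : ∀ f ∈ V, f ≠ 0 → 0 < ∫ x in D, f x ^ 2 := by
    intro f hf hf0
    have h1 : 0 ≤ ∫ x in D, f x ^ 2 := integral_nonneg fun x => sq_nonneg _
    refine lt_of_le_of_ne h1 fun h2 => hf0 ?_
    have hfc : Continuous f := (hVc f hf).continuous
    have hint : IntegrableOn (fun x => f x ^ 2) D := (N1_of_contDiff (hD := hD) hb (hVc f hf)).2.1
    have h3 : (fun x => f x ^ 2) =ᵐ[volume.restrict D] 0 :=
      (integral_eq_zero_iff_of_nonneg (fun x => sq_nonneg _) hint).1 h2.symm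
    have h4 := Measure.eqOn_open_of_ae_eq h3 hD (hfc.pow 2).continuousOn continuousOn_const
    exact hinj f hf fun x hx => (pow_eq_zero_iff two_ne_zero).1 (h4 hx)
  have hmn : ∀ f ∈ V, ∀ x ∈ A, f x ^ 2 ≤ C' * ∫ y in D, f y ^ 2 := by
    intro f hf x hx
    obtain ⟨p, ν, α, β, hν, rfl⟩ := hpw f hf
    refine hmean D hD hb _ _ hν _ _ x ?_
    intro y hy
    refine hρA ?_
    rw [mem_thickening_iff]
    exact ⟨x, hx, mem_ball.1 hy⟩
  have hhalf : ∀ f ∈ V, ∫ x in D, f x ^ 2 ≤ 2 * ∫ x in A, f x ^ 2 := by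
    intro f hf
    have hfm : f ∈ N1 D hD := N1_of_contDiff hb (hVc f hf)
    have h2 := hker f hf
    rw [BD_eq hfm hfm] at h2
    have e1 : ∫ x in D, f x * f x = ∫ x in D, f x ^ 2 :=
      integral_congr_ae (Eventually.of_forall fun x => (sq (f x)).symm)
    rw [e1] at h2
    have h3 := hstrip δ hδ0 hδ1 f (hVc f hf)
    have h4 : ∫ x in D, (f x ^ 2 + gg f f x) = (1 + k ^ 2) * ∫ x in D, f x ^ 2 := by
      rw [integral_add hfm.2.1 hfm.2.2]
      linarith
    rw [h4] at h3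
    have h5 : 0 ≤ ∫ x in D, f x ^ 2 := integral_nonneg fun x => sq_nonneg _
    have h6 : ∫ x in D ∩ {x | -δ < φ x}, f x ^ 2 ≤ 1 / 2 * ∫ x in D, f x ^ 2 := by
      refine h3.trans ?_
      rw [← mul_assoc]
      exact mul_le_mul_of_nonneg_right hδ2 h5
    have h7 : D = (D ∩ {x | -δ < φ x}) ∪ A := by
      ext x
      rw [hA]
      simp only [Set.mem_union, Set.mem_inter_iff, Set.mem_ofPred_eq]
      constructor
      · intro hx
        rcases lt_or_ge (-δ) (φ x) with h8 | h8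
        · exact Or.inl ⟨hx, h8⟩
        · exact Or.inr h8
      · rintro (⟨hx, -⟩ | hx)
        · exact hx
        · exact hAD (by rw [hA]; exact hx)
    have h8 : Disjoint (D ∩ {x | -δ < φ x}) A := by
      rw [Set.disjoint_left, hA]
      rintro x ⟨-, hx⟩ hx'
      have h9 : -δ < φ x := hx
      have h10 : φ x ≤ -δ := hx'
      linarith
    have h9 : ∫ x in D, f x ^ 2 =
        (∫ x in D ∩ {x | -δ < φ x}, f x ^ 2) + ∫ x in A, f x ^ 2 := by
      rw [← setIntegral_union h8 hAc.measurableSet (hfm.2.1.mono_set Set.inter_subset_left)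
        (hfm.2.1.mono_set hAD), ← h7]
    linarith
  have hB := bess hD hb hAc.measurableSet hAD hC' V hfin
    (fun f hf => (hVc f hf).continuous) hpos hmn hhalf
  exact_mod_cast lt_of_le_of_lt hB hm

theorem Hl_inj {D : Set E} (hD : IsOpen D) (hne : D.Nonempty) {p : ℕ} {ν : Fin p → Fin 3 → E}
    {α β : Fin p → Fin 3 → ℝ} (hν3 : ∀ a i b j, (a, i) ≠ (b, j) → ν a i ≠ ν b j)
    (hν4 : ∀ a i b j, ν a i ≠ -ν b j) (hαβ : ∀ s, ¬(α s = 0 ∧ β s = 0)) (t : Fin p → ℝ)
    (ht : ∀ x ∈ D, Hl ν α β t x = 0) : t = 0 := by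
  obtain ⟨h1, h2⟩ := pw_indep (fun s : Fin p × Fin 3 => ν s.1 s.2)
    (fun i j hij => hν3 i.1 i.2 j.1 j.2 hij) (fun i j => hν4 i.1 i.2 j.1 j.2)
    (fun s => t s.1 * α s.1 s.2) (fun s => t s.1 * β s.1 s.2) hD hne ht
  funext s
  by_contra hts
  refine hαβ s ⟨?_, ?_⟩
  · funext i
    exact (mul_eq_zero.1 (congrFun h1 (s, i))).resolve_left hts
  · funext i
    exact (mul_eq_zero.1 (congrFun h2 (s, i))).resolve_left hts

/-- the coefficient map -/
noncomputable def Ll {p n : ℕ} (a : Fin p → Fin n → ℝ) : (Fin p → ℝ) →ₗ[ℝ] (Fin n → ℝ) where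
  toFun t := ∑ s, t s • a s
  map_add' t t' := by
    simp only [Pi.add_apply, add_smul, Finset.sum_add_distrib]
  map_smul' r t := by
    simp only [Pi.smul_apply, smul_eq_mul, mul_smul, Finset.smul_sum, RingHom.id_apply]

theorem Hl_ker {D : Set E} {hD : IsOpen D} {K : ℝ} {n p : ℕ} {w : Fin n → E → ℝ}
    {ν : Fin p → Fin 3 → E} {a : Fin p → Fin n → ℝ} {α β : Fin p → Fin 3 → ℝ}
    (hm : ∀ s, Wl w (a s) + pw (ν s) (α s) (β s) ∈ N1 D hD)
    (hker : ∀ s, ∀ g ∈ N1 D hD, BD D K (Wl w (a s) + pw (ν s) (α s) (β s)) g = 0)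
    {t : Fin p → ℝ} (ht : Ll a t = 0) {g : E → ℝ} (hg : g ∈ N1 D hD) :
    BD D K (Hl ν α β t) g = 0 := by
  have h1 : Hl ν α β t = ∑ s, t s • (Wl w (a s) + pw (ν s) (α s) (β s)) := by
    have h2 : ∑ s, t s • Wl w (a s) = 0 := by
      have h3 : ∑ s, t s • a s = 0 := ht
      have h4 := congrArg (Wl w) h3
      rw [map_zero, map_sum] at h4
      rw [← h4]
      exact Finset.sum_congr rfl fun s _ => (map_smul _ _ _).symm
    simp only [smul_add, Finset.sum_add_distrib]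
    rw [h2, zero_add]
    exact Hl_eq ν α β t
  rw [h1]
  have h2 : ∀ S : Finset (Fin p),
      (∑ s ∈ S, t s • (Wl w (a s) + pw (ν s) (α s) (β s))) ∈ N1 D hD ∧
      BD D K (∑ s ∈ S, t s • (Wl w (a s) + pw (ν s) (α s) (β s))) g = 0 := by
    classical
    intro S
    induction S using Finset.induction_on with
    | empty =>
      refine ⟨by simp, ?_⟩
      have := BD_smul_left (hD := hD) (h := g) 0 (zero_mem (N1 D hD)) K
      simpa using this
    | insert s S hs ih =>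
      have h3 : t s • (Wl w (a s) + pw (ν s) (α s) (β s)) ∈ N1 D hD :=
        Submodule.smul_mem _ _ (hm s)
      rw [Finset.sum_insert hs]
      refine ⟨add_mem h3 ih.1, ?_⟩
      rw [BD_add_left h3 ih.1 hg, BD_smul_left _ (hm s), hker s g hg, ih.2]
      ring
  exact (h2 Finset.univ).2

theorem choice {D : Set E} {φ : E → ℝ} {k c : ℝ} {u : E → ℝ} (h : Sol D φ k c u) (hD : IsOpen D)
    {n : ℕ} (w : Fin n → E → ℝ) (hw : ∀ i, Eigf D (k ^ 2) (w i)) (hli : LinearIndependent ℝ w) :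
    ∃ ν : Fin 3 → E, (∀ i, ‖ν i‖ = k) ∧ (∀ i j, i ≠ j → ‖ν i - ν j‖ = k) ∧
      ∀ (a : Fin n → ℝ) (α β : Fin 3 → ℝ),
        (∀ g ∈ N1 D hD, BD D (k ^ 2) (Wl w a + pw ν α β) g = 0) → a = 0 ∧ α = 0 ∧ β = 0 := by
  have hb := h.bdd
  have hk := h.kpos
  have hK : (0 : ℝ) < k ^ 2 := by positivity
  have hne : D.Nonempty := h.conn.nonempty
  by_contra hcon
  push Not at hcon
  obtain ⟨m, hm⟩ := ker_bound h hD
  obtain ⟨ν, hν1, hν2, hν3, hν4⟩ := rots hk (n + m)
  have hex : ∀ s : Fin (n + m), ∃ (a : Fin n → ℝ) (α β : Fin 3 → ℝ),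
      (∀ g ∈ N1 D hD, BD D (k ^ 2) (Wl w a + pw (ν s) α β) g = 0) ∧
        ¬(a = 0 ∧ α = 0 ∧ β = 0) := by
    intro s
    obtain ⟨a, α, β, h1, h2⟩ := hcon (ν s) (hν1 s) (hν2 s)
    exact ⟨a, α, β, h1, fun h3 => h2 h3.1 h3.2.1 h3.2.2⟩
  choose a α β hker hnz using hex
  have hmem : ∀ s, Wl w (a s) + pw (ν s) (α s) (β s) ∈ N1 D hD := fun s =>
    add_mem (eig_mem hD hb hK (Wl_eigf hD hw _)) (N1_of_contDiff hb (pw_contDiff (n := 1) _ _ _))
  -- the plane wave part does not vanish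
  have hαβ : ∀ s, ¬(α s = 0 ∧ β s = 0) := by
    rintro s ⟨h1, h2⟩
    have h3 : pw (ν s) (α s) (β s) = 0 := by
      rw [h1, h2]
      exact (PWl (ν s)).map_zero
    have h4 : Wl w (a s) = 0 := by
      refine eig_neumann hD hb hK (Wl_eigf hD hw _) fun g hg => ?_
      have h5 := hker s g (N1_of_contDiff hb (hg.of_le (by simp)))
      rwa [h3, add_zero] at h5
    exact hnz s ⟨Wl_zero hli h4, h1, h2⟩
  have hHinj : ∀ t, (∀ x ∈ D, Hl ν α β t x = 0) → t = 0 := fun t =>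
    Hl_inj hD hne hν3 hν4 hαβ t
  have hHi : Function.Injective (Hl ν α β) := by
    rw [← LinearMap.ker_eq_bot, LinearMap.ker_eq_bot']
    intro t ht
    exact hHinj t fun x _ => by rw [ht]; rfl
  have hfr : m ≤ Module.finrank ℝ ((LinearMap.ker (Ll a)).map (Hl ν α β)) := by
    have h1 : Module.finrank ℝ ((LinearMap.ker (Ll a)).map (Hl ν α β)) =
        Module.finrank ℝ (LinearMap.ker (Ll a)) :=
      (Submodule.equivMapOfInjective (Hl ν α β) hHi (LinearMap.ker (Ll a))).finrank_eq.symm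
    have h2 := LinearMap.finrank_range_add_finrank_ker (Ll a)
    have h3 : Module.finrank ℝ (LinearMap.range (Ll a)) ≤ n := by
      have := Submodule.finrank_le (LinearMap.range (Ll a))
      rwa [Module.finrank_fin_fun] at this
    rw [Module.finrank_fin_fun] at h2
    omega
  refine absurd (hm ((LinearMap.ker (Ll a)).map (Hl ν α β)) inferInstance ?_ ?_ ?_)
    (not_lt.2 hfr)
  · rintro f ⟨t, -, rfl⟩
    exact ⟨n + m, _, _, _, fun s => hν1 s.1 s.2, rfl⟩
  · rintro f ⟨t, -, rfl⟩ h1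
    rw [hHinj t h1, map_zero]
  · rintro f ⟨t, ht, rfl⟩
    exact Hl_ker hmem hker ht (N1_of_contDiff hb (pw_contDiff (n := 1) _ _ _))

end Pool.Agent.H68.SN
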