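import Mathlib

/-!
# Counting Neumann and Dirichlet eigenvalues (definitions for MP_f4af34_an)
-/

set_option autoImplicit false

namespace Pool.Agent.H68.SN

open MeasureTheory

/-- At least `m` Neumann eigenvalues of `-Δ` on `D` (with multiplicity, the eigenvalue `0` included)
are smaller than `K`: there is a space of dimension at least `m` of functions of class `C¹` in `D`,
square integrable together with their gradient, with `∫_D |∇ f|² < K ∫_D f²` for all `f ≠ 0` in it. -/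
def NeumannBelow (D : Set (EuclideanSpace ℝ (Fin 3))) (K : ℝ) (m : ℕ) : Prop :=
  ∃ F : Submodule ℝ (EuclideanSpace ℝ (Fin 3) → ℝ), Module.Finite ℝ F ∧
    m ≤ Module.finrank ℝ F ∧ ∀ f ∈ F, ContDiffOn ℝ 1 f D ∧
      IntegrableOn (fun x => f x ^ 2) D ∧ IntegrableOn (fun x => ‖fderiv ℝ f x‖ ^ 2) D ∧
      (f ≠ 0 → ∫ x in D, ‖fderiv ℝ f x‖ ^ 2 < K * ∫ x in D, f x ^ 2)

/-- At least `m` Dirichlet eigenvalues of `-Δ` on `D` (with multiplicity) are smaller than `K`:
there is a space of dimension at least `m` of functions of class `C¹` with compact support in `D`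
with `∫ |∇ f|² < K ∫ f²` for all `f ≠ 0` in it. -/
def DirichletBelow (D : Set (EuclideanSpace ℝ (Fin 3))) (K : ℝ) (m : ℕ) : Prop :=
  ∃ F : Submodule ℝ (EuclideanSpace ℝ (Fin 3) → ℝ), Module.Finite ℝ F ∧
    m ≤ Module.finrank ℝ F ∧ ∀ f ∈ F, ContDiff ℝ 1 f ∧ HasCompactSupport f ∧ tsupport f ⊆ D ∧
      (f ≠ 0 → ∫ x, ‖fderiv ℝ f x‖ ^ 2 < K * ∫ x, f x ^ 2)

end Pool.Agent.H68.SN
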