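import Pool.Agent.H68.SC.Quad
import Pool.Agent.H68.SC.Eig
import Pool.Agent.H68.SN.Stmt

/-!
# Neumann eigenvalues and Schiffer's problem (MP_f4af34_an, helper68): definitions

THEOREM. If `D` is a solution domain which is not a ball and at least `m` Dirichlet eigenvalues of
`D` are smaller than `k²`, then at least `max m 2 + 8` Neumann eigenvalues of `D` are smaller than
`k²`. In particular `k² ≤ μ_10(D)` only for the ball (where `k² = μ_10`).

PROOF. The Fourier transform of the indicator function of `D` vanishes on the sphere of radius `k`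
(module Fou). Take `ω_1, ω_2, ω_3` of length `k` and pairwise distance `k`: the plane waves
`exp (i ω_j · x)` span a complex space on which the Neumann form `∫_D ∇f·∇g - k² f g` vanishes, so
(module PWJ, Half) there are three real dimensions on which it is `≤ 0`. They are orthogonal to
`H¹₀(D)`, so they add to the Dirichlet eigenfunctions: the Killing derivatives of `u` (five or six)
and the functions of negative form. Nothing of this space lies in the kernel of the Neumann form if
the triple `ω` is well chosen (module Choice), so it can be perturbed to a space of the same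
dimension on which the form is negative (module Pert).
-/

set_option autoImplicit false

namespace Pool.Agent.H68.SN

open Filter Topology MeasureTheory Metric
open scoped ContDiff
open Pool.Agent.H68.SC

noncomputable section

theorem cd_diff {D : Set E} (hD : IsOpen D) {f : E → ℝ} (hf : ContDiffOn ℝ 1 f D) {x : E}
    (hx : x ∈ D) : DifferentiableAt ℝ f x :=
  ((hf x hx).contDiffAt (hD.mem_nhds hx)).differentiableAt one_ne_zero

theorem cd_pd {D : Set E} (hD : IsOpen D) {f : E → ℝ} (hf : ContDiffOn ℝ 1 f D) (i : Fin 3) :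
    ContinuousOn (pd f i) D :=
  (hf.continuousOn_fderiv_of_isOpen hD le_rfl).clm_apply continuousOn_const

theorem cd_gg {D : Set E} (hD : IsOpen D) {f g : E → ℝ} (hf : ContDiffOn ℝ 1 f D)
    (hg : ContDiffOn ℝ 1 g D) : ContinuousOn (gg f g) D :=
  continuousOn_finsetSum _ fun i _ => (cd_pd hD hf i).mul (cd_pd hD hg i)

theorem gg_add_self_le {D : Set E} (hD : IsOpen D) {f g : E → ℝ} (hf : ContDiffOn ℝ 1 f D)
    (hg : ContDiffOn ℝ 1 g D) {x : E} (hx : x ∈ D) :
    gg (f + g) (f + g) x ≤ 2 * gg f f x + 2 * gg g g x := by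
  have h1 : ∀ i, pd (f + g) i x = pd f i x + pd g i x := fun i =>
    pd_add (cd_diff hD hf hx) (cd_diff hD hg hx) i
  unfold gg
  rw [Finset.mul_sum, Finset.mul_sum, ← Finset.sum_add_distrib]
  refine Finset.sum_le_sum fun i _ => ?_
  rw [h1 i]
  nlinarith [sq_nonneg (pd f i x - pd g i x)]

/-- The test functions of the Neumann problem of `D`: of class `C¹` on `D` and square integrable
together with their gradient. -/
def N1 (D : Set E) (hD : IsOpen D) : Submodule ℝ (E → ℝ) where
  carrier := {f | ContDiffOn ℝ 1 f D ∧ IntegrableOn (fun x => f x ^ 2) D ∧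
    IntegrableOn (gg f f) D}
  add_mem' := by
    rintro f g ⟨h1, h2, h3⟩ ⟨h4, h5, h6⟩
    have hfg : ContDiffOn ℝ 1 (f + g) D := h1.add h4
    refine ⟨hfg, ?_, ?_⟩
    · refine Integrable.mono' ((h2.const_mul 2).add (h5.const_mul 2)) ?_ ?_
      · exact (ContinuousOn.pow hfg.continuousOn 2).aestronglyMeasurable hD.measurableSet
      · refine Eventually.of_forall fun x => ?_
        simp only [Pi.add_apply, Real.norm_eq_abs, abs_pow, sq_abs]
        nlinarith [sq_nonneg (f x - g x)]
    · refine Integrable.mono' ((h3.const_mul 2).add (h6.const_mul 2)) ?_ ?_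
      · exact (cd_gg hD hfg hfg).aestronglyMeasurable hD.measurableSet
      · refine (ae_restrict_iff' hD.measurableSet).2 (Eventually.of_forall fun x hx => ?_)
        rw [Real.norm_of_nonneg (gg_nonneg _ _)]
        exact gg_add_self_le hD h1 h4 hx
  zero_mem' := by
    have hz : gg (0 : E → ℝ) 0 = fun _ => 0 := by
      funext x
      simp [gg, pd]
    refine ⟨contDiffOn_const, ?_, ?_⟩
    · simp
    · rw [hz]
      simp
  smul_mem' := by
    rintro a f ⟨h1, h2, h3⟩
    refine ⟨contDiffOn_const.smul h1, ?_, ?_⟩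
    · have : (fun x => (a • f) x ^ 2) = fun x => a ^ 2 * f x ^ 2 := by
        funext x
        simp only [Pi.smul_apply, smul_eq_mul]
        ring
      rw [this]
      exact h2.const_mul _
    · refine (h3.const_mul (a ^ 2)).congr ?_
      refine (ae_restrict_iff' hD.measurableSet).2 (Eventually.of_forall fun x hx => ?_)
      change a ^ 2 * gg f f x = gg (a • f) (a • f) x
      unfold gg
      rw [Finset.mul_sum]
      refine Finset.sum_congr rfl fun i _ => ?_
      have : pd (a • f) i x = a * pd f i x := pd_const_mul a (cd_diff hD h1 hx) i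
      rw [this]
      ring

/-- the Neumann form `∫_D ∇ f · ∇ g - K f g` -/
def BD (D : Set E) (K : ℝ) (f g : E → ℝ) : ℝ := ∫ x in D, (gg f g x - K * (f x * g x))

/-- real combinations of the plane waves with frequencies `ν i` -/
def pw {ι : Type*} [Fintype ι] (ν : ι → E) (α β : ι → ℝ) (x : E) : ℝ :=
  ∑ i, (α i * Real.cos (inner ℝ (ν i) x) + β i * Real.sin (inner ℝ (ν i) x))

/-! ### the space of test functions -/

variable {D : Set E} {hD : IsOpen D}

theorem N1.cd {f : E → ℝ} (h : f ∈ N1 D hD) : ContDiffOn ℝ 1 f D := h.1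

theorem N1.int_mul {f g : E → ℝ} (hf : f ∈ N1 D hD) (hg : g ∈ N1 D hD) :
    IntegrableOn (fun x => f x * g x) D := by
  refine Integrable.mono' ((hf.2.1.add hg.2.1)) ?_ ?_
  · exact (hf.1.continuousOn.mul hg.1.continuousOn).aestronglyMeasurable hD.measurableSet
  · refine Eventually.of_forall fun x => ?_
    simp only [Pi.add_apply, Real.norm_eq_abs]
    rw [abs_le]
    constructor <;> nlinarith [sq_nonneg (f x + g x), sq_nonneg (f x - g x), sq_nonneg (f x),
      sq_nonneg (g x)]

theorem N1.int_gg {f g : E → ℝ} (hf : f ∈ N1 D hD) (hg : g ∈ N1 D hD) :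
    IntegrableOn (gg f g) D := by
  refine Integrable.mono' ((hf.2.2.add hg.2.2)) ?_ ?_
  · exact (cd_gg hD hf.1 hg.1).aestronglyMeasurable hD.measurableSet
  · refine Eventually.of_forall fun x => ?_
    simp only [Pi.add_apply, Real.norm_eq_abs]
    rw [abs_le]
    have h1 := gg_sq_le f g x
    have h2 := gg_nonneg f x
    have h3 := gg_nonneg g x
    constructor <;> nlinarith [sq_nonneg (gg f f x - gg g g x)]

theorem BD_eq {f g : E → ℝ} (hf : f ∈ N1 D hD) (hg : g ∈ N1 D hD) (K : ℝ) :
    BD D K f g = (∫ x in D, gg f g x) - K * ∫ x in D, f x * g x := by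
  unfold BD
  rw [integral_sub (N1.int_gg hf hg) ((N1.int_mul hf hg).const_mul K), integral_const_mul]

theorem BD_comm (K : ℝ) (f g : E → ℝ) : BD D K f g = BD D K g f := by
  unfold BD
  congr 1
  funext x
  rw [gg_comm, mul_comm (f x)]

theorem BD_add_left {f g h : E → ℝ} (hf : f ∈ N1 D hD) (hg : g ∈ N1 D hD) (hh : h ∈ N1 D hD)
    (K : ℝ) : BD D K (f + g) h = BD D K f h + BD D K g h := by
  unfold BD
  rw [← integral_add]
  · refine setIntegral_congr_fun hD.measurableSet fun x hx => ?_
    rw [gg_add_left (cd_diff hD hf.1 hx) (cd_diff hD hg.1 hx)]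
    simp only [Pi.add_apply]
    ring
  · exact (N1.int_gg hf hh).sub ((N1.int_mul hf hh).const_mul K)
  · exact (N1.int_gg hg hh).sub ((N1.int_mul hg hh).const_mul K)

theorem BD_smul_left {f h : E → ℝ} (a : ℝ) (hf : f ∈ N1 D hD) (K : ℝ) :
    BD D K (a • f) h = a * BD D K f h := by
  unfold BD
  rw [← integral_const_mul]
  refine setIntegral_congr_fun hD.measurableSet fun x hx => ?_
  rw [gg_smul_left a (cd_diff hD hf.1 hx)]
  simp only [Pi.smul_apply, smul_eq_mul]
  ring

/-- the Neumann form as a bilinear form on the test functions -/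
def BF (D : Set E) (hD : IsOpen D) (K : ℝ) : LinearMap.BilinForm ℝ (N1 D hD) :=
  LinearMap.mk₂ ℝ (fun f g => BD D K (f : E → ℝ) g)
    (by
      intro f g h
      exact BD_add_left f.2 g.2 h.2 K)
    (by
      intro a f h
      exact BD_smul_left a f.2 K)
    (by
      intro h f g
      rw [BD_comm, BD_comm K (h : E → ℝ) f, BD_comm K (h : E → ℝ) g]
      exact BD_add_left f.2 g.2 h.2 K)
    (by
      intro a h f
      rw [BD_comm, BD_comm K (h : E → ℝ) f]
      exact BD_smul_left a f.2 K)

theorem BF_apply (K : ℝ) (f g : N1 D hD) : BF D hD K f g = BD D K (f : E → ℝ) g := rfl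

theorem N1_of_contDiff (hb : Bornology.IsBounded D) {f : E → ℝ} (hf : ContDiff ℝ 1 f) :
    f ∈ N1 D hD := by
  have hc : ∀ g : E → ℝ, Continuous g → IntegrableOn g D := fun g hg =>
    (hg.continuousOn.integrableOn_compact hb.isCompact_closure).mono_set subset_closure
  exact ⟨hf.contDiffOn, hc _ (hf.continuous.pow 2), hc _ (continuous_gg hf hf)⟩

theorem C1c_le_N1 (hb : Bornology.IsBounded D) {f : E → ℝ} (hf : f ∈ C1c D) : f ∈ N1 D hD :=
  N1_of_contDiff hb (C1c.contDiff hf)

/-- for functions supported in `D` the two forms agree -/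
theorem BD_eq_BB {f g : E → ℝ} (hf : f ∈ C1c D) (K : ℝ) : BD D K f g = BB K f g := by
  unfold BD BB
  refine setIntegral_eq_integral_of_forall_compl_eq_zero fun x hx => ?_
  have h1 : x ∉ tsupport f := fun h => hx (C1c.sub hf h)
  have h2 : f x = 0 := image_eq_zero_of_notMem_tsupport h1
  have h3 : gg f g x = 0 := Finset.sum_eq_zero fun i _ => by rw [pd_zero_of h1 i, zero_mul]
  rw [h2, h3]
  ring

/-! ### plane waves -/

section PW

variable {ι : Type*} [Fintype ι]

theorem pw_contDiff (ν : ι → E) (α β : ι → ℝ) {n : ℕ∞} : ContDiff ℝ n (pw ν α β) := by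
  unfold pw
  refine ContDiff.sum fun i _ => ?_
  have h1 : ContDiff ℝ n (fun x : E => inner ℝ (ν i) x) := contDiff_const.inner ℝ contDiff_id
  exact (contDiff_const.mul (Real.contDiff_cos.comp h1)).add
    (contDiff_const.mul (Real.contDiff_sin.comp h1))

theorem pw_add (ν : ι → E) (α β α' β' : ι → ℝ) :
    pw ν (α + α') (β + β') = pw ν α β + pw ν α' β' := by
  funext x
  simp only [pw, Pi.add_apply, ← Finset.sum_add_distrib]
  refine Finset.sum_congr rfl fun i _ => ?_
  ring

theorem pw_smul (ν : ι → E) (a : ℝ) (α β : ι → ℝ) : pw ν (a • α) (a • β) = a • pw ν α β := by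
  funext x
  simp only [pw, Pi.smul_apply, smul_eq_mul, Finset.mul_sum]
  refine Finset.sum_congr rfl fun i _ => ?_
  ring

theorem hasFDerivAt_inner (v x : E) :
    HasFDerivAt (fun y : E => inner ℝ v y) (innerSL ℝ v) x :=
  (innerSL ℝ v).hasFDerivAt

theorem pd_pw (ν : ι → E) (α β : ι → ℝ) (j : Fin 3) :
    pd (pw ν α β) j = pw ν (fun i => ν i j * β i) (fun i => -(ν i j * α i)) := by
  funext x
  have h1 : ∀ i, HasFDerivAt (fun x : E => α i * Real.cos (inner ℝ (ν i) x) +
      β i * Real.sin (inner ℝ (ν i) x))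
      (α i • (-Real.sin (inner ℝ (ν i) x) • innerSL ℝ (ν i)) +
        β i • (Real.cos (inner ℝ (ν i) x) • innerSL ℝ (ν i))) x := by
    intro i
    have h2 := hasFDerivAt_inner (ν i) x
    exact (h2.cos.const_mul (α i)).add (h2.sin.const_mul (β i))
  have h3 : HasFDerivAt (pw ν α β) (∑ i, (α i • (-Real.sin (inner ℝ (ν i) x) • innerSL ℝ (ν i)) +
        β i • (Real.cos (inner ℝ (ν i) x) • innerSL ℝ (ν i)))) x := by
    unfold pw
    exact HasFDerivAt.fun_sum fun i _ => h1 i
  unfold pd
  rw [h3.fderiv]
  unfold pw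
  simp only [sum_apply, add_apply, smul_apply, smul_eq_mul, innerSL_apply_apply]
  refine Finset.sum_congr rfl fun i _ => ?_
  have h4 : inner ℝ (ν i) (ee j) = ν i j := by
    rw [EuclideanSpace.inner_single_right]
    simp
  rw [h4]
  ring

/-- plane waves are solutions of the Helmholtz equation -/
theorem pw_helm (ν : ι → E) (α β : ι → ℝ) {k : ℝ} (h : ∀ i, ‖ν i‖ = k) (x : E) :
    (∑ j, pd (pd (pw ν α β) j) j x) + k ^ 2 * pw ν α β x = 0 := by
  have h1 : ∀ j, pd (pd (pw ν α β) j) j x =
      ∑ i, -(ν i j ^ 2) * (α i * Real.cos (inner ℝ (ν i) x) +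
        β i * Real.sin (inner ℝ (ν i) x)) := by
    intro j
    rw [pd_pw, pd_pw]
    unfold pw
    refine Finset.sum_congr rfl fun i _ => ?_
    ring
  have h2 : ∀ i, ∑ j : Fin 3, ν i j ^ 2 = k ^ 2 := by
    intro i
    rw [← h i, EuclideanSpace.norm_sq_eq]
    exact Finset.sum_congr rfl fun j _ => by rw [Real.norm_eq_abs, sq_abs]
  rw [Finset.sum_congr rfl fun j _ => h1 j, Finset.sum_comm]
  unfold pw
  rw [Finset.mul_sum, ← Finset.sum_add_distrib]
  refine Finset.sum_eq_zero fun i _ => ?_
  rw [← Finset.sum_mul, Finset.sum_neg_distrib, h2 i]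
  ring

end PW

end

end Pool.Agent.H68.SN
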