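import Pool.Agent.H68.SN.Ener
import Pool.Agent.H68.SC.Quad

/-!
# Module EigIbp (about 100 lines): integration by parts with a weak eigenfunction

PROOF. `χ` = the functions of `cut` (H68/SC/Cut.lean) with `ε → 0`, `K₀` exhausting `D`, for the one or two
eigenfunctions. `eig_ibp`: `χ w ∈ C1c D` (`mul_mem`), so `∫ gg (χ w) g = - ∫ χ w Δg` (`ibp` with
`f = pd g i`), `gg (χ w) g = χ gg w g + w gg χ g`, `|∫ w gg χ g| ≤ (∫ w² gg χ χ)^(1/2) (∫_D gg g g)^(1/2) → 0`
(or `≤ t ∫ w² gg χ χ + (1/t) ∫_D gg g g`), and `∫ χ gg w g → ∫_D gg w g` (dominated convergence or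
`|∫_{D \ K₀} ..|` small, `gg w g` is integrable on `D` by `eig_mem`). `eig_eig`: the weak equation of `w`
with `ψ = χ w'`, in the same way.
-/

set_option autoImplicit false

namespace Pool.Agent.H68.SN

open Filter Topology MeasureTheory Metric
open scoped ContDiff
open Pool.Agent.H68.SC

/-- A sequence of cutoff functions. -/
private structure CutSeq (D : Set E) (w : E → ℝ) (χ : ℕ → E → ℝ) : Prop where
  mem : ∀ m, χ m ∈ C1c D
  bd : ∀ m x, 0 ≤ χ m x ∧ χ m x ≤ 1
  one : ∀ x ∈ D, ∀ᶠ m in atTop, χ m x = 1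
  en : ∀ m : ℕ, ∫ x, w x ^ 2 * gg (χ m) (χ m) x ≤ (1 / ((m : ℝ) + 1)) ^ 2

private theorem exists_cutSeq {D : Set E} (hD : IsOpen D) (hb : Bornology.IsBounded D) {K : ℝ}
    (hK : 0 < K) {w : E → ℝ} (h : Eigf D K w) : ∃ χ, CutSeq D w χ := by
  obtain ⟨F, hF1, hF2, hF3, hF4⟩ := hD.exists_iUnion_isClosed
  have hc : ∀ m, IsCompact (F m) := fun m =>
    Metric.isCompact_of_isClosed_isBounded (hF1 m) (hb.subset (hF2 m))
  have hcut : ∀ m : ℕ, ∃ χ ∈ C1c D, (∀ x, 0 ≤ χ x ∧ χ x ≤ 1) ∧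
      (∀ x ∈ F m, ∀ᶠ y in 𝓝 x, χ y = 1) ∧
      ∫ x, (∑ _i : Fin 1, w x ^ 2) * gg χ χ x ≤ (1 / ((m : ℝ) + 1)) ^ 2 ∧
      ∀ x, (1 - χ x) ^ 2 * ∑ _i : Fin 1, w x ^ 2 ≤ (1 / ((m : ℝ) + 1)) ^ 2 := fun m =>
    cut hD hb hK (fun _ : Fin 1 => w) (fun _ => h) (hc m) (hF2 m) (by positivity)
  choose χ h1 h2 h3 h4 _ using hcut
  refine ⟨χ, h1, h2, fun x hx => ?_, fun m => ?_⟩
  · rw [← hF3] at hx
    obtain ⟨m, hm⟩ := Set.mem_iUnion.1 hx
    filter_upwards [eventually_ge_atTop m] with k hk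
    exact (h3 k x (hF4 hk hm)).self_of_nhds
  · simpa using h4 m

private theorem lim1 {D : Set E} {w : E → ℝ} {χ : ℕ → E → ℝ} (hD : IsOpen D) (hχ : CutSeq D w χ)
    {F : E → ℝ} (hF : IntegrableOn F D) :
    Tendsto (fun m => ∫ x in D, χ m x * F x) atTop (𝓝 (∫ x in D, F x)) := by
  refine tendsto_integral_of_dominated_convergence (fun x => |F x|) ?_ hF.abs ?_ ?_
  · intro m
    exact ((C1c.cont (hχ.mem m)).aestronglyMeasurable).mul hF.aestronglyMeasurable
  · intro m
    refine Eventually.of_forall fun x => ?_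
    rw [Real.norm_eq_abs, abs_mul, abs_of_nonneg (hχ.bd m x).1]
    have := mul_le_mul_of_nonneg_right (hχ.bd m x).2 (abs_nonneg (F x))
    linarith
  · refine (ae_restrict_iff' hD.measurableSet).2 (Eventually.of_forall fun x hx => ?_)
    refine tendsto_const_nhds.congr' ?_
    filter_upwards [hχ.one x hx] with m hm
    rw [hm, one_mul]

private theorem int1 {D : Set E} {w : E → ℝ} {χ : ℕ → E → ℝ} (hχ : CutSeq D w χ)
    {F : E → ℝ} (hF : IntegrableOn F D) (m : ℕ) : IntegrableOn (fun x => χ m x * F x) D := by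
  refine Integrable.mono' hF.abs
    (((C1c.cont (hχ.mem m)).aestronglyMeasurable).mul hF.aestronglyMeasurable) ?_
  refine Eventually.of_forall fun x => ?_
  rw [Real.norm_eq_abs, abs_mul, abs_of_nonneg (hχ.bd m x).1]
  have := mul_le_mul_of_nonneg_right (hχ.bd m x).2 (abs_nonneg (F x))
  linarith

private theorem pt {w : E → ℝ} {f χ : E → ℝ} {t : ℝ} (ht : 0 < t) (x : E) :
    |w x * gg f χ x| ≤ t * (w x ^ 2 * gg χ χ x) + (1 / t) * gg f f x := by
  have h1 := gg_sq_le f χ x
  have h2 := gg_nonneg f x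
  have h3 := gg_nonneg χ x
  have h4 : (w x * gg f χ x) ^ 2 ≤ (t * (w x ^ 2 * gg χ χ x)) * ((1 / t) * gg f f x) := by
    have e : (t * (w x ^ 2 * gg χ χ x)) * ((1 / t) * gg f f x) =
        w x ^ 2 * (gg f f x * gg χ χ x) := by
      field_simp
    rw [e, mul_pow]
    exact mul_le_mul_of_nonneg_left h1 (sq_nonneg _)
  set A := t * (w x ^ 2 * gg χ χ x) with hA
  set B := (1 / t) * gg f f x with hB
  have hA0 : 0 ≤ A := by positivity
  have hB0 : 0 ≤ B := by positivity
  refine abs_le_of_sq_le_sq ?_ (by linarith)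
  nlinarith [mul_nonneg hA0 hB0]

private theorem intw {D : Set E} {w : E → ℝ} {χ : ℕ → E → ℝ} (hχ : CutSeq D w χ)
    (hw : Continuous w) (m : ℕ) : Integrable (fun x => w x ^ 2 * gg (χ m) (χ m) x) := by
  have h1 := C1c.contDiff (hχ.mem m)
  refine integrable_cc ((hw.pow 2).mul (continuous_gg h1 h1)) ?_
  exact HasCompactSupport.mul_left (hasCompactSupport_gg (C1c.compact (hχ.mem m)) _)

private theorem int0 {D : Set E} (hD : IsOpen D) {w : E → ℝ} {χ : ℕ → E → ℝ} (hχ : CutSeq D w χ)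
    (hw : Continuous w) {f : E → ℝ} (hf : f ∈ N1 D hD) (m : ℕ) :
    IntegrableOn (fun x => w x * gg f (χ m) x) D := by
  have h1 := C1c.contDiff (hχ.mem m)
  refine Integrable.mono' (((intw hχ hw m).integrableOn.const_mul 1).add
    (hf.2.2.const_mul (1 / 1))) ?_ ?_
  · exact (hw.continuousOn.mul (cd_gg hD hf.1 h1.contDiffOn)).aestronglyMeasurable
      hD.measurableSet
  · exact Eventually.of_forall fun x => pt one_pos x

private theorem lim0 {D : Set E} (hD : IsOpen D) {w : E → ℝ} {χ : ℕ → E → ℝ} (hχ : CutSeq D w χ)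
    (hw : Continuous w) {f : E → ℝ} (hf : f ∈ N1 D hD) :
    Tendsto (fun m => ∫ x in D, w x * gg f (χ m) x) atTop (𝓝 0) := by
  have hbd : ∀ m : ℕ, ‖∫ x in D, w x * gg f (χ m) x‖ ≤
      1 / ((m : ℝ) + 1) * (1 + ∫ x in D, gg f f x) := by
    intro m
    have ht : (0 : ℝ) < (m : ℝ) + 1 := by positivity
    have hI1 : IntegrableOn (fun x => ((m : ℝ) + 1) * (w x ^ 2 * gg (χ m) (χ m) x)) D :=
      (intw hχ hw m).integrableOn.const_mul _
    have hI2 : IntegrableOn (fun x => 1 / ((m : ℝ) + 1) * gg f f x) D := hf.2.2.const_mul _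
    have h1 := norm_integral_le_of_norm_le (μ := volume.restrict D)
      (f := fun x => w x * gg f (χ m) x) (hI1.add hI2)
      (Eventually.of_forall fun x => pt ht x)
    simp only [Pi.add_apply] at h1
    rw [integral_add hI1 hI2, integral_const_mul, integral_const_mul] at h1
    have h2 : ∫ x in D, w x ^ 2 * gg (χ m) (χ m) x ≤ (1 / ((m : ℝ) + 1)) ^ 2 := by
      refine le_trans ?_ (hχ.en m)
      exact setIntegral_le_integral (intw hχ hw m)
        (Eventually.of_forall fun x => mul_nonneg (sq_nonneg _) (gg_nonneg _ _))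
    have h3 : ((m : ℝ) + 1) * ∫ x in D, w x ^ 2 * gg (χ m) (χ m) x ≤ 1 / ((m : ℝ) + 1) := by
      calc ((m : ℝ) + 1) * ∫ x in D, w x ^ 2 * gg (χ m) (χ m) x
          ≤ ((m : ℝ) + 1) * (1 / ((m : ℝ) + 1)) ^ 2 := mul_le_mul_of_nonneg_left h2 ht.le
        _ = 1 / ((m : ℝ) + 1) := by field_simp
    calc ‖∫ x in D, w x * gg f (χ m) x‖ ≤ _ := h1
      _ ≤ 1 / ((m : ℝ) + 1) + 1 / ((m : ℝ) + 1) * ∫ x in D, gg f f x := by linarith
      _ = _ := by ring
  refine squeeze_zero_norm hbd ?_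
  have h2 := (tendsto_one_div_add_atTop_nhds_zero_nat (𝕜 := ℝ)).mul_const
    (1 + ∫ x in D, gg f f x)
  simpa using h2

theorem eig_ibp {D : Set E} (hD : IsOpen D) (hb : Bornology.IsBounded D) {K : ℝ} (hK : 0 < K)
    {w : E → ℝ} (h : Eigf D K w) {g : E → ℝ} (hg : ContDiff ℝ 2 g) :
    ∫ x in D, gg w g x = -∫ x in D, w x * ∑ i, pd (pd g i) i x := by
  obtain ⟨χ, hχ⟩ := exists_cutSeq hD hb hK h
  have hg1 : ContDiff ℝ 1 g := hg.of_le (by norm_num)
  have hwN := eig_mem hD hb hK h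
  have hgN : g ∈ N1 D hD := N1_of_contDiff hb hg1
  have hpg : ∀ i, ContDiff ℝ 1 (pd g i) := fun i =>
    (hg.fderiv_right (m := 1) (by norm_num)).clm_apply contDiff_const
  have hcL : Continuous (fun x => ∑ i, pd (pd g i) i x) :=
    continuous_finsetSum _ fun i _ => continuous_pd (hpg i) i
  have hcc : ∀ G : E → ℝ, Continuous G → IntegrableOn G D := fun G hG =>
    (hG.continuousOn.integrableOn_compact hb.isCompact_closure).mono_set subset_closure
  have hI1 : IntegrableOn (gg w g) D := N1.int_gg hwN hgN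
  have hI2 : IntegrableOn (fun x => w x * ∑ i, pd (pd g i) i x) D := hcc _ (h.cont.mul hcL)
  have hid : ∀ m, (∫ x in D, χ m x * gg w g x) + ∫ x in D, w x * gg g (χ m) x =
      -∫ x in D, χ m x * (w x * ∑ i, pd (pd g i) i x) := by
    intro m
    set ψ : E → ℝ := fun x => χ m x * w x with hψ
    have hψm : ψ ∈ C1c D := mul_mem hD h (hχ.mem m)
    have e1 : ∫ x, gg g ψ x = -∫ x, ψ x * ∑ i, pd (pd g i) i x := by
      have hI : ∀ i, Integrable (fun x => pd g i x * pd ψ i x) := fun i =>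
        integrable_cc ((continuous_pd hg1 i).mul (continuous_pd (C1c.contDiff hψm) i))
          (HasCompactSupport.mul_left (hasCompactSupport_pd (C1c.compact hψm) i))
      have hJ : ∀ i, Integrable (fun x => pd (pd g i) i x * ψ x) := fun i =>
        integrable_cc ((continuous_pd (hpg i) i).mul (C1c.cont hψm))
          (HasCompactSupport.mul_left (C1c.compact hψm))
      have e2 : ∫ x, gg g ψ x = ∑ i, ∫ x, pd g i x * pd ψ i x := by
        unfold gg
        exact integral_finsetSum _ fun i _ => hI i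
      have e3 : ∫ x, ψ x * ∑ i, pd (pd g i) i x = ∑ i, ∫ x, pd (pd g i) i x * ψ x := by
        rw [← integral_finsetSum _ fun i _ => hJ i]
        refine integral_congr_ae (Eventually.of_forall fun x => ?_)
        simp only
        rw [Finset.mul_sum]
        exact Finset.sum_congr rfl fun i _ => mul_comm _ _
      rw [e2, e3, ← Finset.sum_neg_distrib]
      refine Finset.sum_congr rfl fun i _ => ?_
      exact ibp hD (hpg i).contDiffOn (C1c.contDiff hψm) (C1c.compact hψm) (C1c.sub hψm) i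
    have e4 : ∫ x in D, gg g ψ x = ∫ x, gg g ψ x := by
      refine setIntegral_eq_integral_of_forall_compl_eq_zero fun x hx => ?_
      have h1 : x ∉ tsupport ψ := fun hh => hx (C1c.sub hψm hh)
      exact Finset.sum_eq_zero fun i _ => by rw [pd_zero_of h1 i, mul_zero]
    have e5 : ∫ x in D, ψ x * ∑ i, pd (pd g i) i x = ∫ x, ψ x * ∑ i, pd (pd g i) i x := by
      refine setIntegral_eq_integral_of_forall_compl_eq_zero fun x hx => ?_
      have h1 : x ∉ tsupport ψ := fun hh => hx (C1c.sub hψm hh)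
      rw [zero_of h1, zero_mul]
    have e6 : ∫ x in D, gg g ψ x =
        (∫ x in D, χ m x * gg w g x) + ∫ x in D, w x * gg g (χ m) x := by
      rw [← integral_add (int1 hχ hI1 m) (int0 hD hχ h.cont hgN m)]
      refine setIntegral_congr_fun hD.measurableSet fun x hx => ?_
      have hw := diffAt_of hD h.C1 hx
      have hc := C1c.diff (hχ.mem m) x
      have h1 : ∀ i, pd ψ i x = χ m x * pd w i x + w x * pd (χ m) i x := fun i => pd_mul hc hw i
      simp only [gg, Fin.sum_univ_three, h1]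
      ring
    rw [← e6, e4, e1, ← e5]
    congr 1
    refine setIntegral_congr_fun hD.measurableSet fun x _ => ?_
    simp only [hψ]
    ring
  have t1 := (lim1 hD hχ hI1).add (lim0 hD hχ h.cont hgN)
  have t2 := (lim1 hD hχ hI2).neg
  rw [add_zero] at t1
  refine tendsto_nhds_unique t1 (t2.congr fun m => ?_)
  exact (hid m).symm

theorem eig_eig {D : Set E} (hD : IsOpen D) (hb : Bornology.IsBounded D) {K : ℝ} (hK : 0 < K)
    {w w' : E → ℝ} (h : Eigf D K w) (h' : Eigf D K w') : BD D K w w' = 0 := by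
  obtain ⟨χ, hχ⟩ := exists_cutSeq hD hb hK h'
  have hwN := eig_mem hD hb hK h
  have hwN' := eig_mem hD hb hK h'
  have hI1 : IntegrableOn (fun x => gg w w' x - K * (w x * w' x)) D :=
    (N1.int_gg hwN hwN').sub ((N1.int_mul hwN hwN').const_mul K)
  have hid : ∀ m, (∫ x in D, χ m x * (gg w w' x - K * (w x * w' x))) +
      ∫ x in D, w' x * gg w (χ m) x = 0 := by
    intro m
    set ψ : E → ℝ := fun x => χ m x * w' x with hψ
    have hψm : ψ ∈ C1c D := mul_mem hD h' (hχ.mem m)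
    have e1 := h.weak ψ hψm
    have e4 : ∫ x in D, (gg w ψ x - K * (w x * ψ x)) = ∫ x, (gg w ψ x - K * (w x * ψ x)) := by
      refine setIntegral_eq_integral_of_forall_compl_eq_zero fun x hx => ?_
      have h1 : x ∉ tsupport ψ := fun hh => hx (C1c.sub hψm hh)
      have h2 : gg w ψ x = 0 := Finset.sum_eq_zero fun i _ => by rw [pd_zero_of h1 i, mul_zero]
      rw [h2, zero_of h1]
      ring
    rw [← e1, ← e4, ← integral_add (int1 hχ hI1 m) (int0 hD hχ h'.cont hwN m)]
    refine setIntegral_congr_fun hD.measurableSet fun x hx => ?_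
    have hw := diffAt_of hD h'.C1 hx
    have hc := C1c.diff (hχ.mem m) x
    have h1 : ∀ i, pd ψ i x = χ m x * pd w' i x + w' x * pd (χ m) i x := fun i => pd_mul hc hw i
    simp only [gg, Fin.sum_univ_three, h1]
    simp only [hψ]
    ring
  have t1 := (lim1 hD hχ hI1).add (lim0 hD hχ h'.cont hwN)
  rw [add_zero] at t1
  unfold BD
  refine tendsto_nhds_unique t1 (tendsto_const_nhds.congr fun m => ?_)
  exact (hid m).symm

end Pool.Agent.H68.SN
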