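import Pool.Agent.H68.SN.Defs
import Pool.Agent.H68.SC.Cut
import Pool.Agent.H68.SC.Quad

/-!
# Module Ener (about 80 lines): weak eigenfunctions have finite energy on `D`

PROOF. `w` is continuous with compact support, so `w²` is integrable. For the gradient: for a compact
`K₀ ⊆ D` let `χ` be the function of `cut` (H68/SC/Cut.lean) for the single function `w` and `ε = 1`. The
weak equation with `ψ = χ² w ∈ C1c D` gives
`∫ χ² gg w w = K ∫ χ² w² - 2 ∫ χ w gg w χ ≤ K ∫ w² + (1/2) ∫ χ² gg w w + 2 ∫ w² gg χ χ`, so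
`∫_{K₀} gg w w ≤ ∫ χ² gg w w ≤ 2 K ∫ w² + 4`. (See H68/SC/Quad.lean `quad` for the same computation.)
Exhaust `D` by compact sets (e.g. `lintegral` over an increasing union, or
`integrableOn_of_...bounded`/`AECover.integrable_of_integral_norm_bounded`).
-/

set_option autoImplicit false

namespace Pool.Agent.H68.SN

open Filter Topology MeasureTheory Metric
open scoped ContDiff
open Pool.Agent.H68.SC

private theorem ener_meas (w : E → ℝ) : Measurable (gg w w) := by
  unfold gg
  refine Finset.measurable_sum _ fun i _ => ?_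
  exact (measurable_fderiv_apply_const ℝ w (ee i)).mul (measurable_fderiv_apply_const ℝ w (ee i))

private theorem ener_cs {D : Set E} (hb : Bornology.IsBounded D) {K : ℝ}
    {w : E → ℝ} (h : Eigf D K w) : HasCompactSupport w :=
  HasCompactSupport.intro hb.isCompact_closure fun x hx => h.out x fun hd => hx (subset_closure hd)

private theorem ener_sq {D : Set E} (hb : Bornology.IsBounded D) {K : ℝ}
    {w : E → ℝ} (h : Eigf D K w) : Integrable (fun x => w x ^ 2) := by
  refine integrable_cc (h.cont.pow 2) ?_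
  have : (fun x => w x ^ 2) = fun x => w x * w x := by funext x; ring
  rw [this]
  exact HasCompactSupport.mul_right (ener_cs hb h)

private theorem ener_bound {D : Set E} (hD : IsOpen D) (hb : Bornology.IsBounded D) {K : ℝ}
    (hK : 0 < K) {w : E → ℝ} (h : Eigf D K w) {K₀ : Set E} (h0 : IsCompact K₀) (h1 : K₀ ⊆ D) :
    ∫⁻ x in K₀, ENNReal.ofReal (gg w w x) ≤ ENNReal.ofReal (K * (∫ x, w x ^ 2) + 1) := by
  obtain ⟨χ, hχ, c1, c2, c3, -⟩ := cut hD hb hK (fun _ : Fin 1 => w) (fun _ => h) h0 h1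
    (ε := 1) one_pos
  simp only [Finset.univ_unique, Finset.sum_singleton] at c3
  set f : E → ℝ := fun x => χ x * w x with hf
  have hfm : f ∈ C1c D := mul_mem hD h hχ
  have hq := quad hD h hχ
  rw [← hf, BB_eq hfm hfm] at hq
  have h2 : ∫ x, f x * f x ≤ ∫ x, w x ^ 2 := by
    refine integral_mono (C1c.int_mul hfm hfm) (ener_sq hb h) fun x => ?_
    have a1 := c1 x
    simp only [hf]
    have a2 : χ x * w x * (χ x * w x) = χ x ^ 2 * w x ^ 2 := by ring
    rw [a2]
    have a3 : χ x ^ 2 ≤ 1 := by nlinarith [a1.1, a1.2]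
    nlinarith [sq_nonneg (w x)]
  have h3 : ∫ x, gg f f x ≤ K * (∫ x, w x ^ 2) + 1 := by
    have := mul_le_mul_of_nonneg_left h2 hK.le
    linarith
  have h4 : ∀ x ∈ K₀, gg w w x = gg f f x := by
    intro x hx
    have e : w =ᶠ[𝓝 x] f := by
      filter_upwards [c2 x hx] with y hy
      simp only [hf]
      rw [hy, one_mul]
    unfold gg
    exact Finset.sum_congr rfl fun i _ => by rw [pd_congr e i]
  calc ∫⁻ x in K₀, ENNReal.ofReal (gg w w x) = ∫⁻ x in K₀, ENNReal.ofReal (gg f f x) :=
        setLIntegral_congr_fun h0.measurableSet fun x hx => by simp only [h4 x hx]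
    _ ≤ ∫⁻ x, ENNReal.ofReal (gg f f x) := setLIntegral_le_lintegral _ _
    _ = ENNReal.ofReal (∫ x, gg f f x) :=
        (ofReal_integral_eq_lintegral_ofReal (C1c.int_gg hfm hfm)
          (Eventually.of_forall fun x => gg_nonneg f x)).symm
    _ ≤ ENNReal.ofReal (K * (∫ x, w x ^ 2) + 1) := ENNReal.ofReal_le_ofReal h3

theorem eig_mem {D : Set E} (hD : IsOpen D) (hb : Bornology.IsBounded D) {K : ℝ} (hK : 0 < K)
    {w : E → ℝ} (h : Eigf D K w) : w ∈ N1 D hD := by
  refine ⟨h.C1, (ener_sq hb h).integrableOn, (ener_meas w).aestronglyMeasurable, ?_⟩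
  rw [hasFiniteIntegral_iff_ofReal (Eventually.of_forall fun x => gg_nonneg w x)]
  obtain ⟨F, hF1, hF2, hF3, hF4⟩ := hD.exists_iUnion_isClosed
  have h5 : ∫⁻ x in D, ENNReal.ofReal (gg w w x) ≤ ENNReal.ofReal (K * (∫ x, w x ^ 2) + 1) := by
    rw [← hF3, setLIntegral_iUnion_of_directed _ (directed_of_isDirected_le hF4)]
    refine iSup_le fun n => ?_
    exact ener_bound hD hb hK h
      (Metric.isCompact_of_isClosed_isBounded (hF1 n) (hb.subset (hF2 n))) (hF2 n)
  exact h5.trans_lt ENNReal.ofReal_lt_top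

end Pool.Agent.H68.SN
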