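import Pool.Agent.H68.SC.Basic

/-!
# Module ExpD (about 60 lines): a continuous function with vanishing Laplace transform is zero

PROOF. Let `X = closure D` (compact). The finite linear combinations of the functions
`x ↦ exp (ξ · x)`, `ξ ∈ E`, form a subalgebra of `C(X, ℝ)` (products of exponentials are exponentials,
`ξ = 0` gives `1`) which separates points; by Stone-Weierstrass
(`ContinuousMap.subalgebra_topologicalClosure_eq_top_of_separatesPoints`) it is dense. So `∫ w² ≤ ε ∫ |w|`
for every `ε > 0`, `∫ w² = 0`, `w = 0` (`int_sq_pos` of H68/SC/Basic.lean).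
-/

set_option autoImplicit false

namespace Pool.Agent.H68.SN

open Filter Topology MeasureTheory Metric
open Pool.Agent.H68.SC

/-- the exponential functions form a submonoid -/
private noncomputable def ExpD_M : Submonoid C(E, ℝ) where
  carrier := {f | ∃ ξ : E, ∀ x, f x = Real.exp (inner ℝ ξ x)}
  mul_mem' := by
    rintro f g ⟨ξ, hξ⟩ ⟨η, hη⟩
    refine ⟨ξ + η, fun x => ?_⟩
    rw [ContinuousMap.mul_apply, hξ, hη, ← Real.exp_add, inner_add_left]
  one_mem' := ⟨0, fun x => by simp⟩

/-- the algebra generated by them is their span -/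
private noncomputable def ExpD_A : Subalgebra ℝ C(E, ℝ) := Algebra.adjoin ℝ (ExpD_M : Set C(E, ℝ))

private theorem ExpD_span {f : C(E, ℝ)} (hf : f ∈ ExpD_A) :
    f ∈ Submodule.span ℝ (ExpD_M : Set C(E, ℝ)) := by
  have h1 : f ∈ Subalgebra.toSubmodule (Algebra.adjoin ℝ (ExpD_M : Set C(E, ℝ))) := hf
  rwa [Algebra.adjoin_eq_span, Submonoid.closure_eq] at h1

private theorem ExpD_sep : ExpD_A.SeparatesPoints := by
  intro x y hxy
  let f : C(E, ℝ) := ⟨fun z => Real.exp (inner ℝ (x - y) z), by fun_prop⟩
  refine ⟨f, ⟨f, Algebra.subset_adjoin ⟨x - y, fun z => rfl⟩, rfl⟩, fun h => hxy ?_⟩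
  have h1 : inner ℝ (x - y) x = inner ℝ (x - y) y := Real.exp_injective h
  have h2 : inner ℝ (x - y) (x - y) = 0 := by
    rw [inner_sub_right, h1, sub_self]
  exact sub_eq_zero.1 (inner_self_eq_zero.1 h2)

theorem exp_zero {D : Set E} (hb : Bornology.IsBounded D) {w : E → ℝ} (hc : Continuous w)
    (ho : ∀ x, x ∉ D → w x = 0) (h : ∀ ξ : E, ∫ x, w x * Real.exp (inner ℝ ξ x) = 0) : w = 0 := by
  by_contra hw
  have hcs : HasCompactSupport w :=
    HasCompactSupport.intro (K := closure D) hb.isCompact_closure fun x hx =>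
      ho x fun h => hx (subset_closure h)
  have hI := int_sq_pos hc hcs hw
  have hint : ∀ f : C(E, ℝ), Integrable fun x => w x * f x := fun f =>
    (hc.mul f.continuous).integrable_of_hasCompactSupport hcs.mul_right
  have h0 : ∀ f ∈ ExpD_A, ∫ x, w x * f x = 0 := by
    intro f hf
    refine Submodule.span_induction (p := fun f _ => ∫ x, w x * f x = 0) ?_ ?_ ?_ ?_ (ExpD_span hf)
    · rintro f ⟨ξ, hξ⟩
      simp only [hξ]
      exact h ξ
    · simp
    · intro f g _ _ hf hg
      have e : (fun x => w x * (f + g) x) = fun x => w x * f x + w x * g x := by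
        funext x
        rw [ContinuousMap.add_apply]
        ring
      rw [e, integral_add (hint f) (hint g), hf, hg, add_zero]
    · intro a f _ hf
      have e : (fun x => w x * (a • f) x) = fun x => a * (w x * f x) := by
        funext x
        rw [ContinuousMap.smul_apply, smul_eq_mul]
        ring
      rw [e, integral_const_mul, hf, mul_zero]
  have habs : Integrable fun x => |w x| := (hc.integrable_of_hasCompactSupport hcs).abs
  have hL : 0 ≤ ∫ x, |w x| := integral_nonneg fun x => abs_nonneg _
  set I := ∫ x, w x ^ 2 with hIdef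
  set L := ∫ x, |w x| with hLdef
  have hε : 0 < I / (L + 1) := by positivity
  obtain ⟨g, hg, hgw⟩ :=
    ContinuousMap.exists_mem_subalgebra_near_continuous_of_isCompact_of_separatesPoints
      ExpD_sep ⟨w, hc⟩ hb.isCompact_closure hε
  have hgw' : ∀ x ∈ closure D, |g x - w x| < I / (L + 1) := by
    intro x hx
    have := hgw x hx
    rwa [Real.norm_eq_abs] at this
  have e1 : I = ∫ x, w x * (w x - g x) := by
    have e : (fun x => w x * (w x - g x)) = fun x => w x ^ 2 - w x * g x := by
      funext x
      ring
    have hi : Integrable fun x => w x ^ 2 := by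
      have := hint ⟨w, hc⟩
      refine this.congr (Eventually.of_forall fun x => ?_)
      change w x * w x = w x ^ 2
      ring
    rw [e, integral_sub hi (hint g), h0 g hg, sub_zero]
  have hi2 : Integrable fun x => w x * (w x - g x) := hint (⟨w, hc⟩ - g)
  have e2 : ∫ x, w x * (w x - g x) ≤ ∫ x, I / (L + 1) * |w x| := by
    refine integral_mono hi2 (habs.const_mul _) fun x => ?_
    change w x * (w x - g x) ≤ I / (L + 1) * |w x|
    by_cases hx : x ∈ D
    · calc w x * (w x - g x) ≤ |w x * (w x - g x)| := le_abs_self _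
        _ = |w x| * |g x - w x| := by rw [abs_mul, abs_sub_comm (w x)]
        _ ≤ |w x| * (I / (L + 1)) := by
            gcongr
            exact (hgw' x (subset_closure hx)).le
        _ = _ := mul_comm _ _
    · rw [ho x hx, abs_zero, zero_mul, mul_zero]
  rw [integral_const_mul, ← hLdef, ← e1] at e2
  have e3 : I / (L + 1) * L < I := by
    rw [div_mul_eq_mul_div, div_lt_iff₀ (by positivity)]
    linarith
  linarith

end Pool.Agent.H68.SN
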