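import Pool.Agent.H68.SN.Defs
import Pool.Agent.H68.SC.NegU
import Pool.Agent.H68.SC.Quad

/-!
# Module Fou (about 80 lines): solutions of the Helmholtz equation have integral zero over `D`

PROOF. `U` is of class `C¹` on the whole space and vanishes outside `D`. (a) `∫ gg U g = ∫_D k² (U + c) g`:
for a cutoff `χ ∈ C1c D` the identity `∫ gg U (χ g) = k² ∫ (U + c) (χ g)` holds (as `NegU_id` of
H68/SC/NegU.lean: `ibp` and `helm`; copy it), `gg U (χ g) = χ gg U g + g gg U χ`, and with the cutoff
functions `χ` of `cut` (H68/SC/Cut.lean) for the three functions `pd U j` (see the proof of `int_U` in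
H68/SC/NegU.lean, which is the case `g = 1`) `∫ |g gg U χ| → 0`, `χ → 1`. (b) `∫ gg U g = - ∫ U Δg = k² ∫ U g`
(`U` is `C¹` with compact support: `ibp` with `f = pd g i`, `g = U`, `D = univ`).
Subtract: `k² c ∫_D g = 0`.
-/

set_option autoImplicit false

namespace Pool.Agent.H68.SN

open Filter Topology MeasureTheory Metric
open scoped ContDiff
open Pool.Agent.H68.SC

private theorem fou_pdC1 {D : Set E} {k c : ℝ} {U : E → ℝ} (h : UU D k c U) (i : Fin 3) :
    ContDiffOn ℝ 1 (pd U i) D :=
  (h.C2.fderiv_of_isOpen h.opn (by norm_num)).clm_apply contDiffOn_const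

private theorem fou_int {D : Set E} {A B : E → ℝ} (hD : IsOpen D) (hA : ContinuousOn A D)
    (hB : B ∈ C1c D) : Integrable (fun x => A x * B x) := by
  refine integrable_cc ?_ (HasCompactSupport.mul_left (C1c.compact hB))
  rw [continuous_iff_continuousAt]
  intro x
  by_cases hx : x ∈ tsupport B
  · exact (hA.continuousAt (hD.mem_nhds (C1c.sub hB hx))).mul (C1c.cont hB).continuousAt
  · have h0 : (fun y => A y * B y) =ᶠ[𝓝 x] fun _ => 0 := by
      have : (tsupport B)ᶜ ∈ 𝓝 x := (isClosed_tsupport B).isOpen_compl.mem_nhds hx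
      filter_upwards [this] with y hy
      rw [image_eq_zero_of_notMem_tsupport hy, mul_zero]
    rw [continuousAt_congr h0]
    exact continuousAt_const

private theorem fou_out {D : Set E} {χ : E → ℝ} (hχ : χ ∈ C1c D) {x : E} (hx : x ∉ D) :
    χ x = 0 := image_eq_zero_of_notMem_tsupport fun hc => hx (C1c.sub hχ hc)

private theorem fou_id {D : Set E} {k c : ℝ} {U : E → ℝ} (h : UU D k c U) {χ : E → ℝ}
    (hχ : χ ∈ C1c D) : ∫ x, gg U χ x = k ^ 2 * ∫ x, (U x + c) * χ x := by
  have h1 : ∀ i, ∫ x, pd U i x * pd χ i x = -∫ x, pd (pd U i) i x * χ x := fun i =>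
    ibp h.opn (fou_pdC1 h i) (C1c.contDiff hχ) (C1c.compact hχ) (C1c.sub hχ) i
  have h2 : ∀ i, Integrable (fun x => pd U i x * pd χ i x) := fun i =>
    integrable_cc ((continuous_pd h.C1 i).mul (continuous_pd (C1c.contDiff hχ) i))
      (HasCompactSupport.mul_left (hasCompactSupport_pd (C1c.compact hχ) i))
  have h3 : ∀ i, Integrable (fun x => pd (pd U i) i x * χ x) := fun i =>
    fou_int h.opn (((fou_pdC1 h i).continuousOn_fderiv_of_isOpen h.opn le_rfl).clm_apply
      continuousOn_const) hχ
  calc ∫ x, gg U χ x = ∑ i, ∫ x, pd U i x * pd χ i x := by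
        unfold gg
        exact integral_finsetSum _ fun i _ => h2 i
    _ = -∫ x, ∑ i, pd (pd U i) i x * χ x := by
        rw [integral_finsetSum _ fun i _ => h3 i, ← Finset.sum_neg_distrib]
        exact Finset.sum_congr rfl fun i _ => h1 i
    _ = k ^ 2 * ∫ x, (U x + c) * χ x := by
        rw [← integral_neg, ← integral_const_mul]
        refine integral_congr_ae (Eventually.of_forall fun x => ?_)
        simp only
        by_cases hx : x ∈ D
        · have := h.helm x hx
          rw [← Finset.sum_mul]
          have e : ∑ i, pd (pd U i) i x = -(k ^ 2 * (U x + c)) := by linarith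
          rw [e]
          ring
        · rw [fou_out hχ hx]
          simp

private theorem fou_cs {D : Set E} {k c : ℝ} {U : E → ℝ} (h : UU D k c U) :
    HasCompactSupport U := by
  refine HasCompactSupport.intro h.bdd.isCompact_closure fun x hx => ?_
  exact (h.out x fun hd => hx (subset_closure hd)).1

private theorem fou_ww (U : E → ℝ) (j : Fin 3) : pd U j = ww U (ee j, 0) := by
  funext x
  unfold pd ww kf
  congr 1
  ext i
  fin_cases i
  · simp [crs_apply0]
  · simp [crs_apply1]
  · simp [crs_apply2]

/-- a bounded continuous function multiplied by a cutoff -/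
private theorem fou_tail {D : Set E} (hD : IsOpen D) (hb : Bornology.IsBounded D) {φ χ : E → ℝ}
    (hφ : Continuous φ) {m : ℝ} (hm : 0 ≤ m) (hφm : ∀ x ∈ D, |φ x| ≤ m) (hχ : χ ∈ C1c D)
    (c1 : ∀ x, 0 ≤ χ x ∧ χ x ≤ 1) {K₀ : Set E} (hK₀ : IsCompact K₀)
    (c2 : ∀ x ∈ K₀, ∀ᶠ y in 𝓝 x, χ y = 1) {l : ℝ} (hl : 0 < l)
    (hK3 : volume (D \ K₀) < ENNReal.ofReal l) :
    |(∫ x in D, φ x) - ∫ x, φ x * χ x| ≤ m * l := by
  have hDm : MeasurableSet D := hD.measurableSet
  have hV : volume D < ⊤ := hb.measure_lt_top
  have hUi : IntegrableOn φ D := by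
    refine IntegrableOn.of_bound hV hφ.aestronglyMeasurable m ?_
    exact (ae_restrict_iff' hDm).2 (Eventually.of_forall fun x hx => hφm x hx)
  have a3 : ∫ x, φ x * χ x = ∫ x in D, φ x * χ x :=
    (setIntegral_eq_integral_of_forall_compl_eq_zero fun x hx => by
      rw [fou_out hχ hx, mul_zero]).symm
  have hχi : Integrable (fun x => φ x * χ x) := fou_int hD hφ.continuousOn hχ
  have hDK : MeasurableSet (D \ K₀) := hDm.diff hK₀.measurableSet
  rw [a3, ← integral_sub hUi hχi.integrableOn]
  calc |∫ x in D, (φ x - φ x * χ x)| ≤ ∫ x in D, |φ x - φ x * χ x| :=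
        abs_integral_le_integral_abs
    _ ≤ ∫ x in D, (D \ K₀).indicator (fun _ => m) x := by
        apply setIntegral_mono_on
        · exact (hUi.sub hχi.integrableOn).abs
        · exact ((integrable_indicator_iff hDK).2 (integrableOn_const
            ((measure_mono Set.sdiff_subset).trans_lt hV).ne)).integrableOn
        · exact hDm
        · intro x hx
          by_cases hxK : x ∈ K₀
          · rw [(c2 x hxK).self_of_nhds, Set.indicator_of_notMem (fun hc => hc.2 hxK)]
            simp
          · rw [Set.indicator_of_mem (show x ∈ D \ K₀ from ⟨hx, hxK⟩)]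
            have e1 : φ x - φ x * χ x = φ x * (1 - χ x) := by ring
            rw [e1, abs_mul]
            have e2 : |1 - χ x| ≤ 1 := by
              rw [abs_le]
              constructor
              · linarith [(c1 x).2]
              · linarith [(c1 x).1]
            calc |φ x| * |1 - χ x| ≤ m * 1 :=
                  mul_le_mul (hφm x hx) e2 (abs_nonneg _) hm
              _ = m := mul_one _
    _ = m * volume.real (D \ K₀) := by
        rw [setIntegral_indicator hDK, Set.inter_eq_right.2 Set.sdiff_subset]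
        simp only [integral_const, smul_eq_mul, measureReal_restrict_apply_univ]
        ring
    _ ≤ m * l := by
        apply mul_le_mul_of_nonneg_left _ hm
        rw [measureReal_def]
        exact ENNReal.toReal_le_of_le_ofReal hl.le hK3.le

private theorem fou_bdd {D : Set E} (hb : Bornology.IsBounded D) {φ : E → ℝ}
    (hφ : Continuous φ) : ∃ m : ℝ, 0 ≤ m ∧ ∀ x ∈ D, |φ x| ≤ m := by
  obtain ⟨m, hm⟩ := hb.isCompact_closure.exists_bound_of_continuousOn hφ.continuousOn
  exact ⟨max m 0, le_max_right _ _, fun x hx =>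
    (hm x (subset_closure hx)).trans (le_max_left _ _)⟩

/-- part (a) -/
private theorem fou_a {D : Set E} {k c : ℝ} {U : E → ℝ} (h : UU D k c U) {g : E → ℝ}
    (hg : ContDiff ℝ 2 g) : ∫ x in D, gg U g x = k ^ 2 * ∫ x in D, (U x + c) * g x := by
  have hDm : MeasurableSet D := h.opn.measurableSet
  have hV' : volume D < ⊤ := h.bdd.measure_lt_top
  have hg1 : ContDiff ℝ 1 g := hg.of_le (by norm_num)
  have hcA : Continuous (gg U g) := continuous_gg h.C1 hg1
  have hcB : Continuous (fun x => (U x + c) * g x) :=
    (h.C1.continuous.add continuous_const).mul hg1.continuous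
  obtain ⟨mA, hmA, hA⟩ := fou_bdd h.bdd hcA
  obtain ⟨mB, hmB, hB⟩ := fou_bdd h.bdd hcB
  obtain ⟨G, hG, hgG⟩ := fou_bdd h.bdd hg1.continuous
  set V : ℝ := volume.real D with hV
  have hV0 : 0 ≤ V := measureReal_nonneg
  have key : ∀ l : ℝ, 0 < l → |(∫ x in D, gg U g x) - k ^ 2 * ∫ x in D, (U x + c) * g x| ≤
      l * (G * ((V + 1) / 2) + mA + k ^ 2 * mB) := by
    intro l hl
    obtain ⟨K₀, hK1, hK2, hK3⟩ := hDm.exists_isCompact_sdiff_lt hV'.ne
      (ENNReal.ofReal_pos.2 hl).ne'
    obtain ⟨χ, hχ, c1, c2, c3, -⟩ := cut h.opn h.bdd (K := k ^ 2) (pow_pos h.kpos 2)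
      (fun j : Fin 3 => pd U j) (fun j => by rw [fou_ww]; exact ww_eigf h _) hK2 hK1
      (ε := l ^ 2) (by positivity)
    have hGe : ∀ x, ∑ j : Fin 3, pd U j x ^ 2 = gg U U x := fun x => by
      unfold gg
      exact Finset.sum_congr rfl fun i _ => sq _
    simp only [hGe] at c3
    have hggc : Continuous (gg U χ) := continuous_gg h.C1 (C1c.contDiff hχ)
    have hggs : HasCompactSupport (gg U χ) := by
      have : gg U χ = gg χ U := by funext x; exact gg_comm _ _ _
      rw [this]
      exact hasCompactSupport_gg (C1c.compact hχ) U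
    have hgout : ∀ x, x ∉ D → gg U χ x = 0 := by
      intro x hx
      unfold gg
      refine Finset.sum_eq_zero fun i _ => ?_
      rw [pd_zero_of (fun hc => hx (C1c.sub hχ hc)) i, mul_zero]
    have hgi : Integrable (fun x => g x * gg U χ x) :=
      integrable_cc (hg1.continuous.mul hggc) (HasCompactSupport.mul_left hggs)
    -- the first estimate
    have a1 : |∫ x, g x * gg U χ x| ≤ l * (G * ((V + 1) / 2)) := by
      have b1 : Integrable (fun x => gg U U x * gg χ χ x) :=
        integrable_cc ((continuous_gg h.C1 h.C1).mul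
          (continuous_gg (C1c.contDiff hχ) (C1c.contDiff hχ)))
          (HasCompactSupport.mul_left (hasCompactSupport_gg (C1c.compact hχ) χ))
      have b2 : ∫ x, g x * gg U χ x = ∫ x in D, g x * gg U χ x :=
        (setIntegral_eq_integral_of_forall_compl_eq_zero fun x hx => by
          rw [hgout x hx, mul_zero]).symm
      rw [b2]
      have b3 : |∫ x in D, g x * gg U χ x| ≤ ∫ x in D, |g x * gg U χ x| :=
        abs_integral_le_integral_abs
      have b4 : ∫ x in D, |g x * gg U χ x| ≤
          ∫ x in D, G * (l / 2 + (1 / (2 * l)) * (gg U U x * gg χ χ x)) := by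
        apply setIntegral_mono_on
        · exact hgi.integrableOn.abs
        · exact ((integrableOn_const hV'.ne).add (b1.const_mul _).integrableOn).const_mul G
        · exact hDm
        · intro x hx
          have d1 := gg_sq_le U χ x
          have d2 : |gg U χ x| ^ 2 ≤ gg U U x * gg χ χ x := by rw [sq_abs]; exact d1
          have d4 : 1 / (2 * l) * (gg U U x * gg χ χ x) ≥ 1 / (2 * l) * |gg U χ x| ^ 2 :=
            mul_le_mul_of_nonneg_left d2 (by positivity)
          have d5 : |gg U χ x| ≤ l / 2 + 1 / (2 * l) * |gg U χ x| ^ 2 := by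
            have : l / 2 + 1 / (2 * l) * |gg U χ x| ^ 2 - |gg U χ x| =
                (|gg U χ x| - l) ^ 2 / (2 * l) := by
              field_simp
              ring
            have d6 : 0 ≤ (|gg U χ x| - l) ^ 2 / (2 * l) := by positivity
            linarith
          rw [abs_mul]
          exact mul_le_mul (hgG x hx) (by linarith) (abs_nonneg _) hG
      have b5 : ∫ x in D, G * (l / 2 + (1 / (2 * l)) * (gg U U x * gg χ χ x)) ≤
          G * (l / 2 * V + 1 / (2 * l) * l ^ 2) := by
        have b7 : IntegrableOn (fun _ : E => l / 2) D := integrableOn_const hV'.ne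
        rw [integral_const_mul, integral_add b7 (b1.const_mul _).integrableOn, integral_const_mul]
        apply mul_le_mul_of_nonneg_left _ hG
        apply add_le_add
        · simp only [integral_const, smul_eq_mul, measureReal_restrict_apply_univ]
          rw [← hV]
          linarith
        · apply mul_le_mul_of_nonneg_left _ (by positivity)
          refine (setIntegral_le_integral b1 (Eventually.of_forall fun x =>
            mul_nonneg (gg_nonneg _ _) (gg_nonneg _ _))).trans c3
      have b6 : G * (l / 2 * V + 1 / (2 * l) * l ^ 2) = l * (G * ((V + 1) / 2)) := by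
        field_simp
      linarith
    have hχg : (fun x => χ x * g x) ∈ C1c D := mul_memA h.opn hg1.contDiffOn hχ
    have a2 : ∫ x, gg U (fun x => χ x * g x) x =
        (∫ x, gg U g x * χ x) + ∫ x, g x * gg U χ x := by
      rw [← integral_add (fou_int h.opn hcA.continuousOn hχ) hgi]
      refine integral_congr_ae (Eventually.of_forall fun x => ?_)
      simp only
      have e1 : ∀ i, pd (fun x => χ x * g x) i x = χ x * pd g i x + g x * pd χ i x := fun i =>
        pd_mul (C1c.diff hχ x) (hg1.differentiable one_ne_zero x) i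
      unfold gg
      rw [Finset.sum_mul, Finset.mul_sum, ← Finset.sum_add_distrib]
      refine Finset.sum_congr rfl fun i _ => ?_
      rw [e1 i]
      ring
    have a3 := fou_id h hχg
    rw [a2] at a3
    have a4 : ∫ x, (U x + c) * (χ x * g x) = ∫ x, (U x + c) * g x * χ x :=
      integral_congr_ae (Eventually.of_forall fun x => by simp only; ring)
    rw [a4] at a3
    have a5 := fou_tail h.opn h.bdd hcA hmA hA hχ c1 hK2 c2 hl hK3
    have a6 := fou_tail h.opn h.bdd hcB hmB hB hχ c1 hK2 c2 hl hK3
    have hk2 : 0 < k ^ 2 := pow_pos h.kpos 2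
    have a7 : |k ^ 2 * ((∫ x in D, (U x + c) * g x) - ∫ x, (U x + c) * g x * χ x)| ≤
        k ^ 2 * (mB * l) := by
      rw [abs_mul, abs_of_pos hk2]
      exact mul_le_mul_of_nonneg_left a6 hk2.le
    rw [abs_le] at a1 a5 a7 ⊢
    constructor
    · nlinarith [a1.1, a1.2, a5.1, a5.2, a7.1, a7.2]
    · nlinarith [a1.1, a1.2, a5.1, a5.2, a7.1, a7.2]
  by_contra hne
  have hpos : 0 < |(∫ x in D, gg U g x) - k ^ 2 * ∫ x in D, (U x + c) * g x| :=
    abs_pos.2 (sub_ne_zero.2 hne)
  set Q := G * ((V + 1) / 2) + mA + k ^ 2 * mB with hQ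
  have hQ0 : 0 ≤ Q := by positivity
  set W := |(∫ x in D, gg U g x) - k ^ 2 * ∫ x in D, (U x + c) * g x| with hW
  have h9 := key (W / (2 * (Q + 1))) (by positivity)
  have h10 : W / (2 * (Q + 1)) * Q ≤ W / 2 := by
    have : W / (2 * (Q + 1)) * Q = W / 2 * (Q / (Q + 1)) := by
      field_simp
    rw [this]
    have h11 : Q / (Q + 1) ≤ 1 := by
      rw [div_le_one (by linarith)]
      linarith
    nlinarith
  linarith

/-- part (b) -/
private theorem fou_b {D : Set E} {k c : ℝ} {U : E → ℝ} (h : UU D k c U) {g : E → ℝ}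
    (hg : ContDiff ℝ 2 g) (hh : ∀ x, (∑ i, pd (pd g i) i x) + k ^ 2 * g x = 0) :
    ∫ x in D, gg U g x = k ^ 2 * ∫ x in D, U x * g x := by
  have hg1 : ContDiff ℝ 1 g := hg.of_le (by norm_num)
  have hpg : ∀ i, ContDiff ℝ 1 (pd g i) := fun i =>
    (hg.fderiv_right (m := 1) (by norm_num)).clm_apply contDiff_const
  have hcs := fou_cs h
  have e0 : ∫ x in D, gg U g x = ∫ x, gg U g x := by
    refine setIntegral_eq_integral_of_forall_compl_eq_zero fun x hx => ?_
    unfold gg
    refine Finset.sum_eq_zero fun i _ => ?_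
    have : pd U i x = 0 := by
      unfold pd
      rw [(h.out x hx).2]
      rfl
    rw [this, zero_mul]
  have e1 : ∫ x in D, U x * g x = ∫ x, U x * g x := by
    refine setIntegral_eq_integral_of_forall_compl_eq_zero fun x hx => ?_
    rw [(h.out x hx).1, zero_mul]
  have h1 : ∀ i, ∫ x, pd g i x * pd U i x = -∫ x, pd (pd g i) i x * U x := fun i =>
    ibp isOpen_univ (hpg i).contDiffOn h.C1 hcs (Set.subset_univ _) i
  have h2 : ∀ i, Integrable (fun x => pd U i x * pd g i x) := fun i =>
    integrable_cc ((continuous_pd h.C1 i).mul (continuous_pd hg1 i))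
      (HasCompactSupport.mul_right (hasCompactSupport_pd hcs i))
  have h3 : ∀ i, Integrable (fun x => pd (pd g i) i x * U x) := fun i =>
    integrable_cc ((continuous_pd (hpg i) i).mul h.C1.continuous)
      (HasCompactSupport.mul_left hcs)
  rw [e0, e1]
  calc ∫ x, gg U g x = ∑ i, ∫ x, pd U i x * pd g i x := by
        unfold gg
        exact integral_finsetSum _ fun i _ => h2 i
    _ = -∫ x, ∑ i, pd (pd g i) i x * U x := by
        rw [integral_finsetSum _ fun i _ => h3 i, ← Finset.sum_neg_distrib]
        refine Finset.sum_congr rfl fun i _ => ?_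
        rw [← h1 i]
        refine integral_congr_ae (Eventually.of_forall fun x => ?_)
        simp only
        ring
    _ = k ^ 2 * ∫ x, U x * g x := by
        rw [← integral_neg, ← integral_const_mul]
        refine integral_congr_ae (Eventually.of_forall fun x => ?_)
        simp only
        rw [← Finset.sum_mul]
        have e : ∑ i, pd (pd g i) i x = -(k ^ 2 * g x) := by linarith [hh x]
        rw [e]
        ring

theorem int_helm {D : Set E} {k c : ℝ} {U : E → ℝ} (h : UU D k c U) {g : E → ℝ}
    (hg : ContDiff ℝ 2 g) (hh : ∀ x, (∑ i, pd (pd g i) i x) + k ^ 2 * g x = 0) :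
    ∫ x in D, g x = 0 := by
  have h1 := fou_a h hg
  have h2 := fou_b h hg hh
  have hk2 : 0 < k ^ 2 := pow_pos h.kpos 2
  have hgc : Continuous g := hg.continuous
  have hi : ∀ φ : E → ℝ, Continuous φ → IntegrableOn φ D := fun φ hφ =>
    (hφ.continuousOn.integrableOn_compact h.bdd.isCompact_closure).mono_set subset_closure
  have h3 : ∫ x in D, (U x + c) * g x = (∫ x in D, U x * g x) + c * ∫ x in D, g x := by
    rw [← integral_const_mul, ← integral_add (hi (fun x => U x * g x) (h.C1.continuous.mul hgc))
      ((hi _ hgc).const_mul c)]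
    refine integral_congr_ae (Eventually.of_forall fun x => ?_)
    simp only
    ring
  rw [h2, h3] at h1
  have h4 : k ^ 2 * (c * ∫ x in D, g x) = 0 := by linarith
  rcases mul_eq_zero.1 h4 with h5 | h5
  · exact absurd h5 hk2.ne'
  · rcases mul_eq_zero.1 h5 with h6 | h6
    · exact absurd h6 h.cne
    · exact h6

end Pool.Agent.H68.SN
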