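import Mathlib

/-!
# Module Half (about 60 lines): half of the space is non-positive

PROOF. Take a basis `v` of `V` orthogonal for `q` (`LinearMap.BilinForm.exists_orthogonal_basis`,
symmetric form), `q (∑ a_i v_i, ∑ a_i v_i) = ∑ a_i² q (v_i, v_i)`. `P` = span of the `v_i` with
`q (v_i, v_i) ≤ 0`, `P'` = span of the others; `finrank P + finrank P' = finrank V`, `q ≤ 0` on `P`,
`q > 0` on `P' \ {0}`. `J` maps `P'` injectively to a space `P''` on which `q < 0` off zero, so
`P' ⊓ P'' = ⊥` and `2 finrank P' ≤ finrank V`.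
-/

set_option autoImplicit false

namespace Pool.Agent.H68.SN

private lemma half_diag {V : Type*} [AddCommGroup V] [Module ℝ V] {n : ℕ}
    (q : LinearMap.BilinForm ℝ V) (v : Module.Basis (Fin n) ℝ V)
    (ho : ∀ i j, i ≠ j → q (v i) (v j) = 0) (x : V) :
    q x x = ∑ i, v.repr x i ^ 2 * q (v i) (v i) := by
  have h1 : ∀ j, q x (v j) = v.repr x j * q (v j) (v j) := by
    intro j
    conv_lhs => rw [← v.sum_repr x]
    rw [map_sum, LinearMap.sum_apply, Finset.sum_eq_single j]
    · rw [map_smul, LinearMap.smul_apply, smul_eq_mul]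
    · intro i _ hi
      rw [map_smul, LinearMap.smul_apply, ho i j hi, smul_zero]
    · intro h
      exact absurd (Finset.mem_univ j) h
  have h2 : q x x = q x (∑ j, v.repr x j • v j) := by rw [v.sum_repr x]
  rw [h2, map_sum]
  refine Finset.sum_congr rfl fun i _ => ?_
  rw [map_smul, h1, smul_eq_mul]
  ring

private lemma half_repr {V : Type*} [AddCommGroup V] [Module ℝ V] {n : ℕ}
    (v : Module.Basis (Fin n) ℝ V) {S : Set (Fin n)} {x : V}
    (hx : x ∈ Submodule.span ℝ (v '' S)) {i : Fin n} (hi : i ∉ S) : v.repr x i = 0 := by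
  rw [v.mem_span_image] at hx
  by_contra h
  exact hi (hx (Finsupp.mem_support_iff.mpr h))

private lemma half_finrank {V : Type*} [AddCommGroup V] [Module ℝ V] {n : ℕ}
    (v : Module.Basis (Fin n) ℝ V) (S : Set (Fin n)) :
    Module.finrank ℝ (Submodule.span ℝ (v '' S)) = S.ncard := by
  classical
  have h1 : LinearIndependent ℝ (fun i : S => v i) := v.linearIndependent.comp _ Subtype.val_injective
  have h2 := finrank_span_eq_card h1
  rw [Set.image_eq_range, h2, ← Nat.card_eq_fintype_card, Nat.card_coe_set_eq]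

theorem half_neg {V : Type*} [AddCommGroup V] [Module ℝ V] [Module.Finite ℝ V]
    (q : LinearMap.BilinForm ℝ V) (hs : ∀ x y, q x y = q y x) (J : V →ₗ[ℝ] V)
    (hJ : ∀ v, q (J v) (J v) = -q v v) (hi : Function.Injective J) :
    ∃ P : Submodule ℝ V, Module.finrank ℝ V ≤ 2 * Module.finrank ℝ P ∧ ∀ v ∈ P, q v v ≤ 0 := by
  classical
  have hsym : LinearMap.IsSymm q := ⟨fun x y => by simpa using hs x y⟩
  obtain ⟨v, hv⟩ := LinearMap.BilinForm.exists_orthogonal_basis hsym
  have ho : ∀ i j, i ≠ j → q (v i) (v j) = 0 := fun i j hij => hv hij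
  set S : Set (Fin (Module.finrank ℝ V)) := {i | q (v i) (v i) ≤ 0} with hS
  have hdiag := half_diag q v ho
  refine ⟨Submodule.span ℝ (v '' S), ?_, ?_⟩
  · have hpos : ∀ x ∈ Submodule.span ℝ (v '' Sᶜ), x ≠ 0 → 0 < q x x := by
      intro x hx hx0
      rw [hdiag]
      have hnn : ∀ i ∈ Finset.univ, 0 ≤ v.repr x i ^ 2 * q (v i) (v i) := by
        intro i _
        by_cases h : i ∈ S
        · have h1 : v.repr x i = 0 := half_repr v hx (fun h' => h' h)
          rw [h1]
          simp
        · have h1 : 0 < q (v i) (v i) := not_le.mp h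
          positivity
      obtain ⟨i, hi'⟩ : ∃ i, v.repr x i ≠ 0 := by
        by_contra hcon
        push Not at hcon
        apply hx0
        apply v.repr.injective
        rw [map_zero]
        ext i
        exact hcon i
      have hiS : i ∉ S := fun h => hi' (half_repr v hx (fun h' => h' h))
      have h1 : 0 < q (v i) (v i) := not_le.mp hiS
      exact Finset.sum_pos' hnn ⟨i, Finset.mem_univ i, by positivity⟩
    have hdis : Disjoint (Submodule.span ℝ (v '' Sᶜ)) ((Submodule.span ℝ (v '' Sᶜ)).map J) := by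
      rw [Submodule.disjoint_def]
      intro x hx hx'
      obtain ⟨y, hy, rfl⟩ := hx'
      by_contra hne
      have hy0 : y ≠ 0 := by
        rintro rfl
        exact hne (map_zero J)
      have h1 := hpos _ hx hne
      have h2 := hpos y hy hy0
      rw [hJ] at h1
      linarith
    have h3 := Submodule.finrank_add_finrank_le_of_disjoint hdis
    have h4 : Module.finrank ℝ ((Submodule.span ℝ (v '' Sᶜ)).map J) =
        Module.finrank ℝ (Submodule.span ℝ (v '' Sᶜ)) :=
      ((Submodule.equivMapOfInjective J hi _).finrank_eq).symm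
    rw [h4, half_finrank] at h3
    rw [half_finrank]
    have h5 : S.ncard + Sᶜ.ncard = Module.finrank ℝ V := by
      rw [Set.ncard_add_ncard_compl, Nat.card_eq_fintype_card, Fintype.card_fin]
    omega
  · intro x hx
    rw [hdiag]
    refine Finset.sum_nonpos fun i _ => ?_
    by_cases h : i ∈ S
    · have h1 : q (v i) (v i) ≤ 0 := h
      exact mul_nonpos_of_nonneg_of_nonpos (sq_nonneg _) h1
    · rw [half_repr v hx h]
      simp

end Pool.Agent.H68.SN
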