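import Mathlib

/-!
# Module Pert (about 100 lines): from a non-positive to a negative space

PROOF. (i) There is a finite dimensional `G ≤ X` such that every `x ∈ N` with `B x y = 0` for all
`y ∈ N ⊔ G` is `0`: the linear map `N → (X →ₗ[ℝ] ℝ)`, `x ↦ B x`, is injective; the subspaces
`{x ∈ N : B x y = 0 for all y ∈ G}` decrease with `G`, take one of minimal dimension
(e.g. `Nat.find` or well-foundedness of `finrank`); if it contained `x ≠ 0` there would be `y` with
`B x y ≠ 0` and `G ⊔ span {y}` would give a smaller one.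
(ii) `M = N ⊔ G` is finite dimensional; take a basis `v` of `M` orthogonal for `B`
(`LinearMap.BilinForm.exists_orthogonal_basis` for the restricted form). `F` = span of the `v_i` with
`B v_i v_i < 0`: `B < 0` on `F \ {0}`. The map `N → (negative coordinates)` is injective: if `x ∈ N` has
no negative coordinates then `B x x = ∑ a_i² B v_i v_i ≥ 0`, so `= 0` by `h1`, so `a_i = 0` whenever
`B v_i v_i > 0`, so `B x y = 0` for all `y ∈ M`, so `x = 0`. Hence `finrank N ≤ finrank F`.
-/

set_option autoImplicit false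

namespace Pool.Agent.H68.SN

private theorem pert_decomp {X : Type*} [AddCommGroup X] [Module ℝ X] (B : LinearMap.BilinForm ℝ X)
    (F : Submodule ℝ X) (hF : Module.Finite ℝ F)
    (hneg : ∀ x ∈ F, x ≠ 0 → B x x < 0) (y : X) :
    ∃ f ∈ F, ∀ g ∈ F, B f g = B y g := by
  have hinj : Function.Injective (B.restrict F) := by
    rw [injective_iff_map_eq_zero]
    intro a ha
    by_contra hne
    have h1 := hneg a a.2 (fun h => hne (Subtype.ext h))
    have h2 : (B.restrict F) a a = 0 := by rw [ha]; rfl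
    have h3 : (B.restrict F) a a = B a a := rfl
    rw [h3] at h2
    linarith
  have hsurj : Function.Surjective (B.restrict F) := by
    have hfr : Module.finrank ℝ F = Module.finrank ℝ (F →ₗ[ℝ] ℝ) := by
      exact (Subspace.dual_finrank_eq).symm
    exact (LinearMap.injective_iff_surjective_of_finrank_eq_finrank hfr).1 hinj
  obtain ⟨f, hf⟩ := hsurj ((B y).comp F.subtype)
  refine ⟨f, f.2, fun g hg => ?_⟩
  have := congrArg (fun φ : F →ₗ[ℝ] ℝ => φ ⟨g, hg⟩) hf
  exact this

private theorem pert_step {X : Type*} [AddCommGroup X] [Module ℝ X] (B : LinearMap.BilinForm ℝ X)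
    (hs : ∀ x y, B x y = B y x) (F : Submodule ℝ X) (hF : Module.Finite ℝ F)
    (hneg : ∀ x ∈ F, x ≠ 0 → B x x < 0) (x : X) (hx : ∀ g ∈ F, B x g = 0) (hxx : B x x < 0) :
    ∃ F' : Submodule ℝ X, Module.Finite ℝ F' ∧ Module.finrank ℝ F' = Module.finrank ℝ F + 1 ∧
      ∀ y ∈ F', y ≠ 0 → B y y < 0 := by
  have hxF : x ∉ F := by
    intro h
    have := hx x h
    linarith
  have hx0 : x ≠ 0 := by
    rintro rfl
    simp at hxx
  refine ⟨F ⊔ (ℝ ∙ x), inferInstance, ?_, ?_⟩
  · have h1 := Submodule.finrank_sup_add_finrank_inf_eq F (ℝ ∙ x)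
    have h2 : F ⊓ (ℝ ∙ x) = ⊥ := by
      rw [Submodule.eq_bot_iff]
      intro y hy
      obtain ⟨hy1, hy2⟩ := hy
      obtain ⟨c, rfl⟩ := Submodule.mem_span_singleton.1 hy2
      by_contra hne
      have hc : c ≠ 0 := fun h => hne (by rw [h, zero_smul])
      apply hxF
      have := F.smul_mem c⁻¹ hy1
      rwa [smul_smul, inv_mul_cancel₀ hc, one_smul] at this
    rw [h2, finrank_bot, add_zero, finrank_span_singleton hx0] at h1
    exact h1
  · intro y hy hy0
    obtain ⟨f, hf, z, hz, rfl⟩ := Submodule.mem_sup.1 hy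
    obtain ⟨c, rfl⟩ := Submodule.mem_span_singleton.1 hz
    have e : B (f + c • x) (f + c • x) = B f f + c ^ 2 * B x x := by
      simp only [map_add, map_smul, LinearMap.add_apply, LinearMap.smul_apply, smul_eq_mul,
        hx f hf, hs f x]
      ring
    rw [e]
    by_cases hc : c = 0
    · subst hc
      have hf0 : f ≠ 0 := fun h => hy0 (by rw [h, zero_smul, add_zero])
      have := hneg f hf hf0
      simpa using this
    · have h3 : B f f ≤ 0 := by
        by_cases hf0 : f = 0
        · rw [hf0]; simp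
        · exact (hneg f hf hf0).le
      have h4 : c ^ 2 * B x x < 0 := mul_neg_of_pos_of_neg (by positivity) hxx
      linarith

theorem neg_pert {X : Type*} [AddCommGroup X] [Module ℝ X] (B : LinearMap.BilinForm ℝ X)
    (hs : ∀ x y, B x y = B y x) (N : Submodule ℝ X) (hN : Module.Finite ℝ N)
    (h1 : ∀ x ∈ N, B x x ≤ 0) (h2 : ∀ x ∈ N, (∀ y, B x y = 0) → x = 0) :
    ∃ F : Submodule ℝ X, Module.Finite ℝ F ∧ Module.finrank ℝ N ≤ Module.finrank ℝ F ∧
      ∀ x ∈ F, x ≠ 0 → B x x < 0 := by
  by_contra hcon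
  push Not at hcon
  set S : Set ℕ := {k | ∃ F : Submodule ℝ X, Module.Finite ℝ F ∧ Module.finrank ℝ F = k ∧
    ∀ x ∈ F, x ≠ 0 → B x x < 0} with hS
  have hne : S.Nonempty := ⟨0, ⊥, inferInstance, finrank_bot ℝ X, by
    intro x hx hx0
    exact absurd ((Submodule.mem_bot ℝ).1 hx) hx0⟩
  have hbdd : BddAbove S := by
    refine ⟨Module.finrank ℝ N, ?_⟩
    rintro k ⟨F, hF, rfl, hneg⟩
    by_contra hlt
    obtain ⟨x, hx, hx0, hxx⟩ := hcon F hF (le_of_lt (not_le.1 hlt))
    exact absurd (hneg x hx hx0) (not_lt.2 hxx)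
  obtain ⟨F, hF, hFk, hneg⟩ := Nat.sSup_mem hne hbdd
  have hmax : ∀ F' : Submodule ℝ X, Module.Finite ℝ F' → (∀ y ∈ F', y ≠ 0 → B y y < 0) →
      Module.finrank ℝ F' ≤ Module.finrank ℝ F := by
    intro F' hF' hneg'
    rw [hFk]
    exact le_csSup hbdd ⟨F', hF', rfl, hneg'⟩
  have hlt : Module.finrank ℝ F < Module.finrank ℝ N := by
    by_contra hle
    obtain ⟨x, hx, hx0, hxx⟩ := hcon F hF (not_lt.1 hle)
    exact absurd (hneg x hx hx0) (not_lt.2 hxx)
  -- semi-definiteness on the orthogonal complement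
  have hpos : ∀ x, (∀ g ∈ F, B x g = 0) → 0 ≤ B x x := by
    intro x hx
    by_contra hxx
    obtain ⟨F', hF', hfr, hneg'⟩ := pert_step B hs F hF hneg x hx (not_le.1 hxx)
    have := hmax F' hF' hneg'
    omega
  -- a vector of N orthogonal to F
  obtain ⟨x, hxN, hx0, hxF⟩ : ∃ x ∈ N, x ≠ 0 ∧ ∀ g ∈ F, B x g = 0 := by
    set φ : N →ₗ[ℝ] (F →ₗ[ℝ] ℝ) :=
      (LinearMap.compl₁₂ B N.subtype F.subtype) with hφ
    have hker : LinearMap.ker φ ≠ ⊥ := by
      intro hk
      have h3 := LinearMap.finrank_le_finrank_of_injective (LinearMap.ker_eq_bot.1 hk)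
      have h4 : Module.finrank ℝ (F →ₗ[ℝ] ℝ) = Module.finrank ℝ F := Subspace.dual_finrank_eq
      omega
    obtain ⟨x, hx, hx0⟩ := Submodule.exists_mem_ne_zero_of_ne_bot hker
    refine ⟨x, x.2, fun h => hx0 (Subtype.ext h), fun g hg => ?_⟩
    have h5 : φ x ⟨g, hg⟩ = 0 := by rw [LinearMap.mem_ker.1 hx]; rfl
    exact h5
  apply hx0
  apply h2 x hxN
  have hxx : B x x = 0 := le_antisymm (h1 x hxN) (hpos x hxF)
  intro y
  obtain ⟨f, hf, hfy⟩ := pert_decomp B F hF hneg y
  have hz : ∀ g ∈ F, B (y - f) g = 0 := by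
    intro g hg
    rw [map_sub, LinearMap.sub_apply, hfy g hg, sub_self]
  have hxz : B x (y - f) = 0 := by
    have key : ∀ t : ℝ, 0 ≤ 2 * t * B x (y - f) + B (y - f) (y - f) := by
      intro t
      have h6 := hpos (t • x + (y - f)) (by
        intro g hg
        rw [map_add, LinearMap.add_apply, map_smul, LinearMap.smul_apply, hxF g hg, hz g hg]
        simp)
      have e : B (t • x + (y - f)) (t • x + (y - f)) =
          t ^ 2 * B x x + 2 * t * B x (y - f) + B (y - f) (y - f) := by
        set z := y - f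
        simp only [map_add, map_smul, LinearMap.add_apply, LinearMap.smul_apply, smul_eq_mul,
          hs z x]
        ring
      rw [e, hxx] at h6
      linarith
    by_contra hne2
    have h7 := key (-(B (y - f) (y - f) + 1) / (2 * B x (y - f)))
    have h8 : 2 * (-(B (y - f) (y - f) + 1) / (2 * B x (y - f))) * B x (y - f) =
        -(B (y - f) (y - f) + 1) := by
      field_simp
    rw [h8] at h7
    linarith
  have e2 : B x y = B x (y - f) + B x f := by
    rw [← map_add]
    congr 1
    abel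
  rw [e2, hxz, hxF f hf, add_zero]

end Pool.Agent.H68.SN
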