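import Pool.Agent.H68.SN.Choice
import Pool.Agent.H68.SN.Half
import Pool.Agent.H68.SN.Pert
import Pool.Agent.H68.SN.AxT
import Pool.Agent.H68.SN.AxN
import Pool.Agent.H68.SC.Fin

/-!
# The count of Neumann eigenvalues (proved from the modules)
-/

set_option autoImplicit false

namespace Pool.Agent.H68.SN

open Filter Topology MeasureTheory Metric
open scoped ContDiff
open Pool.Agent.H68.SC

theorem NeumannBelow.mono {D : Set E} {K : ℝ} {m m' : ℕ} (h : NeumannBelow D K m)
    (hm : m' ≤ m) : NeumannBelow D K m' := by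
  obtain ⟨F, h1, h2, h3⟩ := h
  exact ⟨F, h1, hm.trans h2, h3⟩

/-! ### orthogonality -/

variable {D : Set E} {K : ℝ}

theorem orth_weak {f w : E → ℝ} (hf : f ∈ C1c D) (hw : Eigf D K w) : BD D K f w = 0 := by
  rw [BD_eq_BB hf, BB_comm]
  exact hw.weak f hf

theorem orth_helm (hD : IsOpen D) {f g : E → ℝ} (hf : f ∈ C1c D) (hg : ContDiff ℝ 2 g)
    (hh : ∀ x, (∑ i, pd (pd g i) i x) + K * g x = 0) : BD D K f g = 0 := by
  have hp : ∀ i, ContDiff ℝ 1 (pd g i) := fun i =>
    (hg.fderiv_right (m := 1) (by norm_num)).clm_apply contDiff_const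
  have h1 : ∀ i, ∫ x, pd g i x * pd f i x = -∫ x, pd (pd g i) i x * f x := fun i =>
    ibp hD (hp i).contDiffOn (C1c.contDiff hf) (C1c.compact hf) (C1c.sub hf) i
  have i1 : ∀ i, Integrable (fun x => pd g i x * pd f i x) := fun i =>
    integrable_cc ((hp i).continuous.mul (continuous_pd (C1c.contDiff hf) i))
      (HasCompactSupport.mul_left (hasCompactSupport_pd (C1c.compact hf) i))
  have i2 : ∀ i, Integrable (fun x => pd (pd g i) i x * f x) := fun i =>
    integrable_cc ((continuous_pd (hp i) i).mul (C1c.cont hf))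
      (HasCompactSupport.mul_left (C1c.compact hf))
  have h2 : ∫ x, gg g f x = K * ∫ x, g x * f x := by
    calc ∫ x, gg g f x = ∑ i, ∫ x, pd g i x * pd f i x := by
          unfold gg
          exact integral_finsetSum _ fun i _ => i1 i
      _ = -∫ x, ∑ i, pd (pd g i) i x * f x := by
          rw [integral_finsetSum _ fun i _ => i2 i, ← Finset.sum_neg_distrib]
          exact Finset.sum_congr rfl fun i _ => h1 i
      _ = K * ∫ x, g x * f x := by
          rw [← integral_neg, ← integral_const_mul]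
          refine integral_congr_ae (Eventually.of_forall fun x => ?_)
          simp only
          rw [← Finset.sum_mul]
          have e : ∑ i, pd (pd g i) i x = -(K * g x) := by linarith [hh x]
          rw [e]
          ring
  rw [BD_eq_BB hf, BB_comm]
  have i3 : Integrable (gg g f) := by
    have : gg g f = gg f g := by funext x; exact gg_comm _ _ _
    rw [this]
    exact integrable_cc (continuous_gg (C1c.contDiff hf) (hg.of_le (by norm_num)))
      (hasCompactSupport_gg (C1c.compact hf) g)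
  have i4 : Integrable (fun x => g x * f x) :=
    integrable_cc (hg.continuous.mul (C1c.cont hf)) (HasCompactSupport.mul_left (C1c.compact hf))
  unfold BB
  rw [integral_sub i3 (i4.const_mul K), integral_const_mul, h2]
  ring

theorem orth_eig (hD : IsOpen D) (hb : Bornology.IsBounded D) (hK : 0 < K) {w g : E → ℝ}
    (hw : Eigf D K w) (hg : ContDiff ℝ 2 g) (hh : ∀ x, (∑ i, pd (pd g i) i x) + K * g x = 0) :
    BD D K w g = 0 := by
  rw [BD_eq (eig_mem hD hb hK hw) (N1_of_contDiff (hD := hD) hb (hg.of_le (by norm_num))),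
    eig_ibp hD hb hK hw hg]
  have : ∫ x in D, w x * ∑ i, pd (pd g i) i x = -(K * ∫ x in D, w x * g x) := by
    rw [← integral_const_mul, ← integral_neg]
    refine integral_congr_ae (Eventually.of_forall fun x => ?_)
    have e : ∑ i, pd (pd g i) i x = -(K * g x) := by linarith [hh x]
    simp only
    rw [e]
    ring
  rw [this]
  ring

/-! ### three more Neumann eigenvalues -/

/-- the parameters of the plane waves -/
abbrev V6 := (Fin 3 → ℝ) × (Fin 3 → ℝ)

/-- `(α, β) ↦ (-β, α)` -/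
def JJ : V6 →ₗ[ℝ] V6 where
  toFun z := (-z.2, z.1)
  map_add' z z' := by
    ext1
    · simp only [Prod.snd_add, Prod.fst_add]
      abel
    · rfl
  map_smul' a z := by
    ext1
    · simp
    · rfl

theorem exists_half {φ : E → ℝ} {k c : ℝ} {u : E → ℝ} (h : Sol D φ k c u) (hD : IsOpen D)
    (ν : Fin 3 → E) (h1 : ∀ i, ‖ν i‖ = k) (h2 : ∀ i j, i ≠ j → ‖ν i - ν j‖ = k) :
    ∃ P : Submodule ℝ V6, 3 ≤ Module.finrank ℝ P ∧
      ∀ z ∈ P, BD D (k ^ 2) (PWl ν z) (PWl ν z) ≤ 0 := by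
  have hb := h.bdd
  have hm : ∀ z, PWl ν z ∈ N1 D hD := fun z =>
    N1_of_contDiff hb (pw_contDiff (n := 1) ν z.1 z.2)
  let q : LinearMap.BilinForm ℝ V6 :=
    LinearMap.mk₂ ℝ (fun z z' => BD D (k ^ 2) (PWl ν z) (PWl ν z'))
      (fun z z' y => by
        rw [map_add]
        exact BD_add_left (hm z) (hm z') (hm y) _)
      (fun a z y => by
        rw [map_smul]
        exact BD_smul_left a (hm z) _)
      (fun y z z' => by
        rw [map_add, BD_comm, BD_comm _ (PWl ν y) (PWl ν z), BD_comm _ (PWl ν y) (PWl ν z')]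
        exact BD_add_left (hm z) (hm z') (hm y) _)
      (fun a y z => by
        rw [map_smul, BD_comm, BD_comm _ (PWl ν y) (PWl ν z)]
        exact BD_smul_left a (hm z) _)
  have hq : ∀ z z', q z z' = BD D (k ^ 2) (PWl ν z) (PWl ν z') := fun z z' => rfl
  obtain ⟨P, hP1, hP2⟩ := half_neg q (fun z z' => BD_comm _ _ _) JJ
    (fun z => pw_J (ext_UU h) ν h1 h2 z.1 z.2) (by
      intro z z' hz
      have e1 : -z.2 = -z'.2 := congrArg Prod.fst hz
      have e2 : z.1 = z'.1 := congrArg Prod.snd hz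
      exact Prod.ext e2 (neg_injective e1))
  refine ⟨P, ?_, fun z hz => hP2 z hz⟩
  have : Module.finrank ℝ V6 = 6 := by
    rw [Module.finrank_prod, Module.finrank_fin_fun]
  omega

theorem plus_three {φ : E → ℝ} {k c : ℝ} {u : E → ℝ} (h : Sol D φ k c u)
    {n m : ℕ} (w : Fin n → E → ℝ) (hw : ∀ i, Eigf D (k ^ 2) (w i))
    (hli : LinearIndependent ℝ w) (hm : AtLeast ⊤ D (k ^ 2) m) :
    NeumannBelow D (k ^ 2) (m + n + 3) := by
  have hD : IsOpen D := sol_open h
  have hb := h.bdd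
  have hk := h.kpos
  have hK : (0 : ℝ) < k ^ 2 := by positivity
  obtain ⟨F, hF, hfin, hmF, hneg⟩ := hm
  obtain ⟨ν, hν1, hν2, hch⟩ := choice h hD w hw hli
  obtain ⟨P, hP1, hP2⟩ := exists_half h hD ν hν1 hν2
  have hFc : ∀ f ∈ F, f ∈ C1c D := fun f hf => (hF hf).1
  have hneg' : ∀ f ∈ F, f ≠ 0 → BB (k ^ 2) f f < 0 := by
    intro f hf h0
    rw [BB_self (hFc f hf)]
    linarith [hneg f hf h0]
  let S : (F × (Fin n → ℝ) × P) →ₗ[ℝ] (E → ℝ) :=
    F.subtype.coprod ((Wl w).coprod ((PWl ν).comp P.subtype))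
  have hS : ∀ x, S x = (x.1 : E → ℝ) + (Wl w x.2.1 + pw ν (x.2.2 : V6).1 (x.2.2 : V6).2) :=
    fun x => rfl
  have m1 : ∀ f ∈ F, f ∈ N1 D hD := fun f hf => C1c_le_N1 hb (hFc f hf)
  have hWE : ∀ a, Eigf D (k ^ 2) (Wl w a) := Wl_eigf hD hw
  have m2 : ∀ a, Wl w a ∈ N1 D hD := fun a => eig_mem hD hb hK (hWE a)
  have m3 : ∀ α β, pw ν α β ∈ N1 D hD := fun α β =>
    N1_of_contDiff hb (pw_contDiff (n := 1) ν α β)
  have hSm : ∀ x, S x ∈ N1 D hD := fun x => by
    rw [hS]
    exact add_mem (m1 _ x.1.2) (add_mem (m2 _) (m3 _ _))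
  let T : (F × (Fin n → ℝ) × P) →ₗ[ℝ] N1 D hD := S.codRestrict (N1 D hD) hSm
  have hT : ∀ x, (T x : E → ℝ) = S x := fun x => rfl
  have o1 : ∀ f ∈ F, ∀ a, BD D (k ^ 2) f (Wl w a) = 0 := fun f hf a =>
    orth_weak (hFc f hf) (hWE a)
  have hpw2 : ∀ α β, ContDiff ℝ 2 (pw ν α β) := fun α β => pw_contDiff (n := 2) ν α β
  have o2 : ∀ f ∈ F, ∀ α β, BD D (k ^ 2) f (pw ν α β) = 0 := fun f hf α β =>
    orth_helm hD (hFc f hf) (hpw2 α β) (pw_helm ν α β hν1)
  have o3 : ∀ a α β, BD D (k ^ 2) (Wl w a) (pw ν α β) = 0 := fun a α β =>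
    orth_eig hD hb hK (hWE a) (hpw2 α β) (pw_helm ν α β hν1)
  have o4 : ∀ a, BD D (k ^ 2) (Wl w a) (Wl w a) = 0 := fun a =>
    eig_eig hD hb hK (hWE a) (hWE a)
  -- the form on the range
  have hform : ∀ x, BF D hD (k ^ 2) (T x) (T x) = BB (k ^ 2) (x.1 : E → ℝ) x.1 +
      BD D (k ^ 2) (PWl ν (x.2.2 : V6)) (PWl ν (x.2.2 : V6)) := by
    intro x
    rw [BF_apply, hT, hS]
    set f : E → ℝ := (x.1 : E → ℝ)
    have hf : f ∈ F := x.1.2
    set a := x.2.1
    set α := (x.2.2 : V6).1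
    set β := (x.2.2 : V6).2
    have e : (PWl ν (x.2.2 : V6)) = pw ν α β := rfl
    rw [e]
    have hg : Wl w a + pw ν α β ∈ N1 D hD := add_mem (m2 a) (m3 α β)
    rw [BD_add_left (m1 f hf) hg (add_mem (m1 f hf) hg), BD_comm _ f,
      BD_add_left (m1 f hf) hg (m1 f hf), BD_add_left (m2 a) (m3 α β) (m1 f hf),
      BD_comm _ (Wl w a) f, BD_comm _ (pw ν α β) f, o1 f hf a, o2 f hf α β,
      BD_comm _ (Wl w a + pw ν α β), BD_add_left (m1 f hf) hg hg, BD_comm _ f (Wl w a + pw ν α β),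
      BD_add_left (m2 a) (m3 α β) (m1 f hf), BD_comm _ (Wl w a) f, BD_comm _ (pw ν α β) f,
      o1 f hf a, o2 f hf α β, BD_add_left (m2 a) (m3 α β) hg, BD_comm _ (Wl w a),
      BD_add_left (m2 a) (m3 α β) (m2 a), BD_comm _ (pw ν α β) (Wl w a), o3 a α β, o4 a,
      BD_comm _ (pw ν α β), BD_add_left (m2 a) (m3 α β) (m3 α β), o3 a α β, BD_eq_BB (hFc f hf)]
    ring
  -- the first component vanishes in the kernel
  have hker1 : ∀ x, (∀ y, BF D hD (k ^ 2) (T x) y = 0) → x = 0 := by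
    intro x hx
    obtain ⟨f, a, z⟩ := x
    have hf : (f : E → ℝ) ∈ F := f.2
    have h1 : BD D (k ^ 2) (S (f, a, z)) (f : E → ℝ) = 0 := hx ⟨f, m1 f hf⟩
    rw [hS] at h1
    have hg : Wl w a + pw ν (z : V6).1 (z : V6).2 ∈ N1 D hD := add_mem (m2 a) (m3 _ _)
    change BD D (k ^ 2) ((f : E → ℝ) + (Wl w a + pw ν (z : V6).1 (z : V6).2)) (f : E → ℝ) = 0
      at h1
    rw [BD_add_left (m1 f hf) hg (m1 f hf), BD_add_left (m2 a) (m3 _ _) (m1 f hf),
      BD_comm _ (Wl w a) f, BD_comm _ (pw ν _ _) f, o1 f hf a, o2 f hf, BD_eq_BB (hFc f hf)] at h1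
    have hf0 : (f : E → ℝ) = 0 := by
      by_contra hne
      linarith [hneg' f hf hne]
    have h2 := hch a (z : V6).1 (z : V6).2 (by
      intro g hg'
      have h3 : BD D (k ^ 2) (S (f, a, z)) g = 0 := hx ⟨g, hg'⟩
      rw [hS] at h3
      change BD D (k ^ 2) ((f : E → ℝ) + (Wl w a + pw ν (z : V6).1 (z : V6).2)) g = 0 at h3
      rw [hf0, zero_add] at h3
      exact h3)
    refine Prod.ext (Subtype.ext hf0) (Prod.ext h2.1 (Subtype.ext (Prod.ext h2.2.1 h2.2.2)))
  have hTi : Function.Injective T := by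
    rw [← LinearMap.ker_eq_bot, LinearMap.ker_eq_bot']
    intro x hx
    refine hker1 x fun y => ?_
    rw [hx, map_zero]
    rfl
  obtain ⟨F', hF'1, hF'2, hF'3⟩ := neg_pert (BF D hD (k ^ 2)) (fun x y => BD_comm _ _ _)
    (LinearMap.range T) inferInstance (by
      rintro _ ⟨x, rfl⟩
      rw [hform]
      have h1 : BB (k ^ 2) (x.1 : E → ℝ) x.1 ≤ 0 := by
        by_cases h0 : (x.1 : E → ℝ) = 0
        · rw [h0, ← BD_eq_BB (D := D) (zero_mem _)]
          have := BD_smul_left (hD := hD) (h := (0 : E → ℝ)) 0 (zero_mem (N1 D hD)) (k ^ 2)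
          rw [zero_smul, zero_mul] at this
          rw [this]
        · exact (hneg' _ x.1.2 h0).le
      have h2 := hP2 _ x.2.2.2
      linarith) (by
      rintro _ ⟨x, rfl⟩ hx
      rw [hker1 x hx, map_zero])
  have hfr : m + n + 3 ≤ Module.finrank ℝ F' := by
    rw [LinearMap.finrank_range_of_inj hTi, Module.finrank_prod, Module.finrank_prod,
      Module.finrank_fin_fun] at hF'2
    omega
  refine ⟨F'.map (N1 D hD).subtype, inferInstance, ?_, ?_⟩
  · rw [← (Submodule.equivMapOfInjective (N1 D hD).subtype (Submodule.subtype_injective _)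
      F').finrank_eq]
    exact hfr
  · rintro _ ⟨x, hx, rfl⟩
    have hxm : (x : E → ℝ) ∈ N1 D hD := x.2
    have e1 : (fun y => ‖fderiv ℝ (x : E → ℝ) y‖ ^ 2) = gg (x : E → ℝ) x :=
      funext fun y => norm_fderiv_sq _ y
    refine ⟨hxm.1, hxm.2.1, ?_, fun h0 => ?_⟩
    · change IntegrableOn (fun y => ‖fderiv ℝ (x : E → ℝ) y‖ ^ 2) D
      rw [e1]
      exact hxm.2.2
    · have h1 := hF'3 x hx (by
        rintro rfl
        exact h0 rfl)
      rw [BF_apply, BD_eq hxm hxm] at h1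
      change ∫ y in D, ‖fderiv ℝ (x : E → ℝ) y‖ ^ 2 < k ^ 2 * ∫ y in D, (x : E → ℝ) y ^ 2
      rw [e1]
      have e2 : ∫ y in D, (x : E → ℝ) y * (x : E → ℝ) y = ∫ y in D, (x : E → ℝ) y ^ 2 :=
        integral_congr_ae (Eventually.of_forall fun y => (sq ((x : E → ℝ) y)).symm)
      rw [e2] at h1
      linarith

/-! ### the count -/

theorem neumann_count {φ : E → ℝ} {k c : ℝ} {u : E → ℝ} (h : Sol D φ k c u)
    (hball : ¬∃ (z : E) (r : ℝ), D = ball z r) {m : ℕ} (hm : AtLeast ⊤ D (k ^ 2) m) :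
    NeumannBelow D (k ^ 2) (max m 2 + 8) := by
  have h' := ext_UU h
  by_cases hker : ∀ p : E × E, ww (extU D c u) p = 0 → p = 0
  · -- six independent Killing derivatives
    have hinj : Function.Injective (wwL (extU D c u)) := by
      rw [← LinearMap.ker_eq_bot, LinearMap.ker_eq_bot']
      exact fun p hp => hker p hp
    have hfin : Module.finrank ℝ (E × E) = 6 := by
      rw [Module.finrank_prod, finrank_euclideanSpace_fin]
    let b := Module.finBasisOfFinrankEq ℝ (E × E) hfin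
    have hli : LinearIndependent ℝ (fun i => ww (extU D c u) (b i)) :=
      b.linearIndependent.map' (wwL (extU D c u)) (LinearMap.ker_eq_bot.2 hinj)
    have h1 : AtLeast ⊤ D (k ^ 2) 1 := by
      have := neg1 h' (s := 1) (fun x => by rw [one_smul])
      rwa [Sy_one] at this
    have h2 := plus_three h (fun i => ww (extU D c u) (b i)) (fun i => ww_eigf h' _) hli
      (atLeast_max hm h1)
    exact h2.mono (by omega)
  · push Not at hker
    obtain ⟨p, hp, hp0⟩ := hker
    obtain ⟨q, hq⟩ := rig1a h'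
    have h3 := hq p hp
    have hb : p.2 ≠ 0 := by
      intro h4
      refine hp0 ?_
      rw [h4] at h3
      have h5 : crs 0 q = 0 := by
        have := crs_smul_left 0 0 q
        simpa using this
      rw [h5, neg_zero] at h3
      exact Prod.ext h3 h4
    have h4 : ww (extU D c u) (-crs p.2 q, p.2) = 0 := by
      rw [← h3]; exact hp
    obtain ⟨D', φ', u', h5, h6, h7, h8⟩ := to_axis' h hb h4
    have h9 := h8 _ 2 (ax_two h5 h6 fun hc => hball (h7 hc))
    obtain ⟨w, hli, hw⟩ := five h hball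
    have h10 : AtLeast ⊤ D (k ^ 2) (max m 2) := by
      rcases le_total m 2 with h11 | h11
      · rw [max_eq_right h11]; exact h9
      · rw [max_eq_left h11]; exact hm
    exact (plus_three h w hw hli h10).mono (by omega)

theorem atLeast_of {m : ℕ} (h : DirichletBelow D K m) : AtLeast ⊤ D K m := by
  obtain ⟨F, h1, h2, h3⟩ := h
  refine ⟨F, fun f hf => ⟨⟨(h3 f hf).1, (h3 f hf).2.1, (h3 f hf).2.2.1⟩, trivial⟩, h1, h2,
    fun f hf h0 => (h3 f hf).2.2.2 h0⟩

end Pool.Agent.H68.SN
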