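import Pool.Agent.H68.SN.EigIbp
import Pool.Agent.H68.SN.ExpD

/-!
# Module WNeu (about 50 lines): a Dirichlet eigenfunction is not a Neumann eigenfunction

PROOF. Take `g = exp (ξ · x)`: `Δ g = ‖ξ‖² g` (`pd g i = ξ i g`), so by `eig_ibp`
`0 = BD D K w g = - (‖ξ‖² + K) ∫_D w g` (`BD_eq` with `eig_mem`, `N1_of_contDiff`), hence `∫ w g = 0` for all
`ξ` (`w = 0` outside `D`: `setIntegral_eq_integral_of_forall_compl_eq_zero`); `exp_zero`.
-/

set_option autoImplicit false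

namespace Pool.Agent.H68.SN

open Filter Topology MeasureTheory Metric
open scoped ContDiff
open Pool.Agent.H68.SC

private theorem wn_pd (ξ : E) (c : ℝ) (i : Fin 3) :
    pd (fun x : E => c * Real.exp (inner ℝ ξ x)) i =
      fun x : E => (c * ξ i) * Real.exp (inner ℝ ξ x) := by
  funext x
  have h := ((hasFDerivAt_inner ξ x).exp).const_mul c
  unfold pd
  rw [h.fderiv]
  have h4 : inner ℝ ξ (ee i) = ξ i := by
    rw [EuclideanSpace.inner_single_right]
    simp
  simp only [smul_apply, smul_eq_mul, innerSL_apply_apply]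
  rw [h4]
  ring

theorem eig_neumann {D : Set E} (hD : IsOpen D) (hb : Bornology.IsBounded D) {K : ℝ} (hK : 0 < K)
    {w : E → ℝ} (h : Eigf D K w) (h0 : ∀ g : E → ℝ, ContDiff ℝ ∞ g → BD D K w g = 0) : w = 0 := by
  refine exp_zero hb h.cont h.out fun ξ => ?_
  have hg : ∀ n : ℕ∞, ContDiff ℝ n (fun x : E => 1 * Real.exp (inner ℝ ξ x)) := fun n =>
    contDiff_const.mul (Real.contDiff_exp.comp (contDiff_const.inner ℝ contDiff_id))
  have h1 := h0 _ (hg ⊤)
  have h2 : ContDiff ℝ 1 (fun x : E => 1 * Real.exp (inner ℝ ξ x)) := hg 1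
  have h3 : ContDiff ℝ 2 (fun x : E => 1 * Real.exp (inner ℝ ξ x)) := hg 2
  rw [BD_eq (eig_mem hD hb hK h) (N1_of_contDiff (hD := hD) hb h2), eig_ibp hD hb hK h h3] at h1
  have h5 : ∀ x : E, ∑ i, pd (pd (fun x : E => 1 * Real.exp (inner ℝ ξ x)) i) i x =
      ‖ξ‖ ^ 2 * Real.exp (inner ℝ ξ x) := by
    intro x
    have h6 : ∀ i, pd (pd (fun x : E => 1 * Real.exp (inner ℝ ξ x)) i) i x =
        ξ i ^ 2 * Real.exp (inner ℝ ξ x) := by
      intro i
      rw [wn_pd, wn_pd]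
      ring
    rw [Finset.sum_congr rfl fun i _ => h6 i, ← Finset.sum_mul, EuclideanSpace.norm_sq_eq]
    congr 1
    exact Finset.sum_congr rfl fun j _ => by rw [Real.norm_eq_abs, sq_abs]
  have h7 : ∫ x in D, w x * ∑ i, pd (pd (fun x : E => 1 * Real.exp (inner ℝ ξ x)) i) i x =
      ‖ξ‖ ^ 2 * ∫ x in D, w x * Real.exp (inner ℝ ξ x) := by
    rw [← integral_const_mul]
    congr 1
    funext x
    rw [h5 x]
    ring
  have h8 : ∫ x in D, w x * (1 * Real.exp (inner ℝ ξ x)) =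
      ∫ x in D, w x * Real.exp (inner ℝ ξ x) := by
    congr 1
    funext x
    rw [one_mul]
  rw [h7, h8] at h1
  have h9 : ∫ x in D, w x * Real.exp (inner ℝ ξ x) = ∫ x, w x * Real.exp (inner ℝ ξ x) := by
    refine setIntegral_eq_integral_of_forall_compl_eq_zero fun x hx => ?_
    rw [h.out x hx, zero_mul]
  rw [h9] at h1
  have h10 : (‖ξ‖ ^ 2 + K) * ∫ x, w x * Real.exp (inner ℝ ξ x) = 0 := by linarith
  have h11 : 0 < ‖ξ‖ ^ 2 + K := by positivity
  exact (mul_eq_zero.1 h10).resolve_left h11.ne'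

end Pool.Agent.H68.SN
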